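import Mathlib

/-!
The elementary inequality behind the expansion of `f₀` on the real line.
-/

set_option autoImplicit false

open Real Set

namespace Pool.Agent.E8helper52.RL

/-- a function whose derivative is nonnegative on `(p, q)` increases on `[p, q]` -/
theorem mono_aux {φ φ' : ℝ → ℝ} {p q : ℝ} (hd : ∀ x, HasDerivAt φ (φ' x) x)
    (h0 : ∀ x, p < x → x < q → 0 ≤ φ' x) {x y : ℝ} (hx : p ≤ x) (hxy : x ≤ y) (hy : y ≤ q) :
    φ x ≤ φ y := by
  have : MonotoneOn φ (Icc p q) := by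
    apply monotoneOn_of_deriv_nonneg (convex_Icc p q)
    · exact fun x _ => (hd x).continuousAt.continuousWithinAt
    · exact fun x _ => (hd x).differentiableAt.differentiableWithinAt
    · intro x hx
      rw [interior_Icc] at hx
      rw [(hd x).deriv]
      exact h0 x hx.1 hx.2
  exact this ⟨hx, hxy.trans hy⟩ ⟨hx.trans hxy, hy⟩ hxy

/-- `±π (F x - T n)` in terms of `θ = π |x - n|` and `b = π |n + 1/2|` -/
noncomputable def g (b τ e θ : ℝ) : ℝ :=
  b / 2 * (1 - cos θ) + τ / 2 * (sin θ - θ * cos θ) + e * (θ - sin θ * cos θ)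

/-- the second factor of the derivative -/
noncomputable def h (b τ e θ : ℝ) : ℝ := (b + τ * θ) / 2 + 2 * e * sin θ

theorem g_deriv (b τ e θ : ℝ) : HasDerivAt (g b τ e) (sin θ * h b τ e θ) θ := by
  have hs := Real.hasDerivAt_sin θ
  have hc := Real.hasDerivAt_cos θ
  have h1 := (hc.const_sub 1).const_mul (b / 2)
  have h2 := (hs.sub ((hasDerivAt_id θ).mul hc)).const_mul (τ / 2)
  have h3 := ((hasDerivAt_id θ).sub (hs.mul hc)).const_mul e
  have h4 := (h1.add h2).add h3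
  have h5 := h4.congr_deriv (g' := sin θ * h b τ e θ) (by
    simp only [id_eq]
    unfold h
    linear_combination (e) * (-(sin_sq_add_cos_sq θ)))
  exact h5

theorem g_zero (b τ e : ℝ) : g b τ e 0 = 0 := by simp [g]

theorem E_deriv (b τ e θ l : ℝ) : HasDerivAt (fun t => sin t ^ 2 * h b τ e t - l * g b τ e t)
    (sin θ * ((2 * cos θ - l) * h b τ e θ + sin θ * (τ / 2 + 2 * e * cos θ))) θ := by
  have hs := Real.hasDerivAt_sin θ
  have h1 : HasDerivAt (h b τ e) (τ / 2 + 2 * e * cos θ) θ := by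
    have := (((hasDerivAt_id θ).const_mul τ).const_add b).div_const 2 |>.add (hs.const_mul (2 * e))
    exact this.congr_deriv (by ring)
  have h2 := ((hs.pow 2).mul h1).sub ((g_deriv b τ e θ).const_mul l)
  exact h2.congr_deriv (by simp only [Pi.pow_apply]; push_cast; ring)

/-- the constant of expansion -/
noncomputable def lam : ℝ := 201 / 200

theorem abs_sin_le {y Y : ℝ} (h0 : 0 ≤ y) (h1 : y ≤ Y) : |sin y| ≤ Y := by
  have h2 : |sin y| ≤ |y| := Real.abs_sin_le_abs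
  rw [abs_of_nonneg h0] at h2
  linarith

/-! ### numerical values -/

theorem sqrt5 : (2.2360 : ℝ) < √5 ∧ √5 < 2.2361 := by
  constructor
  · rw [Real.lt_sqrt (by norm_num)]; norm_num
  · rw [Real.sqrt_lt' (by norm_num)]; norm_num

theorem sqrt2 : (1.4142 : ℝ) < √2 ∧ √2 < 1.4143 := by
  constructor
  · rw [Real.lt_sqrt (by norm_num)]; norm_num
  · rw [Real.sqrt_lt' (by norm_num)]; norm_num

theorem sqrt3 : (1.7320 : ℝ) < √3 ∧ √3 < 1.7321 := by
  constructor
  · rw [Real.lt_sqrt (by norm_num)]; norm_num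
  · rw [Real.sqrt_lt' (by norm_num)]; norm_num

theorem cos5 : (0.8090 : ℝ) < cos (π / 5) ∧ cos (π / 5) < 0.8091 := by
  rw [Real.cos_pi_div_five]
  have := sqrt5
  constructor <;> linarith [this.1, this.2]

theorem sin5 : (0.5877 : ℝ) < sin (π / 5) ∧ sin (π / 5) < 0.5878 := by
  have h1 := sin_sq_add_cos_sq (π / 5)
  have h5 : √5 ^ 2 = 5 := Real.sq_sqrt (by norm_num)
  rw [Real.cos_pi_div_five] at h1
  have h2 : sin (π / 5) ^ 2 = (10 - 2 * √5) / 16 := by linarith
  have h0 : 0 < sin (π / 5) := Real.sin_pos_of_pos_of_lt_pi (by positivity) (by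
    linarith [Real.pi_pos])
  have := sqrt5
  constructor
  · nlinarith [this.1, this.2]
  · nlinarith [this.1, this.2]

theorem sin4 : (0.7071 : ℝ) < sin (π / 4) ∧ sin (π / 4) < 0.7072 := by
  rw [Real.sin_pi_div_four]
  have := sqrt2
  constructor <;> linarith [this.1, this.2]

theorem cos4 : (0.7071 : ℝ) < cos (π / 4) ∧ cos (π / 4) < 0.7072 := by
  rw [Real.cos_pi_div_four]
  have := sqrt2
  constructor <;> linarith [this.1, this.2]

theorem sin310 : (0.8090 : ℝ) < sin (3 * π / 10) ∧ sin (3 * π / 10) < 0.8091 := by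
  have : sin (3 * π / 10) = cos (π / 5) := by
    rw [← Real.cos_pi_div_two_sub]
    congr 1; ring
  rw [this]
  exact cos5

theorem cos310 : (0.5877 : ℝ) < cos (3 * π / 10) ∧ cos (3 * π / 10) < 0.5878 := by
  have : cos (3 * π / 10) = sin (π / 5) := by
    rw [← Real.sin_pi_div_two_sub]
    congr 1; ring
  rw [this]
  exact sin5

theorem sin3 : (0.8660 : ℝ) < sin (π / 3) ∧ sin (π / 3) < 0.8661 := by
  rw [Real.sin_pi_div_three]
  have := sqrt3
  constructor <;> linarith [this.1, this.2]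

theorem cos25 : (0.3089 : ℝ) < cos (2 * π / 5) ∧ cos (2 * π / 5) < 0.3094 := by
  have h : cos (2 * π / 5) = 2 * cos (π / 5) ^ 2 - 1 := by
    rw [← Real.cos_two_mul]; congr 1; ring
  rw [h]
  have := cos5
  constructor <;> nlinarith [this.1, this.2]

theorem sin25 : (0.9508 : ℝ) < sin (2 * π / 5) ∧ sin (2 * π / 5) < 0.9512 := by
  have h : sin (2 * π / 5) = 2 * sin (π / 5) * cos (π / 5) := by
    rw [← Real.sin_two_mul]; congr 1; ring
  rw [h]
  have h1 := cos5
  have h2 := sin5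
  constructor <;> nlinarith [h1.1, h1.2, h2.1, h2.2]

theorem sin920 : (0.9876 : ℝ) < sin (9 * π / 20) ∧ sin (9 * π / 20) < 0.9878 := by
  have h1 : sin (9 * π / 20) = cos (π / 20) := by
    rw [← Real.cos_pi_div_two_sub]
    congr 1; ring
  have h2 : cos (π / 10) = 2 * cos (π / 20) ^ 2 - 1 := by
    rw [← Real.cos_two_mul]; congr 1; ring
  have h3 : sin (2 * π / 5) = cos (π / 10) := by
    rw [← Real.cos_pi_div_two_sub]
    congr 1; ring
  have h4 := sin25
  rw [h3, h2] at h4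
  have h0 : 0 < cos (π / 20) := Real.cos_pos_of_mem_Ioo ⟨by linarith [Real.pi_pos], by
    linarith [Real.pi_pos]⟩
  rw [h1]
  constructor <;> nlinarith [h4.1, h4.2]

theorem cos920 : (0.1560 : ℝ) < cos (9 * π / 20) ∧ cos (9 * π / 20) < 0.1569 := by
  have h1 : cos (9 * π / 20) = sin (π / 20) := by
    rw [← Real.sin_pi_div_two_sub]
    congr 1; ring
  have h2 : cos (π / 10) = 1 - 2 * sin (π / 20) ^ 2 := by
    have h := Real.cos_two_mul (π / 20)
    have h' := Real.sin_sq_add_cos_sq (π / 20)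
    have : 2 * (π / 20) = π / 10 := by ring
    rw [this] at h
    linarith
  have h3 : sin (2 * π / 5) = cos (π / 10) := by
    rw [← Real.cos_pi_div_two_sub]
    congr 1; ring
  have h4 := sin25
  rw [h3, h2] at h4
  have h0 : 0 < sin (π / 20) := Real.sin_pos_of_pos_of_lt_pi (by positivity) (by
    linarith [Real.pi_pos])
  rw [h1]
  constructor <;> nlinarith [h4.1, h4.2]

/-- monotonicity of sine and cosine on `[0, π/2]` -/
theorem sin_mono {x y : ℝ} (hx : 0 ≤ x) (hxy : x ≤ y) (hy : y ≤ π / 2) : sin x ≤ sin y :=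
  Real.sin_le_sin_of_le_of_le_pi_div_two (by linarith [Real.pi_pos]) hy hxy

theorem cos_anti {x y : ℝ} (hx : 0 ≤ x) (hxy : x ≤ y) (hy : y ≤ π / 2) : cos y ≤ cos x :=
  Real.cos_le_cos_of_nonneg_of_le_pi hx (by linarith [Real.pi_pos]) hxy

/-! ### the easy case `e = 1` -/

theorem caseI {b τ θ : ℝ} (hb : π / 2 ≤ b) (hτ : τ = 1 ∨ τ = -1) (h0 : 0 ≤ θ) (h1 : θ ≤ π / 2) :
    lam * |sin (g b τ 1 θ)| ≤ sin θ ^ 2 * h b τ 1 θ := by
  have hpi := Real.pi_pos
  have hh : ∀ t, 0 ≤ t → t ≤ π / 2 → 2 * sin t ≤ h b τ 1 t := by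
    intro t ht0 ht1
    unfold h
    rcases hτ with rfl | rfl <;> linarith
  have hs : ∀ t, 0 ≤ t → t ≤ π / 2 → 0 ≤ sin t := fun t a b =>
    Real.sin_nonneg_of_nonneg_of_le_pi a (by linarith)
  have hg : 0 ≤ g b τ 1 θ := by
    rw [← g_zero b τ 1]
    refine mono_aux (g_deriv b τ 1) (p := 0) (q := π / 2) ?_ le_rfl h0 h1
    intro t ht0 ht1
    have a1 := hs t ht0.le ht1.le
    have a2 := hh t ht0.le ht1.le
    exact mul_nonneg a1 (by linarith)
  rcases le_total θ (3 * π / 10) with hθ | hθ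
  · have key : 0 ≤ sin θ ^ 2 * h b τ 1 θ - lam * g b τ 1 θ := by
      have e0 : sin (0 : ℝ) ^ 2 * h b τ 1 0 - lam * g b τ 1 0 = 0 := by
        rw [g_zero]; simp
      rw [← e0]
      refine mono_aux (fun t => E_deriv b τ 1 t lam) (p := 0) (q := 3 * π / 10) ?_ le_rfl h0 hθ
      intro t ht0 ht1
      have a1 := hs t ht0.le (by linarith)
      have a2 := hh t ht0.le (by linarith)
      have a3 : 0.5877 < cos t := cos310.1.trans_le (cos_anti ht0.le ht1.le (by linarith))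
      have a4 : 0 ≤ τ / 2 + 2 * 1 * cos t := by
        rcases hτ with rfl | rfl <;> linarith
      have a5 : 0 ≤ 2 * cos t - lam := by unfold lam; linarith
      have a6 : 0 ≤ h b τ 1 t := by linarith
      positivity
    have := abs_sin_le hg le_rfl
    have hl : (0 : ℝ) ≤ lam := by unfold lam; norm_num
    nlinarith
  · have a1 : 0.8090 < sin θ := sin310.1.trans_le (sin_mono (by positivity) hθ h1)
    have a2 := hh θ h0 h1
    have a3 := Real.abs_sin_le_one (g b τ 1 θ)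
    have a4 : (0.8090 : ℝ) ^ 2 * (2 * 0.8090) ≤ sin θ ^ 2 * h b τ 1 θ := by
      apply mul_le_mul
      · gcongr
      · linarith
      · norm_num
      · positivity
    unfold lam
    nlinarith

/-! ### monotonicity in `b` -/

theorem lift {b₀ b τ e θ : ℝ} (hb : b₀ ≤ b)
    (H : lam ≤ sin θ ^ 2 * h b₀ τ e θ ∨
      (lam - 1 ≤ cos θ ∧ lam * |sin (g b₀ τ e θ)| ≤ sin θ ^ 2 * h b₀ τ e θ)) :
    lam * |sin (g b τ e θ)| ≤ sin θ ^ 2 * h b τ e θ := by
  have e1 : h b τ e θ = h b₀ τ e θ + (b - b₀) / 2 := by unfold h; ring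
  have e2 : g b τ e θ - g b₀ τ e θ = (b - b₀) / 2 * (1 - cos θ) := by unfold g; ring
  have hd : 0 ≤ (b - b₀) / 2 := by linarith
  have hl : (0 : ℝ) < lam := by unfold lam; norm_num
  rcases H with H | ⟨H1, H2⟩
  · have a3 := Real.abs_sin_le_one (g b τ e θ)
    have a4 : 0 ≤ sin θ ^ 2 * ((b - b₀) / 2) := by positivity
    rw [e1]
    nlinarith
  · have h1 := Real.abs_sin_sub_sin_le (g b τ e θ) (g b₀ τ e θ)
    have hc := Real.cos_le_one θ
    rw [e2, abs_of_nonneg (mul_nonneg hd (by linarith))] at h1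
    have h2 : |sin (g b τ e θ)| ≤ |sin (g b₀ τ e θ)| + (b - b₀) / 2 * (1 - cos θ) := by
      have := abs_sub_abs_le_abs_sub (sin (g b τ e θ)) (sin (g b₀ τ e θ))
      linarith
    have h3 : sin θ ^ 2 = (1 - cos θ) * (1 + cos θ) := by
      have := sin_sq_add_cos_sq θ
      linarith
    rw [e1]
    have h4 : lam * ((b - b₀) / 2 * (1 - cos θ)) ≤ sin θ ^ 2 * ((b - b₀) / 2) := by
      rw [h3]
      have : 0 ≤ (b - b₀) / 2 * (1 - cos θ) := mul_nonneg hd (by linarith)
      nlinarith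
    nlinarith

/-- lower bound for `E` on an interval of nodes -/
theorem E_lower {S K S1 K1 : ℝ} (h1 : 0 ≤ S1) (h2 : S1 ≤ S) (h3 : K1 ≤ K) (h4 : 3 * S ≤ K1) :
    S1 ^ 2 * (K1 - 2 * S1) ≤ S ^ 2 * (K - 2 * S) := by
  have a : S1 ^ 2 * (K1 - 2 * S1) ≤ S ^ 2 * (K1 - 2 * S) := by
    have : S ^ 2 * (K1 - 2 * S) - S1 ^ 2 * (K1 - 2 * S1) =
        (S - S1) * ((K1 - 3 * S) * (S + S1) + (S ^ 2 + S * S1 - 2 * S1 ^ 2)) := by ring
    have h5 : 0 ≤ S ^ 2 + S * S1 - 2 * S1 ^ 2 := by nlinarith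
    have h6 : 0 ≤ (K1 - 3 * S) * (S + S1) := mul_nonneg (by linarith) (by linarith)
    have h7 : 0 ≤ (S - S1) * ((K1 - 3 * S) * (S + S1) + (S ^ 2 + S * S1 - 2 * S1 ^ 2)) :=
      mul_nonneg (by linarith) (by linarith)
    linarith
  refine a.trans ?_
  gcongr

/-- the tangent bound at `π/4` -/
theorem sin_tangent {y Y : ℝ} (h0 : 0 ≤ y) (h1 : y ≤ Y) (hY : π / 4 ≤ Y) :
    |sin y| ≤ 0.7072 * (1 + (Y - π / 4)) ∨ π / 2 < Y := by
  rcases le_or_gt Y (π / 2) with hY2 | hY2
  · left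
    have hs : 0 ≤ sin y := Real.sin_nonneg_of_nonneg_of_le_pi h0 (by linarith [Real.pi_pos])
    rw [abs_of_nonneg hs]
    have b1 := sin4
    have b2 := cos4
    have h3 : sin y ≤ sin Y := sin_mono h0 h1 hY2
    refine h3.trans ?_
    have e : sin Y = sin (π / 4) * cos (Y - π / 4) + cos (π / 4) * sin (Y - π / 4) := by
      rw [← Real.sin_add]; congr 1; ring
    rw [e]
    have c1 := Real.cos_le_one (Y - π / 4)
    have c2 := Real.sin_le (x := Y - π / 4) (by linarith)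
    have c3 : 0 ≤ Y - π / 4 := by linarith
    nlinarith [b1.1, b1.2, b2.1, b2.2]
  · exact Or.inr hY2

end Pool.Agent.E8helper52.RL
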