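import Mathlib
import Pool.Agent.E8helper52.RL.Core

/-!
The elementary inequality behind the expansion of `f₀` on the real line: the hard cases.
-/

set_option autoImplicit false

open Real Set

namespace Pool.Agent.E8helper52.RL

section
variable {b τ : ℝ} (hh : ∀ t, 0 ≤ t → t ≤ π / 2 → 0 ≤ h b τ (-1) t)
include hh

theorem g_mono {x y : ℝ} (hx : 0 ≤ x) (hxy : x ≤ y) (hy : y ≤ π / 2) :
    g b τ (-1) x ≤ g b τ (-1) y := by
  refine mono_aux (g_deriv b τ (-1)) (p := 0) (q := π / 2) ?_ hx hxy hy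
  intro t ht0 ht1
  have a1 : 0 ≤ sin t := Real.sin_nonneg_of_nonneg_of_le_pi ht0.le (by linarith [Real.pi_pos])
  exact mul_nonneg a1 (hh t ht0.le ht1.le)

theorem g_nonneg {x : ℝ} (hx : 0 ≤ x) (hy : x ≤ π / 2) : 0 ≤ g b τ (-1) x := by
  have := g_mono hh le_rfl hx hy
  rwa [g_zero] at this

/-- the range near zero -/
theorem near_zero (hP : ∀ t, 0 ≤ t → t ≤ π / 5 →
      0 ≤ (2 * cos t - lam) * h b τ (-1) t + sin t * (τ / 2 + 2 * (-1) * cos t))
    {θ : ℝ} (h0 : 0 ≤ θ) (h1 : θ ≤ π / 5) :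
    lam * |sin (g b τ (-1) θ)| ≤ sin θ ^ 2 * h b τ (-1) θ := by
  have hpi := Real.pi_pos
  have key : 0 ≤ sin θ ^ 2 * h b τ (-1) θ - lam * g b τ (-1) θ := by
    have e0 : sin (0 : ℝ) ^ 2 * h b τ (-1) 0 - lam * g b τ (-1) 0 = 0 := by
      rw [g_zero]; simp
    rw [← e0]
    refine mono_aux (fun t => E_deriv b τ (-1) t lam) (p := 0) (q := π / 5) ?_ le_rfl h0 h1
    intro t ht0 ht1
    have a1 : 0 ≤ sin t := Real.sin_nonneg_of_nonneg_of_le_pi ht0.le (by linarith)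
    exact mul_nonneg a1 (hP t ht0.le ht1.le)
  have hg := g_nonneg hh h0 (by linarith : θ ≤ π / 2)
  have := abs_sin_le hg le_rfl
  have hl : (0 : ℝ) ≤ lam := by unfold lam; norm_num
  nlinarith

theorem seg_lin {θ₂ θ G : ℝ} (h0 : 0 ≤ θ) (h2 : θ ≤ θ₂) (h3 : θ₂ ≤ π / 2)
    (hG : g b τ (-1) θ₂ ≤ G) : |sin (g b τ (-1) θ)| ≤ G :=
  abs_sin_le (g_nonneg hh h0 (h2.trans h3)) ((g_mono hh h0 h2 h3).trans hG)

theorem seg_tan {θ₂ θ G : ℝ} (h0 : 0 ≤ θ) (h2 : θ ≤ θ₂) (h3 : θ₂ ≤ π / 2)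
    (hG : g b τ (-1) θ₂ ≤ G) (hG4 : π / 4 ≤ G) (hG2 : G ≤ π / 2) :
    |sin (g b τ (-1) θ)| ≤ 0.7072 * (1 + (G - π / 4)) := by
  rcases sin_tangent (g_nonneg hh h0 (h2.trans h3)) ((g_mono hh h0 h2 h3).trans hG) hG4 with h | h
  · exact h
  · linarith

end

/-- lower bound of `E` on a segment -/
theorem seg_E {b τ θ₁ θ₂ θ S1 K1 : ℝ} (h0 : 0 ≤ θ₁) (h1 : θ₁ ≤ θ) (h2 : θ ≤ θ₂)
    (h3 : θ₂ ≤ π / 2) (hS0 : 0 ≤ S1) (hS : S1 ≤ sin θ₁) (hK : K1 ≤ (b + τ * θ) / 2)
    (hK3 : 3 * sin θ₂ ≤ K1) : S1 ^ 2 * (K1 - 2 * S1) ≤ sin θ ^ 2 * h b τ (-1) θ := by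
  have e : h b τ (-1) θ = (b + τ * θ) / 2 - 2 * sin θ := by unfold h; ring
  rw [e]
  have a1 := sin_mono h0 h1 (h2.trans h3)
  have a2 := sin_mono (h0.trans h1) h2 h3
  exact E_lower hS0 (hS.trans a1) hK (by linarith)

theorem g_bound_pos {b θ b2 c1 c2 s2 t1 : ℝ} (hb : b ≤ b2) (hb0 : 0 ≤ b2) (h1 : c1 ≤ cos θ)
    (h2 : cos θ ≤ c2) (hs : sin θ ≤ s2) (ht : t1 ≤ θ) (hc0 : 0 ≤ c1) (ht0 : 0 ≤ t1)
    (hs0 : 0 ≤ sin θ) :
    g b 1 (-1) θ ≤ b2 / 2 * (1 - c1) + 1 / 2 * (s2 - t1 * c1) - t1 + s2 * c2 := by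
  unfold g
  have a1 : b / 2 * (1 - cos θ) ≤ b2 / 2 * (1 - c1) := by
    have := Real.cos_le_one θ
    apply mul_le_mul <;> linarith
  have a2 : t1 * c1 ≤ θ * cos θ := by
    apply mul_le_mul <;> linarith
  have a3 : sin θ * cos θ ≤ s2 * c2 := by
    apply mul_le_mul <;> linarith
  linarith

theorem g_bound_neg {b θ b2 c1 c2 s1 s2 t1 t2 : ℝ} (hb : b ≤ b2) (hb0 : 0 ≤ b2) (h1 : c1 ≤ cos θ)
    (h2 : cos θ ≤ c2) (hs1 : s1 ≤ sin θ) (hs : sin θ ≤ s2) (ht : t1 ≤ θ) (ht2 : θ ≤ t2)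
    (hc0 : 0 ≤ c1) (ht0 : 0 ≤ t1) (hs0 : 0 ≤ sin θ) :
    g b (-1) (-1) θ ≤ b2 / 2 * (1 - c1) - 1 / 2 * (s1 - t2 * c2) - t1 + s2 * c2 := by
  unfold g
  have a1 : b / 2 * (1 - cos θ) ≤ b2 / 2 * (1 - c1) := by
    have := Real.cos_le_one θ
    apply mul_le_mul <;> linarith
  have a2 : θ * cos θ ≤ t2 * c2 := by
    apply mul_le_mul <;> linarith
  have a3 : sin θ * cos θ ≤ s2 * c2 := by
    apply mul_le_mul <;> linarith
  linarith

/-! ### case III: `τ = 1`, `e = -1`, `b ≥ 3π/2` -/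

theorem hIII (t : ℝ) (h0 : 0 ≤ t) (_h1 : t ≤ π / 2) : 0 ≤ h (3 * π / 2) 1 (-1) t := by
  unfold h
  have := Real.sin_le_one t
  have := Real.pi_gt_three
  linarith

theorem PIII (t : ℝ) (h0 : 0 ≤ t) (h1 : t ≤ π / 5) :
    0 ≤ (2 * cos t - lam) * h (3 * π / 2) 1 (-1) t + sin t * (1 / 2 + 2 * (-1) * cos t) := by
  have p1 := Real.pi_gt_d4
  have a1 : 0 ≤ sin t := Real.sin_nonneg_of_nonneg_of_le_pi h0 (by linarith)
  have a2 : sin t ≤ 0.5878 := (sin_mono h0 h1 (by linarith)).trans sin5.2.le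
  have a3 : 0.8090 ≤ cos t := cos5.1.le.trans (cos_anti h0 h1 (by linarith))
  have a4 : 1.1805 ≤ h (3 * π / 2) 1 (-1) t := by unfold h; norm_num at p1 ⊢; linarith
  have a5 : (2 * cos t - lam) * 1.1805 ≤ (2 * cos t - lam) * h (3 * π / 2) 1 (-1) t := by
    apply mul_le_mul_of_nonneg_left a4
    unfold lam; linarith
  have a6 : sin t * (2 * cos t - 1 / 2) ≤ 0.5878 * (2 * cos t - 1 / 2) := by
    apply mul_le_mul_of_nonneg_right a2
    linarith
  unfold lam at a5 ⊢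
  nlinarith

theorem baseIII {θ : ℝ} (h0 : 0 ≤ θ) (h1 : θ ≤ π / 2) :
    lam ≤ sin θ ^ 2 * h (3 * π / 2) 1 (-1) θ ∨
      (lam - 1 ≤ cos θ ∧ lam * |sin (g (3 * π / 2) 1 (-1) θ)| ≤
        sin θ ^ 2 * h (3 * π / 2) 1 (-1) θ) := by
  have p1 := Real.pi_gt_d4
  have p2 := Real.pi_lt_d4
  norm_num at p1 p2
  rcases le_total (9 * π / 20) θ with h9 | h9
  · left
    have := seg_E (b := 3 * π / 2) (τ := 1) (θ₁ := 9 * π / 20) (θ₂ := π / 2) (θ := θ)
      (S1 := 0.9876) (K1 := 3.0629) (by linarith) h9 h1 le_rfl (by norm_num) sin920.1.le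
      (by linarith) (by rw [Real.sin_pi_div_two]; norm_num)
    refine le_trans ?_ this
    unfold lam; norm_num
  · right
    refine ⟨?_, ?_⟩
    · have := cos920.1.trans_le (cos_anti h0 h9 (by linarith))
      unfold lam; linarith
    have hl : (0 : ℝ) < lam := by unfold lam; norm_num
    rcases le_total θ (π / 5) with k1 | k1
    · exact near_zero hIII PIII h0 k1
    rcases le_total θ (π / 4) with k2 | k2
    · have e1 := seg_E (b := 3 * π / 2) (τ := 1) (θ₁ := π / 5) (θ₂ := π / 4) (θ := θ)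
        (S1 := 0.5877) (K1 := 2.6702) (by linarith) k1 k2 (by linarith) (by norm_num) sin5.1.le
        (by linarith) (by linarith [sin4.2])
      have e2 := g_bound_pos (b := 3 * π / 2) (θ := π / 4) (b2 := 4.7124) (c1 := 0.7071)
        (c2 := 0.7072) (s2 := 0.7072) (t1 := 0.7853) (by linarith) (by norm_num) cos4.1.le
        cos4.2.le sin4.2.le (by linarith) (by norm_num) (by norm_num) (by linarith [sin4.1])
      have e3 := seg_lin hIII h0 k2 (by linarith) e2
      have e4 := mul_le_mul_of_nonneg_left e3 hl.le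
      refine e4.trans (le_trans ?_ e1)
      unfold lam; norm_num
    rcases le_total θ (3 * π / 10) with k3 | k3
    · have e1 := seg_E (b := 3 * π / 2) (τ := 1) (θ₁ := π / 4) (θ₂ := 3 * π / 10) (θ := θ)
        (S1 := 0.7071) (K1 := 2.7488) (by linarith) k2 k3 (by linarith) (by norm_num) sin4.1.le
        (by linarith) (by linarith [sin310.2])
      have e2 := g_bound_pos (b := 3 * π / 2) (θ := 3 * π / 10) (b2 := 4.7124) (c1 := 0.5877)
        (c2 := 0.5878) (s2 := 0.8091) (t1 := 0.9424) (by linarith) (by norm_num) cos310.1.le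
        cos310.2.le sin310.2.le (by linarith) (by norm_num) (by norm_num) (by linarith [sin310.1])
      have e3 := seg_lin hIII h0 k3 (by linarith) e2
      have e4 := mul_le_mul_of_nonneg_left e3 hl.le
      refine e4.trans (le_trans ?_ e1)
      unfold lam; norm_num
    rcases le_total θ (π / 3) with k4 | k4
    · have e1 := seg_E (b := 3 * π / 2) (τ := 1) (θ₁ := 3 * π / 10) (θ₂ := π / 3) (θ := θ)
        (S1 := 0.8090) (K1 := 2.8273) (by linarith) k3 k4 (by linarith) (by norm_num) sin310.1.le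
        (by linarith) (by linarith [sin3.2])
      have e2 := g_bound_pos (b := 3 * π / 2) (θ := π / 3) (b2 := 4.7124) (c1 := 0.5)
        (c2 := 0.5) (s2 := 0.8661) (t1 := 1.0471) (by linarith) (by norm_num)
        (by rw [Real.cos_pi_div_three]; norm_num) (by rw [Real.cos_pi_div_three]; norm_num)
        sin3.2.le (by linarith) (by norm_num) (by norm_num) (by linarith [sin3.1])
      have e3 := seg_lin hIII h0 k4 (by linarith) e2
      have e4 := mul_le_mul_of_nonneg_left e3 hl.le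
      refine e4.trans (le_trans ?_ e1)
      unfold lam; norm_num
    rcases le_total θ (2 * π / 5) with k5 | k5
    · have e1 := seg_E (b := 3 * π / 2) (τ := 1) (θ₁ := π / 3) (θ₂ := 2 * π / 5) (θ := θ)
        (S1 := 0.8660) (K1 := 2.8797) (by linarith) k4 k5 (by linarith) (by norm_num) sin3.1.le
        (by linarith) (by linarith [sin25.2])
      have e2 := g_bound_pos (b := 3 * π / 2) (θ := 2 * π / 5) (b2 := 4.7124) (c1 := 0.3089)
        (c2 := 0.3094) (s2 := 0.9512) (t1 := 1.2566) (by linarith) (by norm_num) cos25.1.le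
        cos25.2.le sin25.2.le (by linarith) (by norm_num) (by norm_num) (by linarith [sin25.1])
      have e2' : g (3 * π / 2) 1 (-1) (2 * π / 5) ≤ 0.96 := by
        refine e2.trans ?_; norm_num
      have e3 := seg_tan hIII h0 k5 (by linarith) e2' (by linarith) (by linarith)
      have e4 := mul_le_mul_of_nonneg_left e3 hl.le
      refine e4.trans (le_trans ?_ e1)
      unfold lam; linarith
    · have e1 := seg_E (b := 3 * π / 2) (τ := 1) (θ₁ := 2 * π / 5) (θ₂ := 9 * π / 20) (θ := θ)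
        (S1 := 0.9508) (K1 := 2.9844) (by linarith) k5 h9 (by linarith) (by norm_num) sin25.1.le
        (by linarith) (by linarith [sin920.2])
      have e2 := g_bound_pos (b := 3 * π / 2) (θ := 9 * π / 20) (b2 := 4.7124) (c1 := 0.1560)
        (c2 := 0.1569) (s2 := 0.9878) (t1 := 1.4136) (by linarith) (by norm_num) cos920.1.le
        cos920.2.le sin920.2.le (by linarith) (by norm_num) (by norm_num) (by linarith [sin920.1])
      have e2' : g (3 * π / 2) 1 (-1) (9 * π / 20) ≤ 1.13 := by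
        refine e2.trans ?_; norm_num
      have e3 := seg_tan hIII h0 h9 (by linarith) e2' (by linarith) (by linarith)
      have e4 := mul_le_mul_of_nonneg_left e3 hl.le
      refine e4.trans (le_trans ?_ e1)
      unfold lam; linarith

theorem caseIII {b θ : ℝ} (hb : 3 * π / 2 ≤ b) (h0 : 0 ≤ θ) (h1 : θ ≤ π / 2) :
    lam * |sin (g b 1 (-1) θ)| ≤ sin θ ^ 2 * h b 1 (-1) θ := lift hb (baseIII h0 h1)

/-! ### case II: `τ = -1`, `e = -1`, `b ≥ 5π/2` -/

theorem hII (t : ℝ) (_h0 : 0 ≤ t) (h1 : t ≤ π / 2) : 0 ≤ h (5 * π / 2) (-1) (-1) t := by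
  unfold h
  have := Real.sin_le_one t
  have := Real.pi_gt_three
  linarith

theorem PII (t : ℝ) (h0 : 0 ≤ t) (h1 : t ≤ π / 5) :
    0 ≤ (2 * cos t - lam) * h (5 * π / 2) (-1) (-1) t + sin t * (-1 / 2 + 2 * (-1) * cos t) := by
  have p1 := Real.pi_gt_d4
  norm_num at p1
  have a1 : 0 ≤ sin t := Real.sin_nonneg_of_nonneg_of_le_pi h0 (by linarith)
  have a2 : sin t ≤ 0.5878 := (sin_mono h0 h1 (by linarith)).trans sin5.2.le
  have a3 : 0.8090 ≤ cos t := cos5.1.le.trans (cos_anti h0 h1 (by linarith))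
  have a4 : 2.437 ≤ h (5 * π / 2) (-1) (-1) t := by unfold h; linarith
  have a5 : (2 * cos t - lam) * 2.437 ≤ (2 * cos t - lam) * h (5 * π / 2) (-1) (-1) t := by
    apply mul_le_mul_of_nonneg_left a4
    unfold lam; linarith
  have a6 : sin t * (2 * cos t + 1 / 2) ≤ 0.5878 * (2 * cos t + 1 / 2) := by
    apply mul_le_mul_of_nonneg_right a2
    linarith
  unfold lam at a5 ⊢
  nlinarith

theorem baseII {θ : ℝ} (h0 : 0 ≤ θ) (h1 : θ ≤ π / 2) :
    lam ≤ sin θ ^ 2 * h (5 * π / 2) (-1) (-1) θ ∨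
      (lam - 1 ≤ cos θ ∧ lam * |sin (g (5 * π / 2) (-1) (-1) θ)| ≤
        sin θ ^ 2 * h (5 * π / 2) (-1) (-1) θ) := by
  have p1 := Real.pi_gt_d4
  have p2 := Real.pi_lt_d4
  norm_num at p1 p2
  rcases le_total (π / 4) θ with h9 | h9
  · left
    rcases le_total θ (3 * π / 10) with k3 | k3
    · have := seg_E (b := 5 * π / 2) (τ := -1) (θ₁ := π / 4) (θ₂ := 3 * π / 10) (θ := θ)
        (S1 := 0.7071) (K1 := 3.4556) (by linarith) h9 k3 (by linarith) (by norm_num) sin4.1.le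
        (by linarith) (by linarith [sin310.2])
      refine le_trans ?_ this
      unfold lam; norm_num
    rcases le_total θ (2 * π / 5) with k5 | k5
    · have := seg_E (b := 5 * π / 2) (τ := -1) (θ₁ := 3 * π / 10) (θ₂ := 2 * π / 5) (θ := θ)
        (S1 := 0.8090) (K1 := 3.2985) (by linarith) k3 k5 (by linarith) (by norm_num) sin310.1.le
        (by linarith) (by linarith [sin25.2])
      refine le_trans ?_ this
      unfold lam; norm_num
    · have := seg_E (b := 5 * π / 2) (τ := -1) (θ₁ := 2 * π / 5) (θ₂ := π / 2) (θ := θ)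
        (S1 := 0.9508) (K1 := 3.1415) (by linarith) k5 h1 le_rfl (by norm_num) sin25.1.le
        (by linarith) (by rw [Real.sin_pi_div_two]; norm_num)
      refine le_trans ?_ this
      unfold lam; norm_num
  · right
    refine ⟨?_, ?_⟩
    · have := cos4.1.trans_le (cos_anti h0 h9 (by linarith))
      unfold lam; linarith
    have hl : (0 : ℝ) < lam := by unfold lam; norm_num
    rcases le_total θ (π / 5) with k1 | k1
    · exact near_zero hII PII h0 k1
    · have e1 := seg_E (b := 5 * π / 2) (τ := -1) (θ₁ := π / 5) (θ₂ := π / 4) (θ := θ)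
        (S1 := 0.5877) (K1 := 3.5341) (by linarith) k1 h9 (by linarith) (by norm_num) sin5.1.le
        (by linarith) (by linarith [sin4.2])
      have e2 := g_bound_neg (b := 5 * π / 2) (θ := π / 4) (b2 := 7.854) (c1 := 0.7071)
        (c2 := 0.7072) (s1 := 0.7071) (s2 := 0.7072) (t1 := 0.7853) (t2 := 0.7854) (by linarith)
        (by norm_num) cos4.1.le cos4.2.le sin4.1.le sin4.2.le (by linarith) (by linarith)
        (by norm_num) (by norm_num) (by linarith [sin4.1])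
      have e3 := seg_lin hII h0 h9 (by linarith) e2
      have e4 := mul_le_mul_of_nonneg_left e3 hl.le
      refine e4.trans (le_trans ?_ e1)
      unfold lam; norm_num

theorem caseII {b θ : ℝ} (hb : 5 * π / 2 ≤ b) (h0 : 0 ≤ θ) (h1 : θ ≤ π / 2) :
    lam * |sin (g b (-1) (-1) θ)| ≤ sin θ ^ 2 * h b (-1) (-1) θ := lift hb (baseII h0 h1)

end Pool.Agent.E8helper52.RL
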