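import Mathlib
import Pool.Agent.E8helper52.RL.Core2
import Pool.Agent.H723R2.LSWJulia

/-!
Expansion of `f₀` on the real line in the metric `π |dx| / |sin π x|`, off `[-2,-1] ∪ [-1/2,0]`.
-/

set_option autoImplicit false

open Real Set

namespace Pool.Agent.E8helper52.RL

open Pool.Agent.H723R2.LSW (F T F_int)

/-- `F' x = sin (π x) * hh x` -/
noncomputable def hh (x : ℝ) : ℝ := π / 2 * (x + 1 / 2) + 2 * sin (π * x)

theorem F_deriv (x : ℝ) : HasDerivAt F (sin (π * x) * hh x) x := by
  have hpi : HasDerivAt (fun z : ℝ => π * z) π x := by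
    simpa using (hasDerivAt_id x).const_mul π
  have hc : HasDerivAt (fun z : ℝ => cos (π * z)) (-sin (π * x) * π) x :=
    (Real.hasDerivAt_cos _).comp x hpi
  have hs : HasDerivAt (fun z : ℝ => sin (π * z)) (cos (π * x) * π) x :=
    (Real.hasDerivAt_sin _).comp x hpi
  have h1 : HasDerivAt (fun z : ℝ => z / 2) (1 / 2) x := (hasDerivAt_id x).div_const 2
  have h2 : HasDerivAt (fun z : ℝ => z + 1 / 2) 1 x := (hasDerivAt_id x).add_const _
  have h3 := (hc.const_sub 1).div_const 2
  have h4 := h2.mul h3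
  have h5 := ((hc.const_sub (1 / 2)).const_mul (1 / π)).mul hs
  have h6 := (h1.add h4).add h5
  have hpi0 : π ≠ 0 := Real.pi_ne_zero
  refine (h6.congr_deriv ?_ : HasDerivAt F _ x)
  have hcs := sin_sq_add_cos_sq (π * x)
  unfold hh
  field_simp
  linear_combination (-4 : ℝ) * hcs

/-- the sign `(-1)^n` -/
noncomputable def ep (n : ℤ) : ℝ := cos (π * n)

theorem sin_pi_int (n : ℤ) : sin (π * n) = 0 := by
  rw [mul_comm]; exact Real.sin_int_mul_pi n

theorem ep_even {n : ℤ} (h : n % 2 = 0) : ep n = 1 := by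
  obtain ⟨m, rfl⟩ : ∃ m, n = 2 * m := ⟨n / 2, by omega⟩
  unfold ep
  rw [show π * ((2 * m : ℤ) : ℝ) = m * (2 * π) by push_cast; ring]
  exact Real.cos_int_mul_two_pi m

theorem ep_odd {n : ℤ} (h : n % 2 = 1) : ep n = -1 := by
  obtain ⟨m, rfl⟩ : ∃ m, n = 2 * m + 1 := ⟨n / 2, by omega⟩
  unfold ep
  rw [show π * ((2 * m + 1 : ℤ) : ℝ) = m * (2 * π) + π by push_cast; ring, Real.cos_add_pi,
    Real.cos_int_mul_two_pi]

theorem ep_sq (n : ℤ) : ep n ^ 2 = 1 := by
  have := sin_sq_add_cos_sq (π * n)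
  rw [sin_pi_int] at this
  unfold ep
  linarith

theorem ep_abs (n : ℤ) : |ep n| = 1 := by
  rcases Int.emod_two_eq_zero_or_one n with h | h
  · rw [ep_even h]; simp
  · rw [ep_odd h]; simp

theorem cos_shift (n : ℤ) (d : ℝ) : cos (π * (n + d)) = ep n * cos (π * d) := by
  rw [mul_add, Real.cos_add, sin_pi_int]; unfold ep; ring

theorem sin_shift (n : ℤ) (d : ℝ) : sin (π * (n + d)) = ep n * sin (π * d) := by
  rw [mul_add, Real.sin_add, sin_pi_int]; unfold ep; ring

theorem F_local (n : ℤ) (d : ℝ) :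
    π * (F (n + d) - T n) = ep n * g (π * (n + 1 / 2)) 1 (ep n) (π * d) := by
  rw [← F_int]
  unfold F g
  rw [cos_shift, sin_shift, sin_pi_int, show cos (π * (n : ℝ)) = ep n from rfl]
  have h := ep_sq n
  have hpi0 : π ≠ 0 := Real.pi_ne_zero
  field_simp
  linear_combination (-4 * (π * d)) * h

theorem g_neg_arg (b τ e t : ℝ) : g b τ e (-t) = g b (-τ) (-e) t := by
  unfold g; rw [Real.cos_neg, Real.sin_neg]; ring

theorem h_neg_arg (b τ e t : ℝ) : h b τ e (-t) = h b (-τ) (-e) t := by
  unfold h; rw [Real.sin_neg]; ring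

theorem g_neg_b (b τ e t : ℝ) : g (-b) τ e t = -g b (-τ) (-e) t := by
  unfold g; ring

theorem h_neg_b (b τ e t : ℝ) : h (-b) τ e t = -h b (-τ) (-e) t := by
  unfold h; ring

theorem abs_sin_F (n : ℤ) (d : ℝ) :
    |sin (π * F (n + d))| = |sin (g (π * (n + 1 / 2)) 1 (ep n) (π * d))| := by
  have h1 := F_local n d
  have h2 : π * F (n + d) = π * ((T n : ℤ) : ℝ) +
      ep n * g (π * (n + 1 / 2)) 1 (ep n) (π * d) := by linarith
  rw [h2, Real.sin_add, sin_pi_int, zero_mul, zero_add, abs_mul,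
    show cos (π * ((T n : ℤ) : ℝ)) = ep (T n) from rfl, ep_abs, one_mul]
  rcases Int.emod_two_eq_zero_or_one n with h | h
  · rw [ep_even h, one_mul]
  · rw [ep_odd h, neg_one_mul, Real.sin_neg, abs_neg]

theorem hh_local (n : ℤ) (d : ℝ) : hh (n + d) = h (π * (n + 1 / 2)) 1 (ep n) (π * d) := by
  unfold hh h
  rw [sin_shift]
  ring

theorem sin_sq_local (n : ℤ) (d : ℝ) : sin (π * (n + d)) ^ 2 = sin (π * d) ^ 2 := by
  rw [sin_shift, mul_pow, ep_sq, one_mul]

theorem core_local (n : ℤ) (d : ℝ) (hd : |d| ≤ 1 / 2) (h1 : ¬ (-2 ≤ n + d ∧ n + d ≤ -1))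
    (h2 : ¬ (-1 / 2 ≤ n + d ∧ n + d ≤ 0)) :
    lam * |sin (g (π * (n + 1 / 2)) 1 (ep n) (π * d))| ≤
      sin (π * d) ^ 2 * |h (π * (n + 1 / 2)) 1 (ep n) (π * d)| := by
  have hpi := Real.pi_pos
  obtain ⟨hd1, hd2⟩ := abs_le.1 hd
  have key : ∀ (b τ e t : ℝ), lam * |sin (g b τ e t)| ≤ sin t ^ 2 * h b τ e t →
      lam * |sin (g b τ e t)| ≤ sin t ^ 2 * |h b τ e t| := by
    intro b τ e t h
    exact h.trans (mul_le_mul_of_nonneg_left (le_abs_self _) (sq_nonneg _))
  have hneg : ∀ (b τ e t : ℝ), lam * |sin (g b (-τ) (-e) t)| ≤ sin t ^ 2 * h b (-τ) (-e) t →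
      lam * |sin (g b τ e (-t))| ≤ sin (-t) ^ 2 * |h b τ e (-t)| := by
    intro b τ e t hx
    rw [g_neg_arg, h_neg_arg, Real.sin_neg, neg_sq]
    exact key _ _ _ _ hx
  rcases le_or_gt 0 n with hn | hn
  · have hn' : (0 : ℝ) ≤ n := by exact_mod_cast hn
    have hb1 : π / 2 ≤ π * (n + 1 / 2) := by nlinarith
    rcases le_or_gt 0 d with hd0 | hd0
    · have t0 : 0 ≤ π * d := by positivity
      have t1 : π * d ≤ π / 2 := by nlinarith
      rcases Int.emod_two_eq_zero_or_one n with hp | hp
      · rw [ep_even hp]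
        exact key _ _ _ _ (caseI hb1 (Or.inl rfl) t0 t1)
      · rw [ep_odd hp]
        refine key _ _ _ _ (caseIII ?_ t0 t1)
        have : (1 : ℝ) ≤ n := by
          have : 1 ≤ n := by omega
          exact_mod_cast this
        nlinarith
    · have t0 : 0 ≤ π * (-d) := by
        have : 0 < -d := by linarith
        positivity
      have t1 : π * (-d) ≤ π / 2 := by nlinarith
      have e : π * d = -(π * (-d)) := by ring
      rw [e]
      apply hneg
      rcases Int.emod_two_eq_zero_or_one n with hp | hp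
      · rw [ep_even hp]
        have : (2 : ℝ) ≤ n := by
          have : n ≠ 0 := by
            rintro rfl
            apply h2
            push_cast
            constructor <;> linarith
          have : 2 ≤ n := by omega
          exact_mod_cast this
        exact caseII (by nlinarith) t0 t1
      · rw [ep_odd hp, neg_neg]
        exact caseI hb1 (Or.inr rfl) t0 t1
  · have hn' : (n : ℝ) ≤ -1 := by
      have : n ≤ -1 := by omega
      exact_mod_cast this
    have hb : π * ((n : ℝ) + 1 / 2) = -(π * (-n - 1 / 2)) := by ring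
    have hb1 : π / 2 ≤ π * (-(n : ℝ) - 1 / 2) := by nlinarith
    have hflip : ∀ (b τ e t : ℝ), lam * |sin (g b (-τ) (-e) t)| ≤
        sin t ^ 2 * |h b (-τ) (-e) t| →
        lam * |sin (g (-b) τ e t)| ≤ sin t ^ 2 * |h (-b) τ e t| := by
      intro b τ e t hx
      rw [g_neg_b, h_neg_b, Real.sin_neg, abs_neg, abs_neg]
      exact hx
    rw [hb]
    apply hflip
    rcases le_or_gt 0 d with hd0 | hd0
    · have t0 : 0 ≤ π * d := by positivity
      have t1 : π * d ≤ π / 2 := by nlinarith
      rcases Int.emod_two_eq_zero_or_one n with hp | hp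
      · rw [ep_even hp]
        refine key _ _ _ _ (caseII ?_ t0 t1)
        have : (n : ℝ) ≤ -3 := by
          have : n ≠ -2 := by
            rintro rfl
            apply h1
            push_cast
            constructor <;> linarith
          have : n ≤ -3 := by omega
          exact_mod_cast this
        nlinarith
      · rw [ep_odd hp, neg_neg]
        exact key _ _ _ _ (caseI hb1 (Or.inr rfl) t0 t1)
    · have t0 : 0 ≤ π * (-d) := by
        have : 0 < -d := by linarith
        positivity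
      have t1 : π * (-d) ≤ π / 2 := by nlinarith
      have e : π * d = -(π * (-d)) := by ring
      rw [e]
      apply hneg
      rw [neg_neg, neg_neg]
      rcases Int.emod_two_eq_zero_or_one n with hp | hp
      · rw [ep_even hp]
        exact caseI hb1 (Or.inl rfl) t0 t1
      · rw [ep_odd hp]
        have : (n : ℝ) ≤ -3 := by
          have : n ≠ -1 := by
            rintro rfl
            apply h1
            push_cast
            constructor <;> linarith
          have : n ≤ -3 := by omega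
          exact_mod_cast this
        exact caseIII (by nlinarith) t0 t1

/-- the expansion estimate -/
theorem expand (x : ℝ) (h1 : ¬ (-2 ≤ x ∧ x ≤ -1)) (h2 : ¬ (-1 / 2 ≤ x ∧ x ≤ 0)) :
    lam * |sin (π * F x)| ≤ sin (π * x) ^ 2 * |hh x| := by
  have hx : x = (round x : ℝ) + (x - round x) := by ring
  have hd : |x - round x| ≤ 1 / 2 := abs_sub_round x
  rw [hx] at h1 h2 ⊢
  rw [abs_sin_F, hh_local, sin_sq_local]
  exact core_local _ _ (by simpa using hd) h1 h2

end Pool.Agent.E8helper52.RL
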