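import Mathlib
import Pool.Agent.E8helper52.RL.Bridge

/-!
The intervals `[-2, -3/4]` and `[-1/2, 1/4]` are contracted by `f₀` to `-1` and to `0`.
-/

set_option autoImplicit false

open Real Set

namespace Pool.Agent.E8helper52.RL

open Pool.Agent.H723R2.LSW (F T F_int)

theorem F_neg_one : F (-1) = -1 := by
  have := F_int (-1)
  norm_num [T] at this
  exact this

theorem F_neg_two : F (-2) = -1 := by
  have := F_int (-2)
  norm_num [T] at this
  exact this

/-- bounds for the derivative on `[-2,-1]` -/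
theorem deriv_bounds {y : ℝ} (h1 : -2 ≤ y) (h2 : y ≤ -1) :
    0 ≤ sin (π * y) ∧ sin (π * y) ≤ 1 ∧ hh y ≤ 2 - 4 * (y + 3 / 2) ^ 2 - π / 2 * (-y - 1 / 2) := by
  have hpi := Real.pi_pos
  have e : sin (π * y) = cos (π * (y + 3 / 2)) := by
    rw [show π * (y + 3 / 2) = π * y - (-(π / 2) - π) by ring, Real.cos_sub]
    have a1 : cos (-(π / 2) - π) = 0 := by
      rw [Real.cos_sub_pi, Real.cos_neg, Real.cos_pi_div_two, neg_zero]
    have a2 : sin (-(π / 2) - π) = 1 := by
      rw [Real.sin_sub_pi, Real.sin_neg, Real.sin_pi_div_two, neg_neg]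
    rw [a1, a2]; ring
  have hw : |π * (y + 3 / 2)| ≤ π / 2 := by
    rw [abs_le]; constructor <;> nlinarith
  have hc0 : 0 ≤ cos (π * (y + 3 / 2)) := Real.cos_nonneg_of_neg_pi_div_two_le_of_le
    (abs_le.1 hw).1 (abs_le.1 hw).2
  have hq := Real.cos_le_one_sub_mul_cos_sq (x := π * (y + 3 / 2)) (by linarith)
  have e2 : 2 / π ^ 2 * (π * (y + 3 / 2)) ^ 2 = 2 * (y + 3 / 2) ^ 2 := by
    field_simp
  rw [e2] at hq
  refine ⟨by rw [e]; exact hc0, Real.sin_le_one _, ?_⟩
  unfold hh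
  rw [e]
  linarith

theorem deriv_lower {y : ℝ} : -((π / 2 * (-y - 1 / 2)) ^ 2 / 8) ≤ sin (π * y) * hh y := by
  unfold hh
  nlinarith [sq_nonneg (4 * sin (π * y) - π / 2 * (-y - 1 / 2))]

theorem J1_left {x : ℝ} (h1 : -2 ≤ x) (h2 : x ≤ -1) :
    |F x + 1| ≤ 3 / 4 * |x + 1| ∧ F x + 1 ≤ 1 / 4 := by
  have p1 := Real.pi_gt_d4
  have p2 := Real.pi_lt_d4
  norm_num at p1 p2
  have hpi := Real.pi_pos
  have up : ∀ y, -2 ≤ y → y ≤ -1 → sin (π * y) * hh y ≤ 3 / 4 := by
    intro y hy1 hy2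
    obtain ⟨a1, a2, a3⟩ := deriv_bounds hy1 hy2
    have a4 : hh y ≤ 3 / 4 := by
      refine a3.trans ?_
      nlinarith [sq_nonneg (y + 3 / 2 - 0.2)]
    nlinarith
  have lo : ∀ y, -2 ≤ y → y ≤ -1 → -(3 / 4) ≤ sin (π * y) * hh y := by
    intro y hy1 hy2
    refine le_trans ?_ (deriv_lower (y := y))
    have b1 : 0 ≤ π / 2 * (-y - 1 / 2) := mul_nonneg (by linarith) (by linarith)
    have b2 : π / 2 * (-y - 1 / 2) ≤ 2.4 := by nlinarith
    nlinarith
  have m1 : F x + 1 ≤ 3 / 4 * (-1 - x) := by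
    have := mono_aux (φ := fun y => F y + 3 / 4 * y) (φ' := fun y => sin (π * y) * hh y + 3 / 4)
      (p := -2) (q := -1) (fun y => ((F_deriv y).add ((hasDerivAt_id y).const_mul (3 / 4))).congr_deriv
        (by ring)) (fun y a b => by linarith [lo y a.le b.le]) h1 h2 le_rfl
    simp only [F_neg_one] at this
    linarith
  have m2 : 3 / 4 * (x + 1) ≤ F x + 1 := by
    have := mono_aux (φ := fun y => 3 / 4 * y - F y) (φ' := fun y => 3 / 4 - sin (π * y) * hh y)
      (p := -2) (q := -1) (fun y => (((hasDerivAt_id y).const_mul (3 / 4)).sub (F_deriv y)).congr_deriv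
        (by ring)) (fun y a b => by linarith [up y a.le b.le]) h1 h2 le_rfl
    simp only [F_neg_one] at this
    linarith
  refine ⟨?_, ?_⟩
  · rw [abs_of_nonpos (by linarith : x + 1 ≤ 0), abs_le]
    constructor <;> linarith
  · rcases le_total x (-3 / 2) with hx | hx
    · have := mono_aux (φ := fun y => 0.43 * y - F y) (φ' := fun y => 0.43 - sin (π * y) * hh y)
        (p := -2) (q := -3 / 2)
        (fun y => (((hasDerivAt_id y).const_mul 0.43).sub (F_deriv y)).congr_deriv (by ring))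
        (fun y a b => by
          obtain ⟨a1, a2, a3⟩ := deriv_bounds a.le (by linarith)
          have a4 : hh y ≤ 0.43 := by
            refine a3.trans ?_
            nlinarith [sq_nonneg (y + 3 / 2)]
          nlinarith) le_rfl h1 hx
      simp only [F_neg_two] at this
      linarith
    · have := mono_aux (φ := fun y => F y + 0.31 * y) (φ' := fun y => sin (π * y) * hh y + 0.31)
        (p := -3 / 2) (q := -1)
        (fun y => ((F_deriv y).add ((hasDerivAt_id y).const_mul 0.31)).congr_deriv (by ring))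
        (fun y a b => by
          have b0 := deriv_lower (y := y)
          have b1 : 0 ≤ π / 2 * (-y - 1 / 2) := mul_nonneg (by linarith) (by linarith)
          have b2 : π / 2 * (-y - 1 / 2) ≤ 1.5708 := by nlinarith
          nlinarith) hx h2 le_rfl
      simp only [F_neg_one] at this
      linarith

/-- Jordan type bound for `θ - sin θ cos θ` on `[0, π/4]` -/
theorem A_bound {t : ℝ} (h0 : 0 ≤ t) (h1 : t ≤ π / 4) : t - sin t * cos t ≤ (1 - 2 / π) * t := by
  have hpi := Real.pi_pos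
  have h := Real.mul_le_sin (x := 2 * t) (by linarith) (by linarith)
  rw [Real.sin_two_mul] at h
  have : 2 / π * (2 * t) = 2 * (2 / π * t) := by ring
  rw [this] at h
  linarith

theorem A_nonneg {t : ℝ} (h0 : 0 ≤ t) : 0 ≤ t - sin t * cos t := by
  have h := Real.sin_le (x := 2 * t) (by linarith)
  rw [Real.sin_two_mul] at h
  linarith

theorem B_nonneg {t : ℝ} (h0 : 0 ≤ t) (h1 : t ≤ π / 2) : 0 ≤ sin t - t * cos t := by
  have := mono_aux (φ := fun y => sin y - y * cos y) (φ' := fun y => y * sin y)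
    (p := 0) (q := π / 2)
    (fun y => ((Real.hasDerivAt_sin y).sub ((hasDerivAt_id y).mul (Real.hasDerivAt_cos y))).congr_deriv
      (by simp only [id_eq]; ring))
    (fun y a b => mul_nonneg a.le (Real.sin_nonneg_of_nonneg_of_le_pi a.le (by linarith)))
    le_rfl h0 h1
  simpa using this

/-- `ψ` -/
noncomputable def psi (t : ℝ) : ℝ := π / 4 * (1 - cos t) - 1 / 2 * (sin t - t * cos t)

theorem psi_mono {x y : ℝ} (h0 : 0 ≤ x) (h1 : x ≤ y) (h2 : y ≤ π / 2) : psi x ≤ psi y := by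
  refine mono_aux (φ := psi) (φ' := fun y => sin y / 2 * (π / 2 - y)) (p := 0) (q := π / 2) ?_ ?_
    h0 h1 h2
  · intro t
    have := (((Real.hasDerivAt_cos t).const_sub 1).const_mul (π / 4)).sub
      (((Real.hasDerivAt_sin t).sub
        ((hasDerivAt_id t).mul (Real.hasDerivAt_cos t))).const_mul (1 / 2))
    exact this.congr_deriv (by simp only [id_eq]; ring)
  · intro t a b
    have := Real.sin_nonneg_of_nonneg_of_le_pi a.le (by linarith)
    exact mul_nonneg (by linarith) (by linarith)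

theorem psi_nonneg {t : ℝ} (h0 : 0 ≤ t) (h1 : t ≤ π / 2) : 0 ≤ psi t := by
  have := psi_mono le_rfl h0 h1
  have e : psi 0 = 0 := by simp [psi]
  rwa [e] at this

theorem psi_le {t : ℝ} (h0 : 0 ≤ t) (h1 : t ≤ π / 2) : psi t ≤ π / 4 * (1 - cos t) := by
  have := B_nonneg h0 h1
  unfold psi; linarith

theorem psi_quarter : 0.15 ≤ psi (π / 4) := by
  have p1 := Real.pi_gt_d4
  have p2 := Real.pi_lt_d4
  norm_num at p1 p2
  have a := sin4
  have b := cos4
  unfold psi
  nlinarith [a.1, a.2, b.1, b.2]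

theorem J1_right {v : ℝ} (h1 : 0 ≤ v) (h2 : v ≤ 1 / 4) :
    0 ≤ F (-1 + v) + 1 ∧ F (-1 + v) + 1 ≤ 3 / 4 * v := by
  have p1 := Real.pi_gt_d4
  have p2 := Real.pi_lt_d4
  norm_num at p1 p2
  have hpi := Real.pi_pos
  have h := F_local (-1) v
  have e1 : ep (-1) = -1 := ep_odd (by norm_num)
  have e2 : T (-1) = -1 := by norm_num [T]
  rw [e1, e2] at h
  have e3 : π * (F (-1 + v) + 1) = psi (π * v) + (π * v - sin (π * v) * cos (π * v)) := by
    have h' : π * (F (-1 + v) + 1) = -1 * g (π * (-1 + 1 / 2)) 1 (-1) (π * v) := by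
      rw [← sub_neg_eq_add]
      push_cast at h
      exact h
    rw [h']
    unfold g psi
    ring
  have t0 : 0 ≤ π * v := by positivity
  have t1 : π * v ≤ π / 4 := by nlinarith
  have a1 := psi_nonneg t0 (by linarith)
  have a2 := psi_le t0 (by linarith)
  have a3 := A_nonneg t0
  have a4 := A_bound t0 t1
  have a5 := Real.one_sub_sq_div_two_le_cos (x := π * v)
  constructor
  · have : 0 ≤ π * (F (-1 + v) + 1) := by rw [e3]; linarith
    exact nonneg_of_mul_nonneg_right this hpi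
  · have a6 : (1 - 2 / π) * (π * v) ≤ 0.364 * (π * v) := by
      apply mul_le_mul_of_nonneg_right _ t0
      have : 0.636 ≤ 2 / π := by
        rw [le_div_iff₀ hpi]; linarith
      linarith
    have a7 : π / 4 * (1 - cos (π * v)) ≤ 0.31 * (π * v) := by
      have : 1 - cos (π * v) ≤ (π * v) ^ 2 / 2 := by linarith
      have : 1 - cos (π * v) ≤ (π * v) * (π / 4) / 2 := by nlinarith
      nlinarith
    have : π * (F (-1 + v) + 1) ≤ π * (3 / 4 * v) := by rw [e3]; linarith
    exact le_of_mul_le_mul_left this hpi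

theorem J1_step {x : ℝ} (h1 : -2 ≤ x) (h2 : x ≤ -3 / 4) :
    |F x + 1| ≤ 3 / 4 * |x + 1| ∧ -2 ≤ F x ∧ F x ≤ -3 / 4 := by
  rcases le_total x (-1) with hx | hx
  · obtain ⟨a, b⟩ := J1_left h1 hx
    refine ⟨a, ?_, by linarith⟩
    rw [abs_of_nonpos (by linarith : x + 1 ≤ 0), abs_le] at a
    linarith [a.1]
  · obtain ⟨a, b⟩ := J1_right (v := x + 1) (by linarith) (by linarith)
    rw [show -1 + (x + 1) = x by ring] at a b
    refine ⟨?_, by linarith, by linarith⟩
    rw [abs_of_nonneg a, abs_of_nonneg (by linarith : 0 ≤ x + 1)]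
    exact b

theorem J0_step {x : ℝ} (h1 : -1 / 2 ≤ x) (h2 : x ≤ 1 / 4) :
    |F x| ≤ 91 / 100 * |x| ∧ -1 / 2 ≤ F x ∧ F x ≤ 1 / 4 := by
  have p1 := Real.pi_gt_d4
  have p2 := Real.pi_lt_d4
  norm_num at p1 p2
  have hpi := Real.pi_pos
  have h := F_local 0 x
  have e1 : ep 0 = 1 := ep_even (by norm_num)
  have e2 : T 0 = 0 := by norm_num [T]
  rw [e1, e2] at h
  norm_num at h
  have c2 : (1 - 2 / π) ≤ 0.364 := by
    have : 0.636 ≤ 2 / π := by
      rw [le_div_iff₀ hpi]; linarith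
    linarith
  rcases le_total 0 x with hx | hx
  · have e3 : π * F x = π / 4 * (1 - cos (π * x)) + 1 / 2 * (sin (π * x) - π * x * cos (π * x)) +
        (π * x - sin (π * x) * cos (π * x)) := by
      rw [h]; unfold g; ring
    have t0 : 0 ≤ π * x := by positivity
    have t1 : π * x ≤ π / 4 := by nlinarith
    have a2 := B_nonneg t0 (by linarith)
    have a3 := A_nonneg t0
    have a4 := A_bound t0 t1
    have a5 := Real.one_sub_sq_div_two_le_cos (x := π * x)
    have a6 : (1 - 2 / π) * (π * x) ≤ 0.364 * (π * x) := mul_le_mul_of_nonneg_right c2 t0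
    have a8 : 1 - cos (π * x) ≤ (π * x) * (π / 4) / 2 := by
      have : 1 - cos (π * x) ≤ (π * x) ^ 2 / 2 := by linarith
      nlinarith
    have a9 := Real.cos_le_one (π * x)
    have a7 : π / 4 * (1 - cos (π * x)) ≤ 0.31 * (π * x) := by nlinarith
    have a10 : sin (π * x) - π * x * cos (π * x) ≤ 0.32 * (π * x) := by
      have b1 := Real.sin_le t0
      have b2 : 1 - cos (π * x) ≤ 0.32 := by nlinarith
      nlinarith
    have n0 : 0 ≤ F x := by
      have : 0 ≤ π * F x := by rw [e3]; nlinarith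
      exact nonneg_of_mul_nonneg_right this hpi
    have n1 : F x ≤ 91 / 100 * x := by
      have : π * F x ≤ π * (91 / 100 * x) := by rw [e3]; linarith
      exact le_of_mul_le_mul_left this hpi
    refine ⟨?_, by linarith, by linarith⟩
    rw [abs_of_nonneg n0, abs_of_nonneg hx]
    exact n1
  · set u := -x with hu
    have hxu : x = -u := by rw [hu]; ring
    have hu0 : 0 ≤ u := by linarith
    have e3 : π * F x = psi (π * u) - (π * u - sin (π * u) * cos (π * u)) := by
      rw [h, hxu, mul_neg, g_neg_arg]; unfold g psi; ring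
    have t0 : 0 ≤ π * u := by positivity
    have t1 : π * u ≤ π / 2 := by nlinarith
    have a1 := psi_nonneg t0 t1
    have a2 := psi_le t0 t1
    have a3 := A_nonneg t0
    have a5 := Real.one_sub_sq_div_two_le_cos (x := π * u)
    have a9 := Real.cos_le_one (π * u)
    have hcos : 0 ≤ cos (π * u) := Real.cos_nonneg_of_neg_pi_div_two_le_of_le (by linarith) t1
    have hsin : 0 ≤ sin (π * u) := Real.sin_nonneg_of_nonneg_of_le_pi t0 (by linarith)
    have up1 : π * F x ≤ π * (1 / 4) := by rw [e3]; nlinarith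
    have up2 : π * F x ≤ π * (91 / 100 * u) := by
      have : 1 - cos (π * u) ≤ (π * u) * (π / 2) / 2 := by
        have : 1 - cos (π * u) ≤ (π * u) ^ 2 / 2 := by linarith
        nlinarith
      rw [e3]
      nlinarith
    have lo1 : -(π * (91 / 100 * u)) ≤ π * F x := by
      rw [e3]
      rcases le_total (π * u) (π / 4) with k | k
      · have a4 := A_bound t0 k
        have a6 : (1 - 2 / π) * (π * u) ≤ 0.364 * (π * u) := mul_le_mul_of_nonneg_right c2 t0
        nlinarith
      · have a4 := psi_mono (by linarith) k t1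
        have a6 := psi_quarter
        have a7 : 0 ≤ sin (π * u) * cos (π * u) := mul_nonneg hsin hcos
        nlinarith
    have n1 := le_of_mul_le_mul_left up1 hpi
    have n2 := le_of_mul_le_mul_left up2 hpi
    have n3 : -(91 / 100 * u) ≤ F x := by
      have : π * -(91 / 100 * u) ≤ π * F x := by linarith
      exact le_of_mul_le_mul_left this hpi
    refine ⟨?_, by linarith, n1⟩
    rw [abs_of_nonpos hx, abs_le, ← hu]
    exact ⟨n3, n2⟩

theorem J1_iter {x : ℝ} (h1 : -2 ≤ x) (h2 : x ≤ -3 / 4) (k : ℕ) :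
    |F^[k] x + 1| ≤ (3 / 4) ^ k * |x + 1| ∧ -2 ≤ F^[k] x ∧ F^[k] x ≤ -3 / 4 := by
  induction k with
  | zero => exact ⟨by simp, h1, h2⟩
  | succ k ih =>
    rw [Function.iterate_succ_apply']
    obtain ⟨a, b, c⟩ := ih
    obtain ⟨a', b', c'⟩ := J1_step b c
    refine ⟨a'.trans ?_, b', c'⟩
    rw [pow_succ]
    linarith

theorem J0_iter {x : ℝ} (h1 : -1 / 2 ≤ x) (h2 : x ≤ 1 / 4) (k : ℕ) :
    |F^[k] x| ≤ (91 / 100) ^ k * |x| ∧ -1 / 2 ≤ F^[k] x ∧ F^[k] x ≤ 1 / 4 := by
  induction k with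
  | zero => exact ⟨by simp, h1, h2⟩
  | succ k ih =>
    rw [Function.iterate_succ_apply']
    obtain ⟨a, b, c⟩ := ih
    obtain ⟨a', b', c'⟩ := J0_step b c
    refine ⟨a'.trans ?_, b', c'⟩
    rw [pow_succ]
    linarith

theorem J1_conv {x : ℝ} (h1 : -2 ≤ x) (h2 : x ≤ -3 / 4) {ε : ℝ} (hε : 0 < ε) :
    ∃ k : ℕ, |F^[k] x - ((-1 : ℤ) : ℝ)| < ε := by
  obtain ⟨k, hk⟩ := exists_pow_lt_of_lt_one (show (0 : ℝ) < ε / 2 by linarith)
    (show (3 / 4 : ℝ) < 1 by norm_num)
  refine ⟨k, ?_⟩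
  have h := (J1_iter h1 h2 k).1
  have h3 : |x + 1| ≤ 1 := by rw [abs_le]; constructor <;> linarith
  push_cast
  rw [sub_neg_eq_add]
  have : (3 / 4 : ℝ) ^ k * |x + 1| ≤ (3 / 4) ^ k * 1 := by gcongr
  linarith

theorem J0_conv {x : ℝ} (h1 : -1 / 2 ≤ x) (h2 : x ≤ 1 / 4) {ε : ℝ} (hε : 0 < ε) :
    ∃ k : ℕ, |F^[k] x - ((0 : ℤ) : ℝ)| < ε := by
  obtain ⟨k, hk⟩ := exists_pow_lt_of_lt_one (show (0 : ℝ) < ε / 2 by linarith)
    (show (91 / 100 : ℝ) < 1 by norm_num)
  refine ⟨k, ?_⟩
  have h := (J0_iter h1 h2 k).1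
  have h3 : |x| ≤ 1 := by rw [abs_le]; constructor <;> linarith
  push_cast
  rw [sub_zero]
  have : (91 / 100 : ℝ) ^ k * |x| ≤ (91 / 100) ^ k * 1 := by gcongr
  linarith

end Pool.Agent.E8helper52.RL
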