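import Mathlib
import Pool.Agent.E8helper52.RL.Central
import Pool.Agent.R105.WR.Low

/-!
Every interval of the real line contains a point some iterate of which is closer to an integer than
the Julia set.
-/

set_option autoImplicit false

open Real Set Filter Topology

namespace Pool.Agent.E8helper52.RL

open Pool.Agent.H723R2.LSW (F T F_int F_cont)
open Pool.Agent.R105.WR (D D_pos lo lo_iff lo_bdd)
open Pool.Agent.Y282.WD (bt rho exists_consts)

/-- the points of the real line some iterate of which is closer to an integer than the Julia set -/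
def A : Set ℝ := {x | ∃ (k : ℕ) (n : ℤ), |F^[k] x - n| < D n}

theorem A_back {x : ℝ} (h : F x ∈ A) : x ∈ A := by
  obtain ⟨k, n, hk⟩ := h
  exact ⟨k + 1, n, by rwa [Function.iterate_succ_apply]⟩

theorem not_int {x : ℝ} (h : x ∉ A) (n : ℤ) : D n ≤ |x - n| := by
  by_contra hc
  push Not at hc
  exact h ⟨0, n, by simpa using hc⟩

theorem not_J1 {x : ℝ} (h : x ∉ A) : ¬ (-2 ≤ x ∧ x ≤ -1) := by
  rintro ⟨h1, h2⟩
  obtain ⟨k, hk⟩ := J1_conv h1 (by linarith : x ≤ -3 / 4) (D_pos (-1))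
  exact h ⟨k, -1, hk⟩

theorem not_J0 {x : ℝ} (h : x ∉ A) : ¬ (-1 / 2 ≤ x ∧ x ≤ 0) := by
  rintro ⟨h1, h2⟩
  obtain ⟨k, hk⟩ := J0_conv h1 (by linarith : x ≤ 1 / 4) (D_pos 0)
  exact h ⟨k, 0, hk⟩

theorem D_lower : ∃ c : ℝ, 0 < c ∧ ∀ m : ℤ, c / (|(m : ℝ)| + 1) ≤ D m := by
  obtain ⟨A, C1, B, c, hK⟩ := exists_consts Pool.Agent.Y888.WD.t_NEAR Pool.Agent.Y888.WD.t_LOW
  have hT := Pool.Agent.Y151.WD.t_TAIL
  obtain ⟨E, hE⟩ := lo_bdd hK hT
  have hpi := Real.pi_pos
  refine ⟨Real.exp (-(max E 0)) * (2 / π ^ 2), by positivity, fun m => ?_⟩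
  obtain ⟨hr, -, h1, -⟩ := hT.2 m
  have hb : 0 < bt m := by linarith [(hT.1 m).1]
  have h2 := (lo_iff (le_max_right E 0) hr).1 ((hE m).trans (le_max_left _ _))
  refine le_trans ?_ h2
  rw [mul_div_assoc]
  apply mul_le_mul_of_nonneg_left _ (Real.exp_pos _).le
  have h3 : 1 / (2 * bt m) ≤ rho m := by
    rw [div_le_iff₀ (by positivity)]
    linarith
  refine le_trans ?_ h3
  have h4 : bt m ≤ π ^ 2 / 4 * (|(m : ℝ)| + 1) := by
    unfold bt
    apply mul_le_mul_of_nonneg_left _ (by positivity)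
    refine (abs_add_le _ _).trans ?_
    rw [abs_of_pos (by norm_num : (0 : ℝ) < 1 / 2)]
    linarith
  have h5 : (0 : ℝ) < |(m : ℝ)| + 1 := by positivity
  calc 2 / π ^ 2 / (|(m : ℝ)| + 1) = 1 / (2 * (π ^ 2 / 4 * (|(m : ℝ)| + 1))) := by
        field_simp; norm_num
    _ ≤ 1 / (2 * bt m) := by gcongr

theorem sin_lower : ∃ c : ℝ, 0 < c ∧ ∀ x : ℝ, x ∉ A → c / (|x| + 1) ≤ |sin (π * x)| := by
  obtain ⟨c, hc, h⟩ := D_lower
  refine ⟨c, hc, fun x hx => ?_⟩
  have hpi := Real.pi_pos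
  set n : ℤ := round x with hn
  have h1 : |x - n| ≤ 1 / 2 := abs_sub_round x
  have h2 : |sin (π * x)| = |sin (π * (x - n))| := by
    have := sin_sq_local n (x - n)
    rw [add_sub_cancel] at this
    exact sq_eq_sq_iff_abs_eq_abs _ _ |>.1 this
  have h3 : 2 / π * |π * (x - n)| ≤ |sin (π * (x - n))| := by
    apply Real.mul_abs_le_abs_sin
    rw [abs_mul, abs_of_pos hpi]
    nlinarith
  have h4 : 2 / π * |π * (x - n)| = 2 * |x - n| := by
    rw [abs_mul, abs_of_pos hpi]; field_simp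
  have h5 := not_int hx n
  have h6 := h n
  have h7 : |(n : ℝ)| ≤ |x| + 1 / 2 := by
    have := abs_sub_abs_le_abs_sub (n : ℝ) x
    rw [abs_sub_comm] at this
    linarith
  have h8 : c / (|x| + 1) ≤ 2 * (c / (|(n : ℝ)| + 1)) := by
    rw [← mul_div_assoc, div_le_div_iff₀ (by positivity) (by positivity)]
    have := abs_nonneg x
    nlinarith
  rw [h2]
  linarith

theorem sin_ne {x : ℝ} (hx : x ∉ A) : sin (π * x) ≠ 0 := by
  obtain ⟨c, hc, h⟩ := sin_lower
  have h1 := h x hx
  have h2 : 0 < c / (|x| + 1) := by positivity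
  intro h3
  rw [h3, abs_zero] at h1
  linarith

theorem F_growth (x : ℝ) : |F x| + 1 ≤ 2 * (|x| + 1) := by
  have hpi := Real.pi_gt_three
  have c1 := Real.neg_one_le_cos (π * x)
  have c2 := Real.cos_le_one (π * x)
  have s1 := Real.abs_sin_le_one (π * x)
  have a1 : |F x| ≤ |x / 2| + |(x + 1 / 2) * ((1 - cos (π * x)) / 2)| +
      |1 / π * (1 / 2 - cos (π * x)) * sin (π * x)| := by
    unfold F
    exact abs_add_three _ _ _
  have a2 : |x / 2| = |x| / 2 := by rw [abs_div]; norm_num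
  have a3 : |(x + 1 / 2) * ((1 - cos (π * x)) / 2)| ≤ |x| + 1 / 2 := by
    rw [abs_mul]
    have b1 : |x + 1 / 2| ≤ |x| + 1 / 2 := by
      refine (abs_add_le _ _).trans ?_
      rw [abs_of_pos (by norm_num : (0 : ℝ) < 1 / 2)]
    have b2 : |(1 - cos (π * x)) / 2| ≤ 1 := by
      rw [abs_le]; constructor <;> linarith
    calc |x + 1 / 2| * |(1 - cos (π * x)) / 2| ≤ (|x| + 1 / 2) * 1 := by gcongr
      _ = |x| + 1 / 2 := mul_one _
  have a4 : |1 / π * (1 / 2 - cos (π * x)) * sin (π * x)| ≤ 1 / 2 := by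
    rw [abs_mul, abs_mul]
    have b1 : |1 / π| ≤ 1 / 3 := by
      rw [abs_of_pos (by positivity)]
      apply one_div_le_one_div_of_le <;> linarith
    have b2 : |1 / 2 - cos (π * x)| ≤ 3 / 2 := by
      rw [abs_le]; constructor <;> linarith
    calc |1 / π| * |1 / 2 - cos (π * x)| * |sin (π * x)| ≤ 1 / 3 * (3 / 2) * 1 := by gcongr
      _ = 1 / 2 := by norm_num
  have := abs_nonneg x
  linarith

theorem F_iter_growth (x : ℝ) (k : ℕ) : |F^[k] x| + 1 ≤ 2 ^ k * (|x| + 1) := by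
  induction k with
  | zero => simp
  | succ k ih =>
    rw [Function.iterate_succ_apply', pow_succ]
    have := F_growth (F^[k] x)
    linarith

/-! ### the function `L` -/

/-- a primitive of `π / sin (π y)` -/
noncomputable def L (y : ℝ) : ℝ := (log (1 - cos (π * y)) - log (1 + cos (π * y))) / 2

theorem pos_of_sin {y : ℝ} (h : sin (π * y) ≠ 0) :
    0 < 1 - cos (π * y) ∧ 0 < 1 + cos (π * y) := by
  have h1 := sin_sq_add_cos_sq (π * y)
  have h2 : 0 < sin (π * y) ^ 2 := by positivity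
  have h3 : cos (π * y) ^ 2 < 1 := by linarith
  have h4 := abs_lt.1 ((sq_lt_one_iff_abs_lt_one _).1 h3)
  constructor <;> linarith [h4.1, h4.2]

theorem L_deriv {y : ℝ} (h : sin (π * y) ≠ 0) : HasDerivAt L (π / sin (π * y)) y := by
  obtain ⟨p1, p2⟩ := pos_of_sin h
  have hpi : HasDerivAt (fun z : ℝ => π * z) π y := by
    simpa using (hasDerivAt_id y).const_mul π
  have hc : HasDerivAt (fun z : ℝ => cos (π * z)) (-sin (π * y) * π) y :=
    (Real.hasDerivAt_cos _).comp y hpi
  have h1 := (hc.const_sub 1).log p1.ne'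
  have h2 := (hc.const_add 1).log p2.ne'
  have h3 := (h1.sub h2).div_const 2
  refine h3.congr_deriv ?_
  have e := sin_sq_add_cos_sq (π * y)
  have q1 := p1.ne'
  have q2 := p2.ne'
  field_simp
  linear_combination (2 : ℝ) * e

theorem L_bound {y : ℝ} (h : sin (π * y) ≠ 0) : |L y| ≤ log 2 - log |sin (π * y)| := by
  obtain ⟨p1, p2⟩ := pos_of_sin h
  have e : log (1 - cos (π * y)) + log (1 + cos (π * y)) = 2 * log |sin (π * y)| := by
    rw [← Real.log_mul p1.ne' p2.ne', Real.log_abs,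
      show (1 - cos (π * y)) * (1 + cos (π * y)) = sin (π * y) ^ 2 by
        linear_combination (-1 : ℝ) * sin_sq_add_cos_sq (π * y), Real.log_pow]
    norm_num
  have c1 := Real.neg_one_le_cos (π * y)
  have c2 := Real.cos_le_one (π * y)
  have l1 : log (1 - cos (π * y)) ≤ log 2 := Real.log_le_log p1 (by linarith)
  have l2 : log (1 + cos (π * y)) ≤ log 2 := Real.log_le_log p2 (by linarith)
  unfold L
  rw [abs_le]
  constructor <;> linarith

theorem L_bound' : ∃ C : ℝ, ∀ x : ℝ, x ∉ A → |L x| ≤ C + log (|x| + 1) := by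
  obtain ⟨c, hc, h⟩ := sin_lower
  refine ⟨log 2 - log c, fun x hx => ?_⟩
  have h1 := L_bound (sin_ne hx)
  have h2 : log (c / (|x| + 1)) ≤ log |sin (π * x)| := Real.log_le_log (by positivity) (h x hx)
  rw [Real.log_div hc.ne' (by positivity)] at h2
  linarith

/-! ### one step -/

theorem step_lt {p q : ℝ} (hpq : p < q) (h : ∀ x ∈ Icc p q, x ∉ A) :
    lam * |L q - L p| ≤ |L (F q) - L (F p)| := by
  have hF : ∀ x ∈ Icc p q, F x ∉ A := fun x hx hc => h x hx (A_back hc)
  have d1 : ∀ x ∈ Icc p q, HasDerivAt (L ∘ F)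
      (π / sin (π * F x) * (sin (π * x) * hh x)) x := fun x hx =>
    (L_deriv (sin_ne (hF x hx))).comp x (F_deriv x)
  have d2 : ∀ x ∈ Icc p q, HasDerivAt L (π / sin (π * x)) x := fun x hx =>
    L_deriv (sin_ne (h x hx))
  obtain ⟨c, hc, e⟩ := exists_ratio_hasDerivAt_eq_ratio_slope (L ∘ F) _ hpq
    (fun x hx => (d1 x hx).continuousAt.continuousWithinAt)
    (fun x hx => d1 x (Ioo_subset_Icc_self hx)) L _
    (fun x hx => (d2 x hx).continuousAt.continuousWithinAt)
    (fun x hx => d2 x (Ioo_subset_Icc_self hx))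
  have hc' := Ioo_subset_Icc_self hc
  have hA := h c hc'
  have s1 := sin_ne hA
  have s2 := sin_ne (hF c hc')
  have hex := expand c (not_J1 hA) (not_J0 hA)
  have e2 := congrArg abs e
  simp only [Function.comp_apply, abs_mul, abs_div] at e2
  have t1 : 0 < |sin (π * c)| := abs_pos.2 s1
  have t2 : 0 < |sin (π * F c)| := abs_pos.2 s2
  rw [abs_of_pos Real.pi_pos] at e2
  have hpi := Real.pi_pos
  have e3 : |L q - L p| * (sin (π * c) ^ 2 * |hh c|) =
      |L (F q) - L (F p)| * |sin (π * F c)| := by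
    rw [← sq_abs (sin (π * c))]
    field_simp at e2
    nlinarith [e2]
  have e4 : |L q - L p| * (lam * |sin (π * F c)|) ≤ |L (F q) - L (F p)| * |sin (π * F c)| := by
    rw [← e3]
    exact mul_le_mul_of_nonneg_left hex (abs_nonneg _)
  have e5 : (lam * |L q - L p|) * |sin (π * F c)| ≤
      |L (F q) - L (F p)| * |sin (π * F c)| := by linarith
  exact le_of_mul_le_mul_right e5 t2

theorem step (p q : ℝ) (h : ∀ x ∈ uIcc p q, x ∉ A) :
    (∀ x ∈ uIcc (F p) (F q), x ∉ A) ∧ lam * |L q - L p| ≤ |L (F q) - L (F p)| := by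
  constructor
  · intro x hx
    obtain ⟨y, hy, rfl⟩ := intermediate_value_uIcc (F_cont.continuousOn (s := uIcc p q)) hx
    exact fun hc => h y hy (A_back hc)
  · rcases lt_trichotomy p q with hpq | hpq | hpq
    · rw [uIcc_of_le hpq.le] at h
      exact step_lt hpq h
    · rw [hpq]; simp
    · rw [uIcc_of_ge hpq.le] at h
      have := step_lt hpq h
      rwa [abs_sub_comm, abs_sub_comm (L (F p))] at this

theorem L_ne {p q : ℝ} (hpq : p < q) (h : ∀ x ∈ Icc p q, x ∉ A) : 0 < |L q - L p| := by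
  have d2 : ∀ x ∈ Icc p q, HasDerivAt L (π / sin (π * x)) x := fun x hx =>
    L_deriv (sin_ne (h x hx))
  obtain ⟨c, hc, e⟩ := exists_hasDerivAt_eq_slope L _ hpq
    (fun x hx => (d2 x hx).continuousAt.continuousWithinAt)
    (fun x hx => d2 x (Ioo_subset_Icc_self hx))
  have s1 := sin_ne (h c (Ioo_subset_Icc_self hc))
  rw [abs_pos]
  intro h0
  rw [h0, zero_div] at e
  exact absurd e (div_ne_zero Real.pi_ne_zero s1)

/-- every interval meets `A` -/
theorem exists_mem_A {p q : ℝ} (hpq : p < q) : ∃ x ∈ Icc p q, x ∈ A := by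
  by_contra hcon
  push Not at hcon
  have hind : ∀ k : ℕ, (∀ x ∈ uIcc (F^[k] p) (F^[k] q), x ∉ A) ∧
      lam ^ k * |L q - L p| ≤ |L (F^[k] q) - L (F^[k] p)| := by
    intro k
    induction k with
    | zero =>
      refine ⟨?_, by simp⟩
      rw [Function.iterate_zero, id, id, uIcc_of_le hpq.le]
      exact hcon
    | succ k ih =>
      obtain ⟨a, b⟩ := step _ _ ih.1
      rw [Function.iterate_succ_apply', Function.iterate_succ_apply']
      refine ⟨a, le_trans ?_ b⟩
      have hl : (0 : ℝ) ≤ lam := by unfold lam; norm_num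
      calc lam ^ (k + 1) * |L q - L p| = lam * (lam ^ k * |L q - L p|) := by ring
        _ ≤ _ := mul_le_mul_of_nonneg_left ih.2 hl
  obtain ⟨C, hC⟩ := L_bound'
  have hδ := L_ne hpq hcon
  set δ := |L q - L p| with hδd
  have hb : ∀ k : ℕ, lam ^ k * δ ≤
      (2 * C + log (|p| + 1) + log (|q| + 1)) + 2 * log 2 * k := by
    intro k
    obtain ⟨a, b⟩ := hind k
    refine b.trans ?_
    have h1 := hC _ (a _ left_mem_uIcc)
    have h2 := hC _ (a _ right_mem_uIcc)
    have g : ∀ x : ℝ, log (|F^[k] x| + 1) ≤ k * log 2 + log (|x| + 1) := by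
      intro x
      have h3 := Real.log_le_log (by positivity) (F_iter_growth x k)
      rwa [Real.log_mul (by positivity) (by positivity), Real.log_pow] at h3
    have g1 := g p
    have g2 := g q
    have h4 := abs_sub (L (F^[k] q)) (L (F^[k] p))
    linarith
  have hl1 : (1 : ℝ) < lam := by unfold lam; norm_num
  have t1 := tendsto_pow_const_div_const_pow_of_one_lt 1 hl1
  have t0 := tendsto_pow_const_div_const_pow_of_one_lt 0 hl1
  have t2 := (t0.const_mul (2 * C + log (|p| + 1) + log (|q| + 1))).add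
    (t1.const_mul (2 * log 2))
  rw [mul_zero, mul_zero, add_zero] at t2
  obtain ⟨k, hk⟩ := (t2.eventually (gt_mem_nhds hδ)).exists
  have hk' := hb k
  have hlk : 0 < lam ^ k := by positivity
  simp only [pow_zero, pow_one] at hk
  have e : (2 * C + log (|p| + 1) + log (|q| + 1)) * (1 / lam ^ k) +
      2 * log 2 * ((k : ℝ) / lam ^ k) =
      ((2 * C + log (|p| + 1) + log (|q| + 1)) + 2 * log 2 * k) / lam ^ k := by
    field_simp
  rw [e, div_lt_iff₀ hlk] at hk
  linarith

end Pool.Agent.E8helper52.RL
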