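import Mathlib
import Pool.Agent.E8helper52.RL.Sweep

/-!
Pull back of intervals along orbits of the real line, with bounded distortion.
-/

set_option autoImplicit false

open Real Set Filter Topology

namespace Pool.Agent.E8helper52.RL

open Pool.Agent.H723R2.LSW (F T F_int F_cont)

/-- the unit intervals with integral end points which do not meet `[-2,0]` -/
def nz (n : ℤ) : Prop := 0 ≤ n ∨ n ≤ -3

theorem nz_cases {n : ℤ} (hn : nz n) {x : ℝ} (h1 : (n : ℝ) ≤ x) (h2 : x ≤ n + 1) :
    0 ≤ x ∨ x ≤ -2 := by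
  rcases hn with h | h
  · left
    have : (0 : ℝ) ≤ n := by exact_mod_cast h
    linarith
  · right
    have : (n : ℝ) ≤ -3 := by exact_mod_cast h
    linarith

theorem sin_pos_unit {x : ℝ} (h0 : 0 ≤ x) (h1 : x ≤ 1) : 0 ≤ sin (π * x) :=
  Real.sin_nonneg_of_nonneg_of_le_pi (by positivity) (by nlinarith [Real.pi_pos])

theorem hh_pos {x : ℝ} (h : 0 ≤ x) : 7 / 20 ≤ hh x := by
  have p1 := Real.pi_gt_d4
  norm_num at p1
  unfold hh
  rcases le_total x 1 with h1 | h1
  · have := sin_pos_unit h h1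
    nlinarith
  · have := Real.neg_one_le_sin (π * x)
    nlinarith

theorem hh_neg {x : ℝ} (h : x ≤ -2) : hh x ≤ -(7 / 20) := by
  have p1 := Real.pi_gt_d4
  norm_num at p1
  unfold hh
  have := Real.sin_le_one (π * x)
  nlinarith

theorem hh_abs {x : ℝ} (h : 0 ≤ x ∨ x ≤ -2) : 7 / 20 ≤ |hh x| := by
  rcases h with h | h
  · exact (hh_pos h).trans (le_abs_self _)
  · have := hh_neg h
    rw [abs_of_nonpos (by linarith)]
    linarith

theorem hh_ne {x : ℝ} (h : 0 ≤ x ∨ x ≤ -2) : hh x ≠ 0 := by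
  have := hh_abs h
  intro h0
  rw [h0, abs_zero] at this
  linarith

theorem sin_ne_unit {n : ℤ} {x : ℝ} (h1 : (n : ℝ) < x) (h2 : x < n + 1) : sin (π * x) ≠ 0 := by
  intro h
  rw [Real.sin_eq_zero_iff] at h
  obtain ⟨m, hm⟩ := h
  have hpi := Real.pi_pos
  have hx : x = m := by
    have : π * x = π * m := by linarith
    exact mul_left_cancel₀ hpi.ne' this
  rw [hx] at h1 h2
  have h3 : n < m := by exact_mod_cast h1
  have h4 : m < n + 1 := by exact_mod_cast h2
  omega

/-- the sine has a constant sign on a unit interval -/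
theorem sin_sign {n : ℤ} {x : ℝ} (h1 : (n : ℝ) < x) (h2 : x < n + 1) :
    0 < ep n * sin (π * x) := by
  have e : sin (π * x) = ep n * sin (π * (x - n)) := by
    have := sin_shift n (x - n)
    rwa [add_sub_cancel] at this
  rw [e, ← mul_assoc, ← sq, ep_sq, one_mul]
  have hpi := Real.pi_pos
  exact Real.sin_pos_of_pos_of_lt_pi (by nlinarith) (by nlinarith)

theorem hh_deriv (x : ℝ) : HasDerivAt hh (π / 2 + 2 * (cos (π * x) * π)) x := by
  have hpi : HasDerivAt (fun z : ℝ => π * z) π x := by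
    simpa using (hasDerivAt_id x).const_mul π
  have hs : HasDerivAt (fun z : ℝ => sin (π * z)) (cos (π * x) * π) x :=
    (Real.hasDerivAt_sin _).comp x hpi
  have h1 := (((hasDerivAt_id x).add_const (1 / 2)).const_mul (π / 2)).add (hs.const_mul 2)
  exact h1.congr_deriv (by ring)

/-- the derivative of `F` -/
noncomputable def dF (x : ℝ) : ℝ := sin (π * x) * hh x

theorem dF_deriv (x : ℝ) : HasDerivAt dF
    (cos (π * x) * π * hh x + sin (π * x) * (π / 2 + 2 * (cos (π * x) * π))) x := by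
  have hpi : HasDerivAt (fun z : ℝ => π * z) π x := by
    simpa using (hasDerivAt_id x).const_mul π
  have hs : HasDerivAt (fun z : ℝ => sin (π * z)) (cos (π * x) * π) x :=
    (Real.hasDerivAt_sin _).comp x hpi
  exact hs.mul (hh_deriv x)

/-- sign of the derivative on a unit interval -/
theorem dF_sign {n : ℤ} (hn : nz n) : ∃ s : ℝ, (s = 1 ∨ s = -1) ∧
    ∀ x : ℝ, (n : ℝ) < x → x < n + 1 → 0 < s * dF x := by
  have hep : ep n = 1 ∨ ep n = -1 := by
    rcases Int.emod_two_eq_zero_or_one n with h | h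
    · exact Or.inl (ep_even h)
    · exact Or.inr (ep_odd h)
  rcases hn with h | h
  · refine ⟨ep n, hep, fun x h1 h2 => ?_⟩
    have h3 := sin_sign h1 h2
    have h4 : (0 : ℝ) ≤ n := by exact_mod_cast h
    have h5 := hh_pos (by linarith : 0 ≤ x)
    unfold dF
    rw [← mul_assoc]
    exact mul_pos h3 (by linarith)
  · refine ⟨-ep n, by rcases hep with h | h <;> rw [h] <;> norm_num, fun x h1 h2 => ?_⟩
    have h3 := sin_sign h1 h2
    have h4 : (n : ℝ) ≤ -3 := by exact_mod_cast h
    have h5 := hh_neg (by linarith : x ≤ -2)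
    unfold dF
    have : -ep n * (sin (π * x) * hh x) = (ep n * sin (π * x)) * (-hh x) := by ring
    rw [this]
    exact mul_pos h3 (by linarith)

/-- `F` is strictly monotone or antitone on the unit intervals -/
theorem F_strict {n : ℤ} (hn : nz n) :
    StrictMonoOn F (Icc (n : ℝ) (n + 1)) ∨ StrictAntiOn F (Icc (n : ℝ) (n + 1)) := by
  obtain ⟨s, hs, h⟩ := dF_sign hn
  have hi : interior (Icc (n : ℝ) (n + 1)) = Ioo (n : ℝ) (n + 1) := interior_Icc
  rcases hs with rfl | rfl
  · left
    apply strictMonoOn_of_deriv_pos (convex_Icc _ _) F_cont.continuousOn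
    intro x hx
    rw [hi] at hx
    rw [(F_deriv x).deriv]
    have := h x hx.1 hx.2
    unfold dF at this
    linarith
  · right
    apply strictAntiOn_of_deriv_neg (convex_Icc _ _) F_cont.continuousOn
    intro x hx
    rw [hi] at hx
    rw [(F_deriv x).deriv]
    have := h x hx.1 hx.2
    unfold dF at this
    linarith

/-- expansion of the metric on a unit interval -/
theorem expand_unit {n m : ℤ} (hn : nz n) {p q : ℝ} (hp : (n : ℝ) < p) (hpq : p ≤ q)
    (hq : q < n + 1) (hm : ∀ x ∈ Icc p q, (m : ℝ) < F x ∧ F x < m + 1) :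
    lam * |L q - L p| ≤ |L (F q) - L (F p)| := by
  rcases hpq.eq_or_lt with rfl | hpq
  · simp
  have hx : ∀ x ∈ Icc p q, (n : ℝ) < x ∧ x < n + 1 := fun x hx =>
    ⟨hp.trans_le hx.1, hx.2.trans_lt hq⟩
  have d1 : ∀ x ∈ Icc p q, HasDerivAt (L ∘ F)
      (π / sin (π * F x) * (sin (π * x) * hh x)) x := fun x hx' =>
    (L_deriv (sin_ne_unit (hm x hx').1 (hm x hx').2)).comp x (F_deriv x)
  have d2 : ∀ x ∈ Icc p q, HasDerivAt L (π / sin (π * x)) x := fun x hx' =>
    L_deriv (sin_ne_unit (hx x hx').1 (hx x hx').2)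
  obtain ⟨c, hc, e⟩ := exists_ratio_hasDerivAt_eq_ratio_slope (L ∘ F) _ hpq
    (fun x hx => (d1 x hx).continuousAt.continuousWithinAt)
    (fun x hx => d1 x (Ioo_subset_Icc_self hx)) L _
    (fun x hx => (d2 x hx).continuousAt.continuousWithinAt)
    (fun x hx => d2 x (Ioo_subset_Icc_self hx))
  have hc' := Ioo_subset_Icc_self hc
  have s1 := sin_ne_unit (hx c hc').1 (hx c hc').2
  have s2 := sin_ne_unit (hm c hc').1 (hm c hc').2
  have hcc := nz_cases hn (hx c hc').1.le (hx c hc').2.le
  have hn0 : ¬ (-2 ≤ c ∧ c ≤ -1) := by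
    rintro ⟨a, b⟩
    rcases hcc with h | h
    · linarith
    · have : c = -2 := le_antisymm h a
      rw [this] at s1
      apply s1
      rw [show π * (-2 : ℝ) = ((-2 : ℤ) : ℝ) * π by push_cast; ring]
      exact Real.sin_int_mul_pi _
  have hn1 : ¬ (-1 / 2 ≤ c ∧ c ≤ 0) := by
    rintro ⟨a, b⟩
    rcases hcc with h | h
    · have : c = 0 := le_antisymm b h
      rw [this] at s1
      apply s1
      simp
    · linarith
  have hex := expand c hn0 hn1
  have e2 := congrArg abs e
  simp only [Function.comp_apply, abs_mul, abs_div] at e2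
  have t1 : 0 < |sin (π * c)| := abs_pos.2 s1
  have t2 : 0 < |sin (π * F c)| := abs_pos.2 s2
  rw [abs_of_pos Real.pi_pos] at e2
  have hpi := Real.pi_pos
  have e3 : |L q - L p| * (sin (π * c) ^ 2 * |hh c|) =
      |L (F q) - L (F p)| * |sin (π * F c)| := by
    rw [← sq_abs (sin (π * c))]
    field_simp at e2
    nlinarith [e2]
  have e4 : |L q - L p| * (lam * |sin (π * F c)|) ≤ |L (F q) - L (F p)| * |sin (π * F c)| := by
    rw [← e3]
    exact mul_le_mul_of_nonneg_left hex (abs_nonneg _)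
  have e5 : (lam * |L q - L p|) * |sin (π * F c)| ≤
      |L (F q) - L (F p)| * |sin (π * F c)| := by linarith
  exact le_of_mul_le_mul_right e5 t2

/-- monotonicity of the metric length -/
theorem L_len {n : ℤ} {p q : ℝ} (hp : (n : ℝ) < p) (hpq : p ≤ q) (hq : q < n + 1) :
    π * (q - p) ≤ |L q - L p| ∧ ∀ y ∈ Icc p q, ∀ z ∈ Icc p q, |L y - L z| ≤ |L q - L p| := by
  have hx : ∀ x ∈ Icc p q, (n : ℝ) < x ∧ x < n + 1 := fun x hx =>
    ⟨hp.trans_le hx.1, hx.2.trans_lt hq⟩
  have hpi := Real.pi_pos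
  -- the function `ep n * L` has derivative at least `π`
  have hd : ∀ x ∈ Icc p q, HasDerivAt (fun t => ep n * L t) (ep n * (π / sin (π * x))) x :=
    fun x hx' => (L_deriv (sin_ne_unit (hx x hx').1 (hx x hx').2)).const_mul _
  have hge : ∀ x ∈ Icc p q, π ≤ ep n * (π / sin (π * x)) := by
    intro x hx'
    have h1 := sin_sign (hx x hx').1 (hx x hx').2
    have h2 : ep n * sin (π * x) ≤ 1 := by
      have := abs_mul (ep n) (sin (π * x))
      rw [ep_abs, one_mul] at this
      have h3 := Real.abs_sin_le_one (π * x)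
      have h4 := le_abs_self (ep n * sin (π * x))
      linarith
    have e : ep n * (π / sin (π * x)) = π / (ep n * sin (π * x)) := by
      have s1 := sin_ne_unit (hx x hx').1 (hx x hx').2
      have e0 := ep_sq n
      have e1 : ep n ≠ 0 := by
        intro h0
        rw [h0] at e0
        norm_num at e0
      field_simp
      linear_combination e0
    rw [e, le_div_iff₀ h1]
    nlinarith
  have hmono : ∀ y ∈ Icc p q, ∀ z ∈ Icc p q, y ≤ z → π * (z - y) ≤ ep n * L z - ep n * L y := by
    intro y hy z hz hyz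
    have hsub : Icc y z ⊆ Icc p q := Icc_subset_Icc hy.1 hz.2
    rcases hyz.eq_or_lt with rfl | hlt
    · simp
    obtain ⟨c, hc, e⟩ := exists_hasDerivAt_eq_slope (fun t => ep n * L t) _ hlt
      (fun x hx' => (hd x (hsub hx')).continuousAt.continuousWithinAt)
      (fun x hx' => hd x (hsub (Ioo_subset_Icc_self hx')))
    have h1 := hge c (hsub (Ioo_subset_Icc_self hc))
    rw [e, le_div_iff₀ (by linarith)] at h1
    linarith
  have habs : ∀ y z : ℝ, |L y - L z| = |ep n * L y - ep n * L z| := by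
    intro y z
    rw [← mul_sub, abs_mul, ep_abs, one_mul]
  have h0 := hmono p (left_mem_Icc.2 hpq) q (right_mem_Icc.2 hpq) hpq
  have h0' : 0 ≤ π * (q - p) := mul_nonneg hpi.le (by linarith)
  refine ⟨?_, fun y hy z hz => ?_⟩
  · rw [habs, abs_of_nonneg (by linarith)]
    exact h0
  · rw [habs, habs q p, abs_of_nonneg (by linarith : 0 ≤ ep n * L q - ep n * L p)]
    have a1 := hmono p (left_mem_Icc.2 hpq) y hy hy.1
    have a2 := hmono p (left_mem_Icc.2 hpq) z hz hz.1
    have a3 := hmono y hy q (right_mem_Icc.2 hpq) hy.2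
    have a4 := hmono z hz q (right_mem_Icc.2 hpq) hz.2
    have b1 : 0 ≤ π * (y - p) := mul_nonneg hpi.le (by linarith [hy.1])
    have b2 : 0 ≤ π * (z - p) := mul_nonneg hpi.le (by linarith [hz.1])
    have b3 : 0 ≤ π * (q - y) := mul_nonneg hpi.le (by linarith [hy.2])
    have b4 : 0 ≤ π * (q - z) := mul_nonneg hpi.le (by linarith [hz.2])
    rw [abs_le]
    constructor <;> linarith

/-- distortion of one step -/
theorem dist_one {n : ℤ} (hn : nz n) {p q : ℝ} (hp : (n : ℝ) < p) (hpq : p ≤ q)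
    (hq : q < n + 1) {x y : ℝ} (hx : x ∈ Icc p q) (hy : y ∈ Icc p q) :
    |dF x| ≤ Real.exp (9 * |L q - L p|) * |dF y| := by
  have hu : ∀ x ∈ Icc p q, (n : ℝ) < x ∧ x < n + 1 := fun x hx =>
    ⟨hp.trans_le hx.1, hx.2.trans_lt hq⟩
  have hne : ∀ x ∈ Icc p q, dF x ≠ 0 := fun x hx' =>
    mul_ne_zero (sin_ne_unit (hu x hx').1 (hu x hx').2)
      (hh_ne (nz_cases hn (hu x hx').1.le (hu x hx').2.le))
  have key : ∀ x ∈ Icc p q, ∀ y ∈ Icc p q, x < y →
      |log (dF y) - log (dF x)| ≤ 9 * |L y - L x| := by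
    intro x hx y hy hxy
    have hsub : Icc x y ⊆ Icc p q := Icc_subset_Icc hx.1 hy.2
    have d1 : ∀ t ∈ Icc x y, HasDerivAt (fun t => log (dF t))
        ((cos (π * t) * π * hh t + sin (π * t) * (π / 2 + 2 * (cos (π * t) * π))) / dF t) t :=
      fun t ht => (dF_deriv t).log (hne t (hsub ht))
    have d2 : ∀ t ∈ Icc x y, HasDerivAt L (π / sin (π * t)) t := fun t ht =>
      L_deriv (sin_ne_unit (hu t (hsub ht)).1 (hu t (hsub ht)).2)
    obtain ⟨c, hc, e⟩ := exists_ratio_hasDerivAt_eq_ratio_slope (fun t => log (dF t)) _ hxy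
      (fun t ht => (d1 t ht).continuousAt.continuousWithinAt)
      (fun t ht => d1 t (Ioo_subset_Icc_self ht)) L _
      (fun t ht => (d2 t ht).continuousAt.continuousWithinAt)
      (fun t ht => d2 t (Ioo_subset_Icc_self ht))
    have hc' := hsub (Ioo_subset_Icc_self hc)
    have s1 := sin_ne_unit (hu c hc').1 (hu c hc').2
    have s2 := hh_ne (nz_cases hn (hu c hc').1.le (hu c hc').2.le)
    have s3 := hh_abs (nz_cases hn (hu c hc').1.le (hu c hc').2.le)
    have hpi := Real.pi_pos
    -- the quotient of the derivatives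
    have e1 : log (dF y) - log (dF x) = (L y - L x) *
        (cos (π * c) + sin (π * c) * (1 / 2 + 2 * cos (π * c)) / hh c) := by
      unfold dF at e ⊢
      field_simp at e ⊢
      linear_combination (-2 : ℝ) * e * 0 - e
    rw [e1, abs_mul, mul_comm]
    apply mul_le_mul_of_nonneg_right _ (abs_nonneg _)
    refine (abs_add_le _ _).trans ?_
    have c1 := Real.abs_cos_le_one (π * c)
    have c2 := Real.abs_sin_le_one (π * c)
    rw [abs_div, abs_mul]
    have c3 : |1 / 2 + 2 * cos (π * c)| ≤ 5 / 2 := by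
      obtain ⟨u, v⟩ := abs_le.1 c1
      rw [abs_le]; constructor <;> linarith
    have c4 : |sin (π * c)| * |1 / 2 + 2 * cos (π * c)| / |hh c| ≤ 1 * (5 / 2) / (7 / 20) := by
      gcongr
    norm_num at c4
    linarith
  have main : log (dF x) ≤ 9 * |L q - L p| + log (dF y) := by
    obtain ⟨-, hlen⟩ := L_len hp hpq hq
    rcases lt_trichotomy x y with h | h | h
    · have h1 := key x hx y hy h
      have h2 := hlen y hy x hx
      have h3 := (abs_le.1 h1).1
      linarith
    · rw [h]
      have := abs_nonneg (L q - L p)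
      linarith
    · have h1 := key y hy x hx h
      have h2 := hlen x hx y hy
      have h3 := (abs_le.1 h1).2
      linarith
  have e1 := Real.exp_le_exp.2 main
  rw [Real.exp_add, ← Real.log_abs, ← Real.log_abs (dF y), Real.exp_log (abs_pos.2 (hne x hx)),
    Real.exp_log (abs_pos.2 (hne y hy))] at e1
  exact e1

end Pool.Agent.E8helper52.RL
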