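import Mathlib
import Pool.Agent.E8helper52.RL.Pull

/-!
Pull back of intervals along orbits of the real line, with bounded distortion: the induction.
-/

set_option autoImplicit false

open Real Set Filter Topology

namespace Pool.Agent.E8helper52.RL

open Pool.Agent.H723R2.LSW (F T F_int F_cont)

theorem bilip {n : ℤ} (hn : nz n) {p q : ℝ} (hp : (n : ℝ) < p) (hpq : p ≤ q) (hq : q < n + 1) :
    ∃ c : ℝ, 0 < c ∧ ∀ y ∈ Icc p q, ∀ z ∈ Icc p q, c * |y - z| ≤ |F y - F z| ∧
      |F y - F z| ≤ c * Real.exp (18 * |L q - L p|) * |y - z| := by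
  have hpm : p ∈ Icc p q := left_mem_Icc.2 hpq
  have hpos : 0 < |dF p| := by
    have h1 := sin_ne_unit hp (hpq.trans_lt hq)
    have h2 := hh_ne (nz_cases hn hp.le (hpq.trans hq.le))
    exact abs_pos.2 (mul_ne_zero h1 h2)
  refine ⟨Real.exp (-(9 * |L q - L p|)) * |dF p|, by positivity, ?_⟩
  have key : ∀ y ∈ Icc p q, ∀ z ∈ Icc p q, y < z →
      Real.exp (-(9 * |L q - L p|)) * |dF p| * |y - z| ≤ |F y - F z| ∧
      |F y - F z| ≤ Real.exp (-(9 * |L q - L p|)) * |dF p| *
        Real.exp (18 * |L q - L p|) * |y - z| := by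
    intro y hy z hz hyz
    obtain ⟨c, hc, e⟩ := exists_hasDerivAt_eq_slope F (fun x => sin (π * x) * hh x) hyz
      F_cont.continuousOn (fun x _ => F_deriv x)
    have hc' : c ∈ Icc p q := ⟨hy.1.trans hc.1.le, hc.2.le.trans hz.2⟩
    have e1 : F z - F y = dF c * (z - y) := by
      unfold dF
      rw [e, div_mul_cancel₀ _ (by linarith : z - y ≠ 0)]
    have e2 : |F y - F z| = |dF c| * |y - z| := by
      rw [abs_sub_comm, e1, abs_mul, abs_sub_comm z y]
    have h1 := dist_one hn hp hpq hq hc' hpm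
    have h2 := dist_one hn hp hpq hq hpm hc'
    have h3 : Real.exp (-(9 * |L q - L p|)) * |dF p| ≤ |dF c| := by
      calc Real.exp (-(9 * |L q - L p|)) * |dF p|
          ≤ Real.exp (-(9 * |L q - L p|)) * (Real.exp (9 * |L q - L p|) * |dF c|) := by gcongr
        _ = |dF c| := by rw [← mul_assoc, ← Real.exp_add]; simp
    have h4 : |dF c| ≤ Real.exp (-(9 * |L q - L p|)) * |dF p| * Real.exp (18 * |L q - L p|) := by
      refine h1.trans (le_of_eq ?_)
      rw [mul_right_comm, ← Real.exp_add]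
      congr 2
      ring
    rw [e2]
    constructor <;> gcongr
  intro y hy z hz
  rcases lt_trichotomy y z with h | h | h
  · exact key y hy z hz h
  · rw [h]; simp
  · have := key z hz y hy h
    rwa [abs_sub_comm z y, abs_sub_comm (F z)] at this

/-- inverse branches -/
theorem inv_branch {n m : ℤ} (hn : nz n) {x c d : ℝ} (h1 : (n : ℝ) < x) (h2 : x < n + 1)
    (hc : (m : ℝ) < c) (hd : d < m + 1) (hcd : c < d) (hcx : c ≤ F x) (hxd : F x ≤ d) :
    ∃ a b : ℝ, a < b ∧ (n : ℝ) < a ∧ b < n + 1 ∧ a ≤ x ∧ x ≤ b ∧ F '' Icc a b = Icc c d := by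
  have hnm : (n : ℝ) ∈ Icc (n : ℝ) (n + 1) := ⟨le_rfl, by linarith⟩
  have hnm' : (n : ℝ) + 1 ∈ Icc (n : ℝ) (n + 1) := ⟨by linarith, le_rfl⟩
  have hxm : x ∈ Icc (n : ℝ) (n + 1) := ⟨h1.le, h2.le⟩
  have e0 : F n = T n := F_int n
  have e1 : F ((n : ℝ) + 1) = T (n + 1) := by
    have := F_int (n + 1)
    push_cast at this
    exact this
  rcases F_strict hn with hF | hF
  · have f1 : F n < F x := hF hnm hxm h1
    have f2 : F x < F (n + 1) := hF hxm hnm' h2
    have g1 : F n ≤ m := by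
      rw [e0] at f1 ⊢
      have : T n < m + 1 := by
        have : (T n : ℝ) < m + 1 := by linarith
        exact_mod_cast this
      have : T n ≤ m := by omega
      exact_mod_cast this
    have g2 : (m : ℝ) + 1 ≤ F (n + 1) := by
      rw [e1] at f2 ⊢
      have : m < T (n + 1) := by
        have : (m : ℝ) < T (n + 1) := by linarith
        exact_mod_cast this
      have : m + 1 ≤ T (n + 1) := by omega
      exact_mod_cast this
    obtain ⟨a, ha, hFa⟩ := intermediate_value_Icc h1.le (f := F) F_cont.continuousOn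
      (show c ∈ Icc (F n) (F x) from ⟨by linarith, hcx⟩)
    obtain ⟨b, hb, hFb⟩ := intermediate_value_Icc h2.le (f := F) F_cont.continuousOn
      (show d ∈ Icc (F x) (F (n + 1)) from ⟨hxd, by linarith⟩)
    have ham : a ∈ Icc (n : ℝ) (n + 1) := ⟨ha.1, ha.2.trans h2.le⟩
    have hbm : b ∈ Icc (n : ℝ) (n + 1) := ⟨h1.le.trans hb.1, hb.2⟩
    refine ⟨a, b, ?_, ?_, ?_, ha.2, hb.1, ?_⟩
    · rcases (ha.2.trans hb.1).eq_or_lt with h | h
      · rw [h, hFb] at hFa; linarith
      · exact h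
    · rcases ha.1.eq_or_lt with h | h
      · rw [← h] at hFa; linarith
      · exact h
    · rcases hb.2.eq_or_lt with h | h
      · rw [h] at hFb; linarith
      · exact h
    · apply Subset.antisymm
      · rintro _ ⟨y, hy, rfl⟩
        have hym : y ∈ Icc (n : ℝ) (n + 1) := ⟨ham.1.trans hy.1, hy.2.trans hbm.2⟩
        rw [← hFa, ← hFb]
        exact ⟨hF.monotoneOn ham hym hy.1, hF.monotoneOn hym hbm hy.2⟩
      · rw [← hFa, ← hFb]
        exact intermediate_value_Icc (ha.2.trans hb.1) F_cont.continuousOn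
  · have f1 : F x < F n := hF hnm hxm h1
    have f2 : F (n + 1) < F x := hF hxm hnm' h2
    have g1 : F (n + 1) ≤ m := by
      rw [e1] at f2 ⊢
      have : T (n + 1) < m + 1 := by
        have : (T (n + 1) : ℝ) < m + 1 := by linarith
        exact_mod_cast this
      have : T (n + 1) ≤ m := by omega
      exact_mod_cast this
    have g2 : (m : ℝ) + 1 ≤ F n := by
      rw [e0] at f1 ⊢
      have : m < T n := by
        have : (m : ℝ) < T n := by linarith
        exact_mod_cast this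
      have : m + 1 ≤ T n := by omega
      exact_mod_cast this
    obtain ⟨a, ha, hFa⟩ := intermediate_value_Icc' h1.le (f := F) F_cont.continuousOn
      (show d ∈ Icc (F x) (F n) from ⟨hxd, by linarith⟩)
    obtain ⟨b, hb, hFb⟩ := intermediate_value_Icc' h2.le (f := F) F_cont.continuousOn
      (show c ∈ Icc (F (n + 1)) (F x) from ⟨by linarith, hcx⟩)
    have ham : a ∈ Icc (n : ℝ) (n + 1) := ⟨ha.1, ha.2.trans h2.le⟩
    have hbm : b ∈ Icc (n : ℝ) (n + 1) := ⟨h1.le.trans hb.1, hb.2⟩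
    refine ⟨a, b, ?_, ?_, ?_, ha.2, hb.1, ?_⟩
    · rcases (ha.2.trans hb.1).eq_or_lt with h | h
      · rw [h, hFb] at hFa; linarith
      · exact h
    · rcases ha.1.eq_or_lt with h | h
      · rw [← h] at hFa; linarith
      · exact h
    · rcases hb.2.eq_or_lt with h | h
      · rw [h] at hFb; linarith
      · exact h
    · apply Subset.antisymm
      · rintro _ ⟨y, hy, rfl⟩
        have hym : y ∈ Icc (n : ℝ) (n + 1) := ⟨ham.1.trans hy.1, hy.2.trans hbm.2⟩
        rw [← hFa, ← hFb]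
        exact ⟨hF.antitoneOn hym hbm hy.2, hF.antitoneOn ham hym hy.1⟩
      · rw [← hFa, ← hFb]
        exact intermediate_value_Icc' (ha.2.trans hb.1) F_cont.continuousOn

/-- points of the interior of a unit interval which does not meet `[-2,0]` -/
def good (y : ℝ) : Prop := ∃ n : ℤ, nz n ∧ (n : ℝ) < y ∧ y < n + 1

theorem lam_pos : (0 : ℝ) < lam := by unfold lam; norm_num

/-- pull back of an interval along an orbit -/
theorem pull (k : ℕ) : ∀ x : ℝ, (∀ j < k, good (F^[j] x)) → ∀ (m : ℤ) (c d : ℝ),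
    (m : ℝ) < c → d < m + 1 → c < d → c ≤ F^[k] x → F^[k] x ≤ d →
    ∃ (a b c₀ : ℝ) (n : ℤ), a < b ∧ a ≤ x ∧ x ≤ b ∧ 0 < c₀ ∧ (n : ℝ) < a ∧ b < n + 1 ∧
      F^[k] '' Icc a b = Icc c d ∧ |L b - L a| ≤ (1 / lam) ^ k * |L d - L c| ∧
      ∀ y ∈ Icc a b, ∀ z ∈ Icc a b, c₀ * |y - z| ≤ |F^[k] y - F^[k] z| ∧
        |F^[k] y - F^[k] z| ≤
          c₀ * Real.exp (3600 * (1 - (1 / lam) ^ k) * |L d - L c|) * |y - z| := by
  induction k with
  | zero =>
    intro x _ m c d hc hd hcd hcx hxd
    refine ⟨c, d, 1, m, hcd, hcx, hxd, one_pos, hc, hd, by simp, by simp, ?_⟩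
    intro y _ z _
    simp
  | succ k ih =>
    intro x hx m c d hc hd hcd hcx hxd
    obtain ⟨n, hn, hnx, hxn⟩ := hx 0 (Nat.succ_pos k)
    rw [Function.iterate_zero, id] at hnx hxn
    rw [Function.iterate_succ_apply] at hcx hxd
    obtain ⟨a₁, b₁, c₁, m₁, hab₁, hax₁, hxb₁, hc₁, hma₁, hbm₁, him₁, hlen₁, hlip₁⟩ :=
      ih (F x) (fun j hj => by
        have := hx (j + 1) (by omega)
        rwa [Function.iterate_succ_apply] at this) m c d hc hd hcd hcx hxd
    obtain ⟨a, b, hab, hna, hbn, hax, hxb, him⟩ :=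
      inv_branch hn hnx hxn hma₁ hbm₁ hab₁ hax₁ hxb₁
    have hmaps : ∀ y ∈ Icc a b, F y ∈ Icc a₁ b₁ := fun y hy => by
      rw [← him]; exact ⟨y, hy, rfl⟩
    obtain ⟨c₂, hc₂, hlip₂⟩ := bilip hn hna hab.le hbn
    have hexp := expand_unit (m := m₁) hn hna hab.le hbn (fun y hy =>
      ⟨hma₁.trans_le (hmaps y hy).1, (hmaps y hy).2.trans_lt hbm₁⟩)
    have hl1 : |L (F b) - L (F a)| ≤ |L b₁ - L a₁| :=
      (L_len hma₁ hab₁.le hbm₁).2 _ (hmaps b (right_mem_Icc.2 hab.le)) _
        (hmaps a (left_mem_Icc.2 hab.le))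
    have hl2 : |L b - L a| ≤ (1 / lam) ^ (k + 1) * |L d - L c| := by
      have h1 : lam * |L b - L a| ≤ (1 / lam) ^ k * |L d - L c| :=
        hexp.trans (hl1.trans hlen₁)
      rw [pow_succ]
      have h2 : |L b - L a| = 1 / lam * (lam * |L b - L a|) := by
        rw [← mul_assoc, one_div, inv_mul_cancel₀ lam_pos.ne', one_mul]
      rw [h2]
      calc 1 / lam * (lam * |L b - L a|) ≤ 1 / lam * ((1 / lam) ^ k * |L d - L c|) := by
            have := lam_pos
            gcongr
        _ = (1 / lam) ^ k * (1 / lam) * |L d - L c| := by ring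
    refine ⟨a, b, c₁ * c₂, n, hab, hax, hxb, by positivity, hna, hbn, ?_, hl2, ?_⟩
    · rw [Function.iterate_succ, image_comp, him, him₁]
    · intro y hy z hz
      obtain ⟨u1, u2⟩ := hlip₂ y hy z hz
      obtain ⟨v1, v2⟩ := hlip₁ (F y) (hmaps y hy) (F z) (hmaps z hz)
      rw [Function.iterate_succ_apply, Function.iterate_succ_apply]
      constructor
      · calc c₁ * c₂ * |y - z| = c₁ * (c₂ * |y - z|) := by ring
          _ ≤ c₁ * |F y - F z| := by gcongr
          _ ≤ _ := v1
      · have e1 : Real.exp (18 * |L b - L a|) ≤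
            Real.exp (18 * ((1 / lam) ^ (k + 1) * |L d - L c|)) := by
          apply Real.exp_le_exp.2
          linarith
        have e2 : Real.exp (3600 * (1 - (1 / lam) ^ k) * |L d - L c|) *
            Real.exp (18 * ((1 / lam) ^ (k + 1) * |L d - L c|)) =
            Real.exp (3600 * (1 - (1 / lam) ^ (k + 1)) * |L d - L c|) := by
          rw [← Real.exp_add]
          congr 1
          rw [pow_succ]
          unfold lam
          ring
        calc |F^[k] (F y) - F^[k] (F z)|
            ≤ c₁ * Real.exp (3600 * (1 - (1 / lam) ^ k) * |L d - L c|) * |F y - F z| := v2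
          _ ≤ c₁ * Real.exp (3600 * (1 - (1 / lam) ^ k) * |L d - L c|) *
              (c₂ * Real.exp (18 * ((1 / lam) ^ (k + 1) * |L d - L c|)) * |y - z|) := by
              refine mul_le_mul_of_nonneg_left (u2.trans ?_) (by positivity)
              gcongr
          _ = c₁ * c₂ * (Real.exp (3600 * (1 - (1 / lam) ^ k) * |L d - L c|) *
            Real.exp (18 * ((1 / lam) ^ (k + 1) * |L d - L c|))) * |y - z| := by ring
          _ = _ := by rw [e2]

end Pool.Agent.E8helper52.RL
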