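import Mathlib
import Pool.Agent.E8helper52.RL.Pull2

/-!
Lebesgue density points of forward invariant sets of the real line.
-/

set_option autoImplicit false

open Real Set Filter Topology MeasureTheory

namespace Pool.Agent.E8helper52.RL

open Pool.Agent.H723R2.LSW (F T F_int F_cont)

/-- intervals containing `x` are almost filled by `E` -/
def Dens (E : Set ℝ) (x : ℝ) : Prop := ∀ η : ℝ, 0 < η → ∃ r : ℝ, 0 < r ∧ ∀ a b : ℝ, a ≤ x → x ≤ b →
  a < b → b - a < r → volume (Icc a b \ E) ≤ ENNReal.ofReal (η * (b - a))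

theorem dens_ae {E : Set ℝ} (hE : MeasurableSet E) : ∀ᵐ x, x ∈ E → Dens E x := by
  have h := Besicovitch.ae_tendsto_measure_inter_div_of_measurableSet (volume : Measure ℝ) hE
  filter_upwards [h] with x hx hxE η hη
  rw [indicator_of_mem hxE, Pi.one_apply] at hx
  have h1 : ∀ᶠ r in 𝓝[>] (0 : ℝ), ENNReal.ofReal (1 - η / 2) <
      volume (E ∩ Metric.closedBall x r) / volume (Metric.closedBall x r) := by
    apply hx.eventually (lt_mem_nhds _)
    rw [← ENNReal.ofReal_one]
    exact (ENNReal.ofReal_lt_ofReal_iff one_pos).2 (by linarith)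
  rw [eventually_nhdsWithin_iff, Metric.eventually_nhds_iff] at h1
  obtain ⟨ε, hε, h2⟩ := h1
  refine ⟨ε, hε, fun a b hax hxb hab hr => ?_⟩
  have hr0 : 0 < b - a := by linarith
  have h3 := h2 (y := b - a) (by rw [dist_zero_right, Real.norm_of_nonneg hr0.le]; exact hr) hr0
  rw [Real.volume_closedBall] at h3
  have hpos : ENNReal.ofReal (2 * (b - a)) ≠ 0 := by
    rw [Ne, ENNReal.ofReal_eq_zero, not_le]; linarith
  rw [ENNReal.lt_div_iff_mul_lt (Or.inl hpos) (Or.inl ENNReal.ofReal_ne_top)] at h3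
  have hsub : Icc a b \ E ⊆ Metric.closedBall x (b - a) \ E := by
    apply sdiff_subset_sdiff_left
    intro y hy
    rw [Metric.mem_closedBall, Real.dist_eq, abs_le]
    constructor <;> linarith [hy.1, hy.2]
  refine (measure_mono hsub).trans ?_
  have h4 : volume (Metric.closedBall x (b - a) ∩ E) + volume (Metric.closedBall x (b - a) \ E) =
      volume (Metric.closedBall x (b - a)) := measure_inter_add_sdiff _ hE
  rw [Real.volume_closedBall, inter_comm] at h4
  have hfin : volume (Metric.closedBall x (b - a) \ E) ≠ ⊤ := by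
    intro ht
    rw [ht, add_top] at h4
    exact ENNReal.ofReal_ne_top h4.symm
  have hfin2 : volume (E ∩ Metric.closedBall x (b - a)) ≠ ⊤ := by
    intro ht
    rw [ht, top_add] at h4
    exact ENNReal.ofReal_ne_top h4.symm
  -- go to real numbers
  have h5 := (ENNReal.toReal_lt_toReal (ENNReal.mul_ne_top ENNReal.ofReal_ne_top
    ENNReal.ofReal_ne_top) hfin2).2 h3
  have h6 := congrArg ENNReal.toReal h4
  rw [ENNReal.toReal_add hfin2 hfin, ENNReal.toReal_ofReal (by linarith)] at h6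
  rw [ENNReal.toReal_mul, ENNReal.toReal_ofReal (by linarith : 0 ≤ 2 * (b - a))] at h5
  have h7 : 1 - η / 2 ≤ (ENNReal.ofReal (1 - η / 2)).toReal := by
    rw [ENNReal.toReal_ofReal']; exact le_max_left _ _
  rw [← ENNReal.ofReal_toReal hfin]
  apply ENNReal.ofReal_le_ofReal
  nlinarith

theorem vol_image {f : ℝ → ℝ} {S : Set ℝ} {l : ℝ}
    (hf : ∀ y ∈ S, ∀ z ∈ S, |f y - f z| ≤ l * |y - z|) (hl : 0 ≤ l) :
    volume (f '' S) ≤ ENNReal.ofReal l * volume S := by
  have h : LipschitzOnWith (Real.toNNReal l) f S := by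
    apply LipschitzOnWith.of_dist_le_mul
    intro y hy z hz
    rw [Real.dist_eq, Real.dist_eq, Real.coe_toNNReal _ hl]
    exact hf y hy z hz
  have := h.hausdorffMeasure_image_le (d := 1) zero_le_one
  rw [hausdorffMeasure_real] at this
  simpa [ENNReal.ofReal] using this

/-- almost filled intervals around the iterates of a density point -/
theorem density {E E' : Set ℝ} {j : ℕ} (hE : ∀ k, j ≤ k → ∀ y ∈ E, F^[k] y ∈ E') {x : ℝ}
    (hx : Dens E x) {R η : ℝ} (hη : 0 < η) :
    ∃ k₀ : ℕ, ∀ k, k₀ ≤ k → (∀ i < k, good (F^[i] x)) → ∀ (m : ℤ) (c d : ℝ), (m : ℝ) < c →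
      d < m + 1 → c < d → c ≤ F^[k] x → F^[k] x ≤ d → |L d - L c| ≤ R →
      volume (Icc c d \ E') ≤ ENNReal.ofReal (η * (d - c)) := by
  have hK : 0 < Real.exp (3600 * R) := Real.exp_pos _
  obtain ⟨r, hr, h⟩ := hx (η / Real.exp (3600 * R)) (by positivity)
  have hl : (1 : ℝ) / lam < 1 := by unfold lam; norm_num
  have hl0 : (0 : ℝ) ≤ 1 / lam := by unfold lam; norm_num
  obtain ⟨k₁, hk₁⟩ : ∃ k₁ : ℕ, (1 / lam) ^ k₁ < r / (|R| + 1) := exists_pow_lt_of_lt_one
    (by positivity) hl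
  refine ⟨max j k₁, fun k hk hgood m c d hc hd hcd hcx hxd hR => ?_⟩
  obtain ⟨a, b, c₀, n, hab, hax, hxb, hc₀, hna, hbn, him, hlen, hlip⟩ :=
    pull k x hgood m c d hc hd hcd hcx hxd
  have hR0 : 0 ≤ R := (abs_nonneg _).trans hR
  have hpk : (1 / lam) ^ k ≤ (1 / lam) ^ k₁ :=
    pow_le_pow_of_le_one hl0 hl.le ((le_max_right _ _).trans hk)
  have hpow0 : 0 ≤ (1 / lam) ^ k := pow_nonneg hl0 k
  have hba : b - a < r := by
    have h1 := (L_len hna hab.le hbn).1
    have h2 : π * (b - a) ≤ (1 / lam) ^ k₁ * (|R| + 1) := by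
      refine h1.trans (hlen.trans ?_)
      have : |L d - L c| ≤ |R| + 1 := by
        rw [abs_of_nonneg hR0]; linarith
      gcongr
    have h3 : (1 / lam) ^ k₁ * (|R| + 1) < r := by
      rwa [lt_div_iff₀ (by positivity)] at hk₁
    have h4 := Real.pi_gt_three
    nlinarith
  have h1 := h a b hax hxb hab hba
  set Λ : ℝ := c₀ * Real.exp (3600 * (1 - (1 / lam) ^ k) * |L d - L c|) with hΛ
  have hΛ0 : 0 ≤ Λ := by positivity
  have hsub : Icc c d \ E' ⊆ F^[k] '' (Icc a b \ E) := by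
    rintro w ⟨hw, hwE⟩
    rw [← him] at hw
    obtain ⟨y, hy, rfl⟩ := hw
    exact ⟨y, ⟨hy, fun hyE => hwE (hE k ((le_max_left _ _).trans hk) y hyE)⟩, rfl⟩
  have h2 : volume (Icc c d \ E') ≤ ENNReal.ofReal Λ * volume (Icc a b \ E) :=
    (measure_mono hsub).trans (vol_image (fun y hy z hz => (hlip y hy.1 z hz.1).2) hΛ0)
  have h3 : c₀ * (b - a) ≤ d - c := by
    have h4 := (hlip b (right_mem_Icc.2 hab.le) a (left_mem_Icc.2 hab.le)).1
    rw [abs_of_nonneg (by linarith : 0 ≤ b - a)] at h4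
    refine h4.trans ?_
    have m1 : F^[k] b ∈ Icc c d := by rw [← him]; exact ⟨b, right_mem_Icc.2 hab.le, rfl⟩
    have m2 : F^[k] a ∈ Icc c d := by rw [← him]; exact ⟨a, left_mem_Icc.2 hab.le, rfl⟩
    rw [abs_le]
    constructor <;> linarith [m1.1, m1.2, m2.1, m2.2]
  have h5 : Λ ≤ c₀ * Real.exp (3600 * R) := by
    rw [hΛ]
    have : 3600 * (1 - (1 / lam) ^ k) * |L d - L c| ≤ 3600 * R := by
      have hpow1 : (1 / lam) ^ k ≤ 1 := pow_le_one₀ hl0 hl.le
      have : (1 - (1 / lam) ^ k) * |L d - L c| ≤ 1 * R := by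
        apply mul_le_mul <;> first | linarith | exact abs_nonneg _
      linarith
    gcongr
  calc volume (Icc c d \ E') ≤ ENNReal.ofReal Λ * volume (Icc a b \ E) := h2
    _ ≤ ENNReal.ofReal Λ * ENNReal.ofReal (η / Real.exp (3600 * R) * (b - a)) := by gcongr
    _ = ENNReal.ofReal (Λ * (η / Real.exp (3600 * R) * (b - a))) :=
        (ENNReal.ofReal_mul hΛ0).symm
    _ ≤ ENNReal.ofReal (η * (d - c)) := by
        apply ENNReal.ofReal_le_ofReal
        have hba0 : 0 < b - a := by linarith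
        calc Λ * (η / Real.exp (3600 * R) * (b - a))
            ≤ (c₀ * Real.exp (3600 * R)) * (η / Real.exp (3600 * R) * (b - a)) := by gcongr
          _ = η * (c₀ * (b - a)) := by field_simp
          _ ≤ η * (d - c) := by gcongr

end Pool.Agent.E8helper52.RL
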