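import Mathlib
import Pool.Agent.E8helper52.RL.Dens

/-!
The orbit of a density point of the complement of `A` tends to infinity.
-/

set_option autoImplicit false

open Real Set Filter Topology MeasureTheory

namespace Pool.Agent.E8helper52.RL

open Pool.Agent.H723R2.LSW (F T F_int F_cont)
open Pool.Agent.R105.WR (D D_pos)

theorem A_open : IsOpen A := by
  have e : A = ⋃ (k : ℕ), ⋃ (n : ℤ), {x : ℝ | |F^[k] x - n| < D n} := by
    ext x
    simp [A]
  rw [e]
  refine isOpen_iUnion fun k => isOpen_iUnion fun n => ?_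
  exact isOpen_lt (((F_cont.iterate k).sub continuous_const).abs) continuous_const

/-- the complement of `A` -/
def P : Set ℝ := Aᶜ

theorem P_closed : IsClosed P := A_open.isClosed_compl

theorem P_forward (k : ℕ) {x : ℝ} (h : x ∈ P) : F^[k] x ∈ P := by
  induction k with
  | zero => exact h
  | succ k ih =>
    rw [Function.iterate_succ_apply']
    exact fun hc => ih (A_back hc)

theorem P_not_int {x : ℝ} (h : x ∈ P) (n : ℤ) : x ≠ n := by
  intro hx
  have h1 := not_int h n
  rw [hx, sub_self, abs_zero] at h1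
  linarith [D_pos n]

theorem good_of {x : ℝ} (h : x ∈ P) (h1 : 0 ≤ x ∨ x ≤ -2) : good x := by
  have hx := P_not_int h
  refine ⟨⌊x⌋, ?_, ?_, Int.lt_floor_add_one x⟩
  · rcases h1 with h1 | h1
    · exact Or.inl (Int.floor_nonneg.2 h1)
    · right
      have h2 : x ≠ ((-2 : ℤ) : ℝ) := hx (-2)
      push_cast at h2
      have h3 : x < -2 := lt_of_le_of_ne h1 h2
      have h4 : ⌊x⌋ < -2 := by
        rw [Int.floor_lt]; push_cast; exact h3
      omega
  · exact lt_of_le_of_ne (Int.floor_le x) fun e => hx _ e.symm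

theorem good_range {x : ℝ} (h : good x) : 0 < x ∨ x < -2 := by
  obtain ⟨n, hn, h1, h2⟩ := h
  rcases hn with hn | hn
  · left
    have : (0 : ℝ) ≤ n := by exact_mod_cast hn
    linarith
  · right
    have : (n : ℝ) ≤ -3 := by exact_mod_cast hn
    linarith

theorem not_good {x : ℝ} (h : x ∈ P) (h1 : ¬ good x) : -1 < x ∧ x < -1 / 2 := by
  have h2 : ¬ (0 ≤ x ∨ x ≤ -2) := fun hc => h1 (good_of h hc)
  push Not at h2
  have h3 := not_J1 h
  have h4 := not_J0 h
  constructor
  · by_contra hc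
    push Not at hc
    exact h3 ⟨h2.2.le, hc⟩
  · by_contra hc
    push Not at hc
    exact h4 ⟨hc, h2.1.le⟩

/-- expansion, general form -/
theorem expand_gen {p q : ℝ} (hpq : p < q) (h1 : ∀ x ∈ Icc p q, sin (π * x) ≠ 0)
    (h2 : ∀ x ∈ Icc p q, sin (π * F x) ≠ 0) (h3 : ∀ x ∈ Icc p q, ¬ (-2 ≤ x ∧ x ≤ -1))
    (h4 : ∀ x ∈ Icc p q, ¬ (-1 / 2 ≤ x ∧ x ≤ 0)) :
    lam * |L q - L p| ≤ |L (F q) - L (F p)| := by
  have d1 : ∀ x ∈ Icc p q, HasDerivAt (L ∘ F)
      (π / sin (π * F x) * (sin (π * x) * hh x)) x := fun x hx' =>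
    (L_deriv (h2 x hx')).comp x (F_deriv x)
  have d2 : ∀ x ∈ Icc p q, HasDerivAt L (π / sin (π * x)) x := fun x hx' =>
    L_deriv (h1 x hx')
  obtain ⟨c, hc, e⟩ := exists_ratio_hasDerivAt_eq_ratio_slope (L ∘ F) _ hpq
    (fun x hx => (d1 x hx).continuousAt.continuousWithinAt)
    (fun x hx => d1 x (Ioo_subset_Icc_self hx)) L _
    (fun x hx => (d2 x hx).continuousAt.continuousWithinAt)
    (fun x hx => d2 x (Ioo_subset_Icc_self hx))
  have hc' := Ioo_subset_Icc_self hc
  have s1 := h1 c hc'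
  have s2 := h2 c hc'
  have hex := expand c (h3 c hc') (h4 c hc')
  have e2 := congrArg abs e
  simp only [Function.comp_apply, abs_mul, abs_div] at e2
  have t1 : 0 < |sin (π * c)| := abs_pos.2 s1
  have t2 : 0 < |sin (π * F c)| := abs_pos.2 s2
  rw [abs_of_pos Real.pi_pos] at e2
  have hpi := Real.pi_pos
  have e3 : |L q - L p| * (sin (π * c) ^ 2 * |hh c|) =
      |L (F q) - L (F p)| * |sin (π * F c)| := by
    rw [← sq_abs (sin (π * c))]
    field_simp at e2
    nlinarith [e2]
  have e4 : |L q - L p| * (lam * |sin (π * F c)|) ≤ |L (F q) - L (F p)| * |sin (π * F c)| := by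
    rw [← e3]
    exact mul_le_mul_of_nonneg_left hex (abs_nonneg _)
  have e5 : (lam * |L q - L p|) * |sin (π * F c)| ≤
      |L (F q) - L (F p)| * |sin (π * F c)| := by linarith
  exact le_of_mul_le_mul_right e5 t2

/-- the map on `(-1,-1/2)` -/
theorem F_mid {x : ℝ} (h1 : -1 < x) (h2 : x ≤ -1 / 2) : -1 < F x ∧ F x ≤ -1 / 4 := by
  have hpi := Real.pi_pos
  set v := x + 1 with hv
  have hx : x = -1 + v := by rw [hv]; ring
  have hv0 : 0 < v := by linarith
  have hv1 : v ≤ 1 / 2 := by linarith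
  have h := F_local (-1) v
  have e1 : ep (-1) = -1 := ep_odd (by norm_num)
  have e2 : T (-1) = -1 := by norm_num [T]
  rw [e1, e2] at h
  have e3 : π * (F (-1 + v) + 1) = psi (π * v) + (π * v - sin (π * v) * cos (π * v)) := by
    have h' : π * (F (-1 + v) + 1) = -1 * g (π * (-1 + 1 / 2)) 1 (-1) (π * v) := by
      rw [← sub_neg_eq_add]
      push_cast at h
      exact h
    rw [h']
    unfold g psi
    ring
  have t0 : 0 < π * v := by positivity
  have t1 : π * v ≤ π / 2 := by nlinarith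
  have a1 := psi_nonneg t0.le t1
  have a2 := psi_le t0.le t1
  have a3 : 0 < π * v - sin (π * v) * cos (π * v) := by
    have h := Real.sin_lt (x := 2 * (π * v)) (by linarith)
    rw [Real.sin_two_mul] at h
    linarith
  have hcos : 0 ≤ cos (π * v) := Real.cos_nonneg_of_neg_pi_div_two_le_of_le (by linarith) t1
  have hsin : 0 ≤ sin (π * v) := Real.sin_nonneg_of_nonneg_of_le_pi t0.le (by linarith)
  rw [hx]
  constructor
  · have : 0 < π * (F (-1 + v) + 1) := by rw [e3]; linarith
    have := pos_of_mul_pos_right this hpi.le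
    linarith
  · have a4 : 0 ≤ sin (π * v) * cos (π * v) := mul_nonneg hsin hcos
    have : π * (F (-1 + v) + 1) ≤ π * (3 / 4) := by rw [e3]; nlinarith
    have := le_of_mul_le_mul_left this hpi
    linarith

theorem mid_forward {x : ℝ} (h : x ∈ P) (h1 : -1 < x) (h2 : x < -1 / 2) :
    F x ∈ P ∧ -1 < F x ∧ F x < -1 / 2 := by
  have hP := P_forward 1 h
  rw [Function.iterate_one] at hP
  obtain ⟨a, b⟩ := F_mid h1 h2.le
  refine ⟨hP, a, ?_⟩
  by_contra hc
  push Not at hc
  exact not_J0 hP ⟨hc, by linarith⟩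

theorem sin_mid {x : ℝ} (h1 : -1 < x) (h2 : x < 0) : sin (π * x) ≠ 0 :=
  sin_ne_unit (n := -1) (by push_cast; exact h1) (by push_cast; linarith)

/-- there is at most one point of `P` in `(-1,-1/2)` -/
theorem mid_unique {p q : ℝ} (hp : p ∈ P) (hp1 : -1 < p) (hp2 : p < -1 / 2) (hq : q ∈ P)
    (hq1 : -1 < q) (hq2 : q < -1 / 2) : ¬ p < q := by
  intro hpq
  obtain ⟨C, hC⟩ := L_bound'
  have hstep : ∀ p q : ℝ, -1 < p → p < -1 / 2 → -1 < q → q < -1 / 2 →
      lam * |L q - L p| ≤ |L (F q) - L (F p)| := by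
    have aux : ∀ p q : ℝ, -1 < p → p < q → q < -1 / 2 →
        lam * |L q - L p| ≤ |L (F q) - L (F p)| := by
      intro p q h1 h2 h3
      apply expand_gen h2
      · exact fun x hx => sin_mid (by linarith [hx.1]) (by linarith [hx.2])
      · intro x hx
        obtain ⟨a, b⟩ := F_mid (x := x) (by linarith [hx.1]) (by linarith [hx.2])
        exact sin_mid a (by linarith)
      · exact fun x hx hc => by linarith [hx.1, hc.2]
      · exact fun x hx hc => by linarith [hx.2, hc.1]
    intro p q h1 h2 h3 h4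
    rcases lt_trichotomy p q with h | h | h
    · exact aux p q h1 h h4
    · rw [h]; simp
    · have := aux q p h3 h h2
      rwa [abs_sub_comm, abs_sub_comm (L (F p))] at this
  have hind : ∀ k : ℕ, (F^[k] p ∈ P ∧ -1 < F^[k] p ∧ F^[k] p < -1 / 2) ∧
      (F^[k] q ∈ P ∧ -1 < F^[k] q ∧ F^[k] q < -1 / 2) ∧
      lam ^ k * |L q - L p| ≤ |L (F^[k] q) - L (F^[k] p)| := by
    intro k
    induction k with
    | zero => exact ⟨⟨hp, hp1, hp2⟩, ⟨hq, hq1, hq2⟩, by simp⟩
    | succ k ih =>
      obtain ⟨⟨a1, a2, a3⟩, ⟨b1, b2, b3⟩, c⟩ := ih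
      rw [Function.iterate_succ_apply', Function.iterate_succ_apply']
      refine ⟨mid_forward a1 a2 a3, mid_forward b1 b2 b3, ?_⟩
      refine le_trans ?_ (hstep _ _ a2 a3 b2 b3)
      have := lam_pos
      calc lam ^ (k + 1) * |L q - L p| = lam * (lam ^ k * |L q - L p|) := by ring
        _ ≤ _ := by gcongr
  have hlen := (L_len (n := -1) (by push_cast; exact hp1) hpq.le (by push_cast; linarith)).1
  have hδ : 0 < |L q - L p| := by
    have : 0 < π * (q - p) := mul_pos Real.pi_pos (by linarith)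
    linarith
  have hl1 : (1 : ℝ) < lam := by unfold lam; norm_num
  obtain ⟨k, hk⟩ := ((tendsto_pow_atTop_atTop_of_one_lt hl1).eventually
    (eventually_gt_atTop ((2 * (C + log 2)) / |L q - L p|))).exists
  obtain ⟨⟨a1, a2, a3⟩, ⟨b1, b2, b3⟩, c⟩ := hind k
  rw [div_lt_iff₀ hδ] at hk
  have h1 := hC _ a1
  have h2 := hC _ b1
  have e1 : log (|F^[k] p| + 1) ≤ log 2 := by
    apply Real.log_le_log (by positivity)
    rw [abs_of_neg (by linarith)]; linarith
  have e2 : log (|F^[k] q| + 1) ≤ log 2 := by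
    apply Real.log_le_log (by positivity)
    rw [abs_of_neg (by linarith)]; linarith
  have h4 := abs_sub (L (F^[k] q)) (L (F^[k] p))
  linarith

/-- the orbit of a density point of `P` does not meet `[-2,0]` -/
theorem dens_good {x : ℝ} (hx : x ∈ P) (hd : Dens P x) (k : ℕ) : good (F^[k] x) := by
  classical
  by_contra hcon
  have hex : ∃ k, ¬ good (F^[k] x) := ⟨k, hcon⟩
  set K := Nat.find hex with hK
  have h1 : ¬ good (F^[K] x) := Nat.find_spec hex
  have h2 : ∀ j < K, good (F^[j] x) := fun j hj => by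
    by_contra hc
    exact Nat.find_min hex hj hc
  have hP := P_forward K hx
  obtain ⟨h3, h4⟩ := not_good hP h1
  set y := F^[K] x with hy
  obtain ⟨ρ, hρ, hρ1, hρ2⟩ : ∃ ρ : ℝ, 0 < ρ ∧ -1 < y - ρ ∧ y + ρ < -1 / 2 := by
    refine ⟨min (y + 1) (-1 / 2 - y) / 2, ?_, ?_, ?_⟩
    · have : 0 < min (y + 1) (-1 / 2 - y) := lt_min (by linarith) (by linarith)
      linarith
    · have := min_le_left (y + 1) (-1 / 2 - y)
      linarith
    · have := min_le_right (y + 1) (-1 / 2 - y)
      linarith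
  obtain ⟨a, b, c₀, n, hab, hax, hxb, hc₀, hna, hbn, him, hlen, hlip⟩ :=
    pull K x h2 (-1) (y - ρ) (y + ρ) (by push_cast; exact hρ1) (by push_cast; linarith)
      (by linarith) (by linarith) (by linarith)
  -- `x` is the only point of `P` in `[a,b]`
  have huniq : ∀ z ∈ Icc a b, z ∈ P → z = x := by
    intro z hz hzP
    have hz1 := P_forward K hzP
    have hz2 : F^[K] z ∈ Icc (y - ρ) (y + ρ) := by rw [← him]; exact ⟨z, hz, rfl⟩
    have hz3 : F^[K] z = y := by
      rcases lt_trichotomy (F^[K] z) y with h | h | h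
      · exact absurd h (mid_unique hz1 (by linarith [hz2.1]) (by linarith [hz2.2]) hP h3 h4)
      · exact h
      · exact absurd h (mid_unique hP h3 h4 hz1 (by linarith [hz2.1]) (by linarith [hz2.2]))
    have h5 := (hlip z hz x ⟨hax, hxb⟩).1
    rw [hz3, ← hy, sub_self, abs_zero] at h5
    have h6 : |z - x| ≤ 0 := by
      by_contra hc
      push Not at hc
      nlinarith
    have := abs_eq_zero.1 (le_antisymm h6 (abs_nonneg _))
    linarith
  obtain ⟨r, hr, hd'⟩ := hd (1 / 2) (by norm_num)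
  -- a small interval
  obtain ⟨s, t, hs, ht, hst, hsr, hsub⟩ : ∃ s t : ℝ, s ≤ x ∧ x ≤ t ∧ s < t ∧ t - s < r ∧
      Icc s t ⊆ Icc a b := by
    rcases hxb.eq_or_lt with h | h
    · refine ⟨max a (x - r / 2), x, ?_, le_rfl, ?_, ?_, ?_⟩
      · exact max_le hax (by linarith)
      · exact max_lt (by linarith) (by linarith)
      · have := le_max_right a (x - r / 2)
        linarith
      · exact Icc_subset_Icc (le_max_left _ _) hxb
    · refine ⟨x, min b (x + r / 2), le_rfl, ?_, ?_, ?_, ?_⟩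
      · exact le_min hxb (by linarith)
      · exact lt_min h (by linarith)
      · have := min_le_right b (x + r / 2)
        linarith
      · exact Icc_subset_Icc hax (min_le_left _ _)
  have h7 := hd' s t hs ht hst hsr
  have h8 : Icc s t \ {x} ⊆ Icc s t \ P := by
    rintro z ⟨hz, hzx⟩
    exact ⟨hz, fun hzP => hzx (huniq z (hsub hz) hzP)⟩
  have h9 := (measure_mono h8).trans h7
  rw [measure_sdiff_null (by simp), Real.volume_Icc] at h9
  have h10 := (ENNReal.ofReal_le_ofReal_iff (by linarith)).1 h9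
  linarith

/-- the orbit of a density point of `P` tends to infinity -/
theorem dens_tendsto {x : ℝ} (hx : x ∈ P) (hd : Dens P x) :
    Tendsto (fun k : ℕ => |F^[k] x|) atTop atTop := by
  by_contra hcon
  have hgood := dens_good hx hd
  rw [Filter.tendsto_atTop] at hcon
  push Not at hcon
  obtain ⟨R, hR⟩ := hcon
  have hR' : ∃ᶠ k in atTop, F^[k] x ∈ Metric.closedBall (0 : ℝ) R := by
    refine hR.mono fun k hk => ?_
    rw [Metric.mem_closedBall, Real.dist_eq, sub_zero]
    exact hk.le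
  obtain ⟨y, -, φ, hφ, hlim⟩ := (isCompact_closedBall (0 : ℝ) R).tendsto_subseq' hR'
  have hyP : y ∈ P := P_closed.mem_of_tendsto hlim
    (Eventually.of_forall fun k => P_forward (φ k) hx)
  have hyr : 0 ≤ y ∨ y ≤ -2 := by
    by_contra hc
    push Not at hc
    have h1 := hlim.eventually (gt_mem_nhds hc.1)
    have h2 := hlim.eventually (lt_mem_nhds hc.2)
    obtain ⟨k, hk1, hk2⟩ := (h1.and h2).exists
    simp only [Function.comp_apply] at hk1 hk2
    rcases good_range (hgood (φ k)) with h | h <;> linarith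
  obtain ⟨n, hn, hn1, hn2⟩ := good_of hyP hyr
  obtain ⟨ρ, hρ, hρ1, hρ2⟩ : ∃ ρ : ℝ, 0 < ρ ∧ (n : ℝ) < y - ρ ∧ y + ρ < n + 1 := by
    refine ⟨min (y - n) (n + 1 - y) / 2, ?_, ?_, ?_⟩
    · have : 0 < min (y - n) (n + 1 - y) := lt_min (by linarith) (by linarith)
      linarith
    · have := min_le_left (y - n) (n + 1 - y)
      linarith
    · have := min_le_right (y - n) (n + 1 - y)
      linarith
  have hzero : volume (Icc (y - ρ) (y + ρ) \ P) = 0 := by
    by_contra hne
    have hpos : 0 < volume (Icc (y - ρ) (y + ρ) \ P) := pos_iff_ne_zero.2 hne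
    have hfin : volume (Icc (y - ρ) (y + ρ) \ P) ≠ ⊤ :=
      ((measure_mono sdiff_subset).trans_lt (by rw [Real.volume_Icc]; exact ENNReal.ofReal_lt_top)).ne
    set v := (volume (Icc (y - ρ) (y + ρ) \ P)).toReal with hv
    have hv0 : 0 < v := ENNReal.toReal_pos hne hfin
    obtain ⟨k₀, hk₀⟩ := density (E := P) (E' := P) (j := 0) (fun k _ z hz => P_forward k hz) hd
      (R := |L (y + ρ) - L (y - ρ)|) (η := v / (4 * ρ)) (by positivity)
    have h1 := hlim.eventually (Metric.ball_mem_nhds y hρ)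
    have h2 := hφ.tendsto_atTop.eventually (eventually_ge_atTop k₀)
    obtain ⟨k, hk1, hk2⟩ := (h1.and h2).exists
    simp only [Function.comp_apply] at hk1
    rw [Real.dist_eq, abs_lt] at hk1
    have h3 := hk₀ (φ k) hk2 (fun i _ => hgood i) n (y - ρ) (y + ρ) hρ1 hρ2 (by linarith)
      (by linarith [hk1.1]) (by linarith [hk1.2]) le_rfl
    rw [← ENNReal.ofReal_toReal hfin, ← hv] at h3
    have h4 : 0 ≤ v / (4 * ρ) * (y + ρ - (y - ρ)) := by
      have : 0 ≤ y + ρ - (y - ρ) := by linarith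
      positivity
    have h5 := (ENNReal.ofReal_le_ofReal_iff h4).1 h3
    have h6 : v / (4 * ρ) * (y + ρ - (y - ρ)) = v / 2 := by field_simp; ring
    rw [h6] at h5
    linarith
  obtain ⟨z, hz, hzA⟩ := exists_mem_A (p := y - ρ / 2) (q := y + ρ / 2) (by linarith)
  have ho : IsOpen (Ioo (y - ρ) (y + ρ) ∩ A) := isOpen_Ioo.inter A_open
  have hpos := ho.measure_pos volume ⟨z, ⟨by linarith [hz.1], by linarith [hz.2]⟩, hzA⟩
  have hsub : Ioo (y - ρ) (y + ρ) ∩ A ⊆ Icc (y - ρ) (y + ρ) \ P := fun w hw =>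
    ⟨Ioo_subset_Icc_self hw.1, fun hc => hc hw.2⟩
  have := (measure_mono hsub).trans_eq hzero
  exact absurd hpos (not_lt.2 this)

end Pool.Agent.E8helper52.RL
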