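import Mathlib
import Pool.Agent.E8helper52.RL.Rec

/-!
The inverse image of a set under one branch of `F`, measured with little distortion.
-/

set_option autoImplicit false

open Real Set Filter Topology MeasureTheory

namespace Pool.Agent.E8helper52.RL

open Pool.Agent.H723R2.LSW (F T F_int F_cont)

/-- the smallest modulus of the points of `[n, n+1]` -/
noncomputable def sz (n : ℤ) : ℝ := min |(n : ℝ)| |(n : ℝ) + 1|

theorem sz_bounds {n : ℤ} {x : ℝ} (h1 : (n : ℝ) ≤ x) (h2 : x ≤ n + 1) :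
    sz n ≤ |x| ∧ |x| ≤ sz n + 1 := by
  unfold sz
  rcases le_or_gt 0 n with h | h
  · have h' : (0 : ℝ) ≤ n := by exact_mod_cast h
    rw [abs_of_nonneg h', abs_of_nonneg (by linarith : (0 : ℝ) ≤ n + 1),
      min_eq_left (by linarith), abs_of_nonneg (by linarith)]
    constructor <;> linarith
  · have h' : (n : ℝ) ≤ -1 := by
      have : n ≤ -1 := by omega
      exact_mod_cast this
    rw [abs_of_nonpos (by linarith : (n : ℝ) ≤ 0), abs_of_nonpos (by linarith : (n : ℝ) + 1 ≤ 0),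
      min_eq_right (by linarith), abs_of_nonpos (by linarith)]
    constructor <;> linarith

theorem sz_floor (y : ℝ) : |y| - 1 ≤ sz ⌊y⌋ ∧ sz ⌊y⌋ ≤ |y| := by
  have := sz_bounds (n := ⌊y⌋) (Int.floor_le y) (Int.lt_floor_add_one y).le
  constructor <;> linarith [this.1, this.2]

theorem nz_of_sz {n : ℤ} (h : 3 ≤ sz n) : nz n := by
  by_contra hc
  unfold nz at hc
  push Not at hc
  unfold sz at h
  have h1 : |(n : ℝ)| ≤ 2 := by
    have : |n| ≤ 2 := by rw [abs_le]; omega
    exact_mod_cast this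
  have := min_le_left |(n : ℝ)| |(n : ℝ) + 1|
  linarith

/-- the second derivative -/
noncomputable def ddF (x : ℝ) : ℝ :=
  cos (π * x) * π * hh x + sin (π * x) * (π / 2 + 2 * (cos (π * x) * π))

theorem hh_upper (x : ℝ) : |hh x| ≤ 1.6 * |x| + 3 := by
  have p2 := Real.pi_lt_d4
  norm_num at p2
  unfold hh
  refine (abs_add_le _ _).trans ?_
  rw [abs_mul, abs_mul, abs_of_pos (by positivity : (0 : ℝ) < π / 2), abs_two]
  have h1 : |x + 1 / 2| ≤ |x| + 1 / 2 := by
    refine (abs_add_le _ _).trans ?_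
    rw [abs_of_pos (by norm_num : (0 : ℝ) < 1 / 2)]
  have h2 := Real.abs_sin_le_one (π * x)
  have h3 := abs_nonneg x
  have h4 : π / 2 * |x + 1 / 2| ≤ 1.6 * (|x| + 1 / 2) := by
    apply mul_le_mul <;> first | linarith | positivity
  linarith

theorem hh_lower (x : ℝ) : 1.57 * |x| - 3 ≤ |hh x| := by
  have p1 := Real.pi_gt_d4
  have p2 := Real.pi_lt_d4
  norm_num at p1 p2
  unfold hh
  have h0 : |π / 2 * (x + 1 / 2)| - |2 * sin (π * x)| ≤ |π / 2 * (x + 1 / 2) + 2 * sin (π * x)| := by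
    have := abs_sub_abs_le_abs_sub (π / 2 * (x + 1 / 2)) (-(2 * sin (π * x)))
    rwa [abs_neg, sub_neg_eq_add] at this
  rw [abs_mul, abs_mul, abs_of_pos (by positivity : (0 : ℝ) < π / 2), abs_two] at h0
  have h1 : |x| - 1 / 2 ≤ |x + 1 / 2| := by
    have := abs_sub_abs_le_abs_sub x (-(1 / 2))
    rwa [abs_neg, sub_neg_eq_add, abs_of_pos (by norm_num : (0 : ℝ) < 1 / 2)] at this
  have h2 := Real.abs_sin_le_one (π * x)
  have h3 := abs_nonneg (x + 1 / 2)
  nlinarith

theorem ddF_upper {x s : ℝ} (hs : 25 ≤ s) (h : |x| ≤ s + 1) : |ddF x| ≤ 6 * s := by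
  have p2 := Real.pi_lt_d4
  norm_num at p2
  have hpi := Real.pi_pos
  unfold ddF
  refine (abs_add_le _ _).trans ?_
  have h1 := hh_upper x
  have c1 := Real.abs_cos_le_one (π * x)
  have c2 := Real.abs_sin_le_one (π * x)
  have e1 : |cos (π * x) * π * hh x| ≤ 1 * 3.1416 * (1.6 * |x| + 3) := by
    rw [abs_mul, abs_mul, abs_of_pos hpi]
    gcongr
    linarith
  have e2 : |sin (π * x) * (π / 2 + 2 * (cos (π * x) * π))| ≤ 1 * 7.9 := by
    rw [abs_mul]
    apply mul_le_mul c2 _ (abs_nonneg _) zero_le_one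
    obtain ⟨u, v⟩ := abs_le.1 c1
    rw [abs_le]
    constructor <;> nlinarith
  linarith

theorem dF_lower {x s : ℝ} (hs : 25 ≤ s) (h : s ≤ |x|) : s * |sin (π * x)| ≤ |dF x| := by
  unfold dF
  rw [abs_mul, mul_comm]
  apply mul_le_mul_of_nonneg_left _ (abs_nonneg _)
  have := hh_lower x
  linarith

theorem vol_preimage {f : ℝ → ℝ} {S : Set ℝ} {c : ℝ} (hc : 0 < c)
    (hf : ∀ y ∈ S, ∀ z ∈ S, c * |y - z| ≤ |f y - f z|) :
    volume S ≤ ENNReal.ofReal (1 / c) * volume (f '' S) := by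
  classical
  have hinj : InjOn f S := by
    intro y hy z hz h
    have := hf y hy z hz
    rw [h, sub_self, abs_zero] at this
    have h2 : |y - z| ≤ 0 := by
      by_contra hcon
      push Not at hcon
      nlinarith
    have := abs_eq_zero.1 (le_antisymm h2 (abs_nonneg _))
    linarith
  rcases S.eq_empty_or_nonempty with rfl | hne
  · simp
  have e : Function.invFunOn f S '' (f '' S) = S := by
    rw [← image_comp]
    have : EqOn (Function.invFunOn f S ∘ f) id S := fun y hy => hinj.leftInvOn_invFunOn hy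
    rw [this.image_eq, image_id]
  have key : ∀ y ∈ f '' S, ∀ z ∈ f '' S,
      |Function.invFunOn f S y - Function.invFunOn f S z| ≤ 1 / c * |y - z| := by
    rintro _ ⟨y, hy, rfl⟩ _ ⟨z, hz, rfl⟩
    have h1 : Function.invFunOn f S (f y) = y := hinj.leftInvOn_invFunOn hy
    have h2 : Function.invFunOn f S (f z) = z := hinj.leftInvOn_invFunOn hz
    rw [h1, h2, one_div, inv_mul_eq_div, le_div_iff₀ hc, mul_comm]
    exact hf y hy z hz
  have := vol_image key (by positivity)
  rwa [e] at this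

/-- mean value theorem with the derivative of `F` -/
theorem F_mvt {y z : ℝ} (h : y < z) : ∃ c ∈ Ioo y z, F z - F y = dF c * (z - y) := by
  obtain ⟨c, hc, e⟩ := exists_hasDerivAt_eq_slope F (fun x => sin (π * x) * hh x) h
    F_cont.continuousOn (fun x _ => F_deriv x)
  refine ⟨c, hc, ?_⟩
  unfold dF
  rw [e, div_mul_cancel₀ _ (by linarith : z - y ≠ 0)]

theorem dF_mvt {y z : ℝ} (h : y < z) : ∃ c ∈ Ioo y z, dF z - dF y = ddF c * (z - y) := by
  have hc : Continuous dF := by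
    rw [continuous_iff_continuousAt]
    exact fun x => (dF_deriv x).continuousAt
  obtain ⟨c, hc, e⟩ := exists_hasDerivAt_eq_slope dF ddF h hc.continuousOn (fun x _ => dF_deriv x)
  exact ⟨c, hc, by rw [e, div_mul_cancel₀ _ (by linarith : z - y ≠ 0)]⟩

/-- the cell of a unit interval mapped into `[m, m+1)` -/
def Z (n m : ℤ) : Set ℝ := Ioo (n : ℝ) (n + 1) ∩ {x | ⌊F x⌋ = m}

section
variable {n m : ℤ} {σ x₀ : ℝ} (hs : 25 ≤ sz n) (hσ : 0 < σ) (hσN : 24 ≤ sz n * σ ^ 2)
  (hx₀ : x₀ ∈ Z n m) (hsin : σ ≤ |sin (π * x₀)|)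
include hs hσ hσN hx₀ hsin

/-- distortion at scale `2 / (s σ)` around `x₀` -/
theorem near_x0 {c : ℝ} (hc : c ∈ Icc (n : ℝ) (n + 1)) (h : |c - x₀| ≤ 2 / (sz n * σ)) :
    |dF c - dF x₀| ≤ 12 / (sz n * σ ^ 2) * |dF x₀| := by
  have hs0 : 0 < sz n := by linarith
  have key : |dF c - dF x₀| ≤ 6 * sz n * |c - x₀| := by
    have hx : x₀ ∈ Icc (n : ℝ) (n + 1) := Ioo_subset_Icc_self hx₀.1
    have aux : ∀ y z : ℝ, y ∈ Icc (n : ℝ) (n + 1) → z ∈ Icc (n : ℝ) (n + 1) → y < z →
        |dF z - dF y| ≤ 6 * sz n * |z - y| := by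
      intro y z hy hz hyz
      obtain ⟨w, hw, e⟩ := dF_mvt hyz
      rw [e, abs_mul]
      apply mul_le_mul_of_nonneg_right _ (abs_nonneg _)
      exact ddF_upper hs (sz_bounds (hy.1.trans hw.1.le) (hw.2.le.trans hz.2)).2
    rcases lt_trichotomy c x₀ with h | h | h
    · have := aux c x₀ hc hx h
      rwa [abs_sub_comm, abs_sub_comm x₀] at this
    · rw [h]; simp
    · exact aux x₀ c hx hc h
  have hW : sz n * σ ≤ |dF x₀| := by
    refine le_trans ?_ (dF_lower hs (sz_bounds hx₀.1.1.le hx₀.1.2.le).1)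
    gcongr
  calc |dF c - dF x₀| ≤ 6 * sz n * (2 / (sz n * σ)) := key.trans (by gcongr)
    _ = 12 / (sz n * σ ^ 2) * (sz n * σ) := by field_simp; norm_num
    _ ≤ _ := by gcongr

theorem Z_small {p : ℝ} (hp : p ∈ Z n m) : |p - x₀| ≤ 2 / (sz n * σ) := by
  have hs0 : 0 < sz n := by linarith
  set t := 2 / (sz n * σ) with ht
  have ht0 : 0 < t := by positivity
  have hθ : 12 / (sz n * σ ^ 2) ≤ 1 / 2 := by
    rw [div_le_div_iff₀ (by positivity) (by norm_num)]
    linarith
  have hW : sz n * σ ≤ |dF x₀| := by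
    refine le_trans ?_ (dF_lower hs (sz_bounds hx₀.1.1.le hx₀.1.2.le).1)
    gcongr
  by_contra hcon
  push Not at hcon
  have hfl : |F p - F x₀| < 1 := by
    have h1 := Int.floor_le (F p)
    have h2 := Int.lt_floor_add_one (F p)
    have h3 := Int.floor_le (F x₀)
    have h4 := Int.lt_floor_add_one (F x₀)
    have e1 : ⌊F p⌋ = m := hp.2
    have e2 : ⌊F x₀⌋ = m := hx₀.2
    rw [e1] at h1 h2
    rw [e2] at h3 h4
    rw [abs_lt]
    constructor <;> linarith
  have hmono := F_strict (nz_of_sz (n := n) (by linarith))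
  -- a point at distance exactly `t`
  have main : ∀ p' : ℝ, p' ∈ Icc (n : ℝ) (n + 1) → |p' - x₀| = t → 1 ≤ |F p' - F x₀| := by
    intro p' hp' he
    have aux : ∀ y z : ℝ, y < z → (∀ c ∈ Ioo y z, sz n * σ / 2 ≤ |dF c|) → |z - y| = t →
        1 ≤ |F z - F y| := by
      intro y z hyz hc hyt
      obtain ⟨c, hc', e⟩ := F_mvt hyz
      rw [e, abs_mul, hyt]
      calc (1 : ℝ) = sz n * σ / 2 * t := by rw [ht]; field_simp
        _ ≤ |dF c| * t := by
          have := hc c hc'
          gcongr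
    have hder : ∀ c : ℝ, c ∈ Icc (n : ℝ) (n + 1) → |c - x₀| ≤ t → sz n * σ / 2 ≤ |dF c| := by
      intro c hc hct
      have h1 := near_x0 hs hσ hσN hx₀ hsin hc hct
      have h2 : 12 / (sz n * σ ^ 2) * |dF x₀| ≤ 1 / 2 * |dF x₀| := by gcongr
      have h3 := abs_sub_abs_le_abs_sub (dF x₀) (dF c)
      rw [abs_sub_comm] at h3
      linarith
    have hx : x₀ ∈ Icc (n : ℝ) (n + 1) := Ioo_subset_Icc_self hx₀.1
    rcases lt_trichotomy p' x₀ with h | h | h
    · have := aux p' x₀ h (fun c hc => hder c ⟨hp'.1.trans hc.1.le, hc.2.le.trans hx.2⟩ (by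
        rw [abs_of_neg (by linarith : p' - x₀ < 0)] at he
        rw [abs_of_neg (by linarith [hc.2] : c - x₀ < 0)]
        linarith [hc.1])) (by rw [abs_sub_comm]; exact he)
      rwa [abs_sub_comm] at this
    · rw [h, sub_self, abs_zero] at he
      linarith
    · exact aux x₀ p' h (fun c hc => hder c ⟨hx.1.trans hc.1.le, hc.2.le.trans hp'.2⟩ (by
        rw [abs_of_pos (by linarith : 0 < p' - x₀)] at he
        rw [abs_of_pos (by linarith [hc.1] : 0 < c - x₀)]
        linarith [hc.2])) he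
  have hpI : p ∈ Icc (n : ℝ) (n + 1) := Ioo_subset_Icc_self hp.1
  have hxI : x₀ ∈ Icc (n : ℝ) (n + 1) := Ioo_subset_Icc_self hx₀.1
  rcases le_total x₀ p with h | h
  · rw [abs_of_nonneg (by linarith)] at hcon
    have hp' : x₀ + t ∈ Icc (n : ℝ) (n + 1) := ⟨by linarith [hxI.1], by linarith [hpI.2]⟩
    have h1 := main (x₀ + t) hp' (by rw [add_sub_cancel_left, abs_of_pos ht0])
    rcases hmono with hF | hF
    · have h2 := hF hxI hp' (by linarith)
      have h3 := hF hp' hpI (by linarith)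
      rw [abs_of_pos (by linarith)] at h1
      rw [abs_of_pos (by linarith)] at hfl
      linarith
    · have h2 := hF hxI hp' (by linarith)
      have h3 := hF hp' hpI (by linarith)
      rw [abs_of_neg (by linarith)] at h1
      rw [abs_of_neg (by linarith)] at hfl
      linarith
  · rw [abs_of_nonpos (by linarith)] at hcon
    have hp' : x₀ - t ∈ Icc (n : ℝ) (n + 1) := ⟨by linarith [hpI.1], by linarith [hxI.2]⟩
    have h1 := main (x₀ - t) hp' (by
      rw [sub_sub_cancel_left, abs_neg, abs_of_pos ht0])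
    rcases hmono with hF | hF
    · have h2 := hF hp' hxI (by linarith)
      have h3 := hF hpI hp' (by linarith)
      rw [abs_of_neg (by linarith)] at h1
      rw [abs_of_neg (by linarith)] at hfl
      linarith
    · have h2 := hF hp' hxI (by linarith)
      have h3 := hF hpI hp' (by linarith)
      rw [abs_of_pos (by linarith)] at h1
      rw [abs_of_pos (by linarith)] at hfl
      linarith

/-- bilipschitz bounds on the cell -/
theorem Z_bilip {y z : ℝ} (hy : y ∈ Z n m) (hz : z ∈ Z n m) :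
    (1 - 12 / (sz n * σ ^ 2)) * |dF x₀| * |y - z| ≤ |F y - F z| ∧
    |F y - F z| ≤ (1 + 12 / (sz n * σ ^ 2)) * |dF x₀| * |y - z| := by
  have key : ∀ y z : ℝ, y ∈ Z n m → z ∈ Z n m → y < z →
      (1 - 12 / (sz n * σ ^ 2)) * |dF x₀| * |y - z| ≤ |F y - F z| ∧
      |F y - F z| ≤ (1 + 12 / (sz n * σ ^ 2)) * |dF x₀| * |y - z| := by
    intro y z hy hz hyz
    obtain ⟨c, hc, e⟩ := F_mvt hyz
    have hcI : c ∈ Icc (n : ℝ) (n + 1) := ⟨hy.1.1.le.trans hc.1.le, hc.2.le.trans hz.1.2.le⟩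
    have hct : |c - x₀| ≤ 2 / (sz n * σ) := by
      have h1 := abs_le.1 (Z_small hs hσ hσN hx₀ hsin hy)
      have h2 := abs_le.1 (Z_small hs hσ hσN hx₀ hsin hz)
      rw [abs_le]
      constructor <;> linarith [hc.1, hc.2, h1.1, h1.2, h2.1, h2.2]
    have h1 := near_x0 hs hσ hσN hx₀ hsin hcI hct
    have h2 := abs_sub_abs_le_abs_sub (dF x₀) (dF c)
    have h3 := abs_sub_abs_le_abs_sub (dF c) (dF x₀)
    rw [abs_sub_comm] at h2
    have e2 : |F y - F z| = |dF c| * |y - z| := by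
      rw [abs_sub_comm, e, abs_mul, abs_sub_comm z y]
    rw [e2]
    constructor
    · apply mul_le_mul_of_nonneg_right _ (abs_nonneg _)
      linarith
    · apply mul_le_mul_of_nonneg_right _ (abs_nonneg _)
      linarith
  rcases lt_trichotomy y z with h | h | h
  · exact key y z hy hz h
  · rw [h]; simp
  · have := key z y hz hy h
    rwa [abs_sub_comm z y, abs_sub_comm (F z)] at this

theorem Z_onto : Ioo (m : ℝ) (m + 1) ⊆ F '' Z n m := by
  intro y hy
  have hxI : x₀ ∈ Ioo (n : ℝ) (n + 1) := hx₀.1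
  have hfl : ⌊F x₀⌋ = m := hx₀.2
  have hn : nz n := nz_of_sz (by linarith)
  have hnm : (n : ℝ) ∈ Icc (n : ℝ) (n + 1) := ⟨le_rfl, by linarith⟩
  have hnm' : (n : ℝ) + 1 ∈ Icc (n : ℝ) (n + 1) := ⟨by linarith, le_rfl⟩
  have hxm : x₀ ∈ Icc (n : ℝ) (n + 1) := Ioo_subset_Icc_self hxI
  have e0 : F n = T n := F_int n
  have e1 : F ((n : ℝ) + 1) = T (n + 1) := by
    have := F_int (n + 1)
    push_cast at this
    exact this
  have m1 : (m : ℝ) ≤ F x₀ := by rw [← hfl]; exact Int.floor_le _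
  have m2 : F x₀ < m + 1 := by rw [← hfl]; exact Int.lt_floor_add_one _
  have hfy : ⌊y⌋ = m := by
    rw [Int.floor_eq_iff]
    exact ⟨hy.1.le, hy.2⟩
  rcases F_strict hn with hF | hF
  · have f1 : F n < F x₀ := hF hnm hxm hxI.1
    have f2 : F x₀ < F (n + 1) := hF hxm hnm' hxI.2
    have g1 : F n ≤ m := by
      rw [e0] at f1 ⊢
      have : T n < m + 1 := by
        have : (T n : ℝ) < m + 1 := by linarith
        exact_mod_cast this
      have : T n ≤ m := by omega
      exact_mod_cast this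
    have g2 : (m : ℝ) + 1 ≤ F (n + 1) := by
      rw [e1] at f2 ⊢
      have : m < T (n + 1) := by
        have : (m : ℝ) < T (n + 1) := by linarith
        exact_mod_cast this
      have : m + 1 ≤ T (n + 1) := by omega
      exact_mod_cast this
    obtain ⟨a, ha, hFa⟩ := intermediate_value_Ioo (by linarith : (n : ℝ) ≤ n + 1) (f := F)
      F_cont.continuousOn (show y ∈ Ioo (F n) (F (n + 1)) from
        ⟨by linarith [hy.1], by linarith [hy.2]⟩)
    exact ⟨a, ⟨ha, by rw [mem_ofPred_eq, hFa]; exact hfy⟩, hFa⟩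
  · have f1 : F x₀ < F n := hF hnm hxm hxI.1
    have f2 : F (n + 1) < F x₀ := hF hxm hnm' hxI.2
    have g1 : F (n + 1) ≤ m := by
      rw [e1] at f2 ⊢
      have : T (n + 1) < m + 1 := by
        have : (T (n + 1) : ℝ) < m + 1 := by linarith
        exact_mod_cast this
      have : T (n + 1) ≤ m := by omega
      exact_mod_cast this
    have g2 : (m : ℝ) + 1 ≤ F n := by
      rw [e0] at f1 ⊢
      have : m < T n := by
        have : (m : ℝ) < T n := by linarith
        exact_mod_cast this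
      have : m + 1 ≤ T n := by omega
      exact_mod_cast this
    obtain ⟨a, ha, hFa⟩ := intermediate_value_Ioo' (by linarith : (n : ℝ) ≤ n + 1) (f := F)
      F_cont.continuousOn (show y ∈ Ioo (F (n + 1)) (F n) from
        ⟨by linarith [hy.1], by linarith [hy.2]⟩)
    exact ⟨a, ⟨ha, by rw [mem_ofPred_eq, hFa]; exact hfy⟩, hFa⟩

/-- the measure of an inverse image in a good cell -/
theorem good_cell (E : Set ℝ) :
    volume (F ⁻¹' E ∩ Z n m) ≤ ENNReal.ofReal (1 + 48 / (sz n * σ ^ 2)) *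
      volume (E ∩ Icc (m : ℝ) (m + 1)) * volume (Z n m) := by
  have hs0 : 0 < sz n := by linarith
  have hW : sz n * σ ≤ |dF x₀| := by
    refine le_trans ?_ (dF_lower hs (sz_bounds hx₀.1.1.le hx₀.1.2.le).1)
    gcongr
  have hW0 : 0 < |dF x₀| := lt_of_lt_of_le (by positivity) hW
  set W := |dF x₀| with hWd
  set θ := 12 / (sz n * σ ^ 2) with hθd
  have hθ0 : 0 < θ := by positivity
  have hθ : θ ≤ 1 / 2 := by
    rw [hθd, div_le_div_iff₀ (by positivity) (by norm_num)]
    linarith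
  have hc0 : 0 < (1 - θ) * W := mul_pos (by linarith) hW0
  have h1 : volume (F ⁻¹' E ∩ Z n m) ≤ ENNReal.ofReal (1 / ((1 - θ) * W)) *
      volume (E ∩ Icc (m : ℝ) (m + 1)) := by
    refine (vol_preimage hc0 (f := F) (fun y hy z hz =>
      (Z_bilip hs hσ hσN hx₀ hsin hy.2 hz.2).1)).trans ?_
    gcongr
    rintro _ ⟨y, hy, rfl⟩
    refine ⟨hy.1, ?_⟩
    have e : ⌊F y⌋ = m := hy.2.2
    rw [← e]
    exact ⟨Int.floor_le _, (Int.lt_floor_add_one _).le⟩
  have h2 : 1 ≤ ENNReal.ofReal ((1 + θ) * W) * volume (Z n m) := by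
    have h3 := vol_image (f := F) (S := Z n m) (l := (1 + θ) * W)
      (fun y hy z hz => (Z_bilip hs hσ hσN hx₀ hsin hy hz).2) (by positivity)
    refine le_trans ?_ h3
    have h4 := measure_mono (μ := volume) (Z_onto hs hσ hσN hx₀ hsin)
    rw [Real.volume_Ioo] at h4
    refine le_trans ?_ h4
    rw [add_sub_cancel_left, ENNReal.ofReal_one]
  have h3 : 1 / ((1 - θ) * W) * ((1 + θ) * W) ≤ 1 + 48 / (sz n * σ ^ 2) := by
    have e : 48 / (sz n * σ ^ 2) = 4 * θ := by rw [hθd]; ring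
    rw [e]
    have : 1 / ((1 - θ) * W) * ((1 + θ) * W) = (1 + θ) / (1 - θ) := by
      field_simp
    rw [this, div_le_iff₀ (by linarith)]
    nlinarith
  calc volume (F ⁻¹' E ∩ Z n m)
      ≤ ENNReal.ofReal (1 / ((1 - θ) * W)) * volume (E ∩ Icc (m : ℝ) (m + 1)) * 1 := by
        rw [mul_one]; exact h1
    _ ≤ ENNReal.ofReal (1 / ((1 - θ) * W)) * volume (E ∩ Icc (m : ℝ) (m + 1)) *
        (ENNReal.ofReal ((1 + θ) * W) * volume (Z n m)) := by gcongr
    _ = (ENNReal.ofReal (1 / ((1 - θ) * W)) * ENNReal.ofReal ((1 + θ) * W)) *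
        volume (E ∩ Icc (m : ℝ) (m + 1)) * volume (Z n m) := by ring
    _ ≤ _ := by
        gcongr
        rw [← ENNReal.ofReal_mul (by positivity)]
        exact ENNReal.ofReal_le_ofReal h3

end

end Pool.Agent.E8helper52.RL
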