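import Mathlib
import Pool.Agent.E8helper52.RL.Cell

/-!
Negative drift of `log |x|`: points whose orbits stay far away from the origin are rare in every unit
interval.
-/

set_option autoImplicit false

open Real Set Filter Topology MeasureTheory

namespace Pool.Agent.E8helper52.RL

open Pool.Agent.H723R2.LSW (F T F_int F_cont)

/-- the main factor: `F x = x * ze x + O(1)` -/
noncomputable def ze (x : ℝ) : ℝ := 1 - cos (π * x) / 2

theorem ze_bounds (x : ℝ) : 1 / 2 ≤ ze x ∧ ze x ≤ 3 / 2 := by
  unfold ze
  have h1 := Real.neg_one_le_cos (π * x)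
  have h2 := Real.cos_le_one (π * x)
  constructor <;> linarith

theorem F_form (x : ℝ) : F x = x * ze x + ((1 - cos (π * x)) / 4 +
    1 / π * (1 / 2 - cos (π * x)) * sin (π * x)) := by
  unfold F ze
  ring

theorem F_near (x : ℝ) : |F x - x * ze x| ≤ 1 := by
  have hpi := Real.pi_gt_three
  rw [F_form, add_sub_cancel_left]
  refine (abs_add_le _ _).trans ?_
  have c1 := Real.neg_one_le_cos (π * x)
  have c2 := Real.cos_le_one (π * x)
  have s1 := Real.abs_sin_le_one (π * x)
  have a3 : |(1 - cos (π * x)) / 4| ≤ 1 / 2 := by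
    rw [abs_le]; constructor <;> linarith
  have a4 : |1 / π * (1 / 2 - cos (π * x)) * sin (π * x)| ≤ 1 / 2 := by
    rw [abs_mul, abs_mul]
    have b1 : |1 / π| ≤ 1 / 3 := by
      rw [abs_of_pos (by positivity)]
      apply one_div_le_one_div_of_le <;> linarith
    have b2 : |1 / 2 - cos (π * x)| ≤ 3 / 2 := by
      rw [abs_le]; constructor <;> linarith
    calc |1 / π| * |1 / 2 - cos (π * x)| * |sin (π * x)| ≤ 1 / 3 * (3 / 2) * 1 := by gcongr
      _ = 1 / 2 := by norm_num
  linarith

theorem F_upper {n : ℤ} {x : ℝ} (h1 : (n : ℝ) ≤ x) (h2 : x ≤ n + 1) :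
    |F x| ≤ (sz n + 3) * ze x ∧ (sz n - 2) * ze x ≤ |F x| := by
  have h := F_near x
  obtain ⟨a, b⟩ := sz_bounds h1 h2
  obtain ⟨z1, z2⟩ := ze_bounds x
  have e : |x * ze x| = |x| * ze x := by rw [abs_mul, abs_of_nonneg (by linarith : 0 ≤ ze x)]
  have h3 := abs_sub_abs_le_abs_sub (F x) (x * ze x)
  have h4 := abs_sub_abs_le_abs_sub (x * ze x) (F x)
  rw [abs_sub_comm] at h4
  rw [e] at h3 h4
  constructor <;> nlinarith

/-- the logarithm of the factor -/
noncomputable def xi (x : ℝ) : ℝ := log (ze x)

theorem xi_le (x : ℝ) : xi x ≤ -(cos (π * x) / 2) - cos (π * x) ^ 2 / 8 - cos (π * x) ^ 3 / 24 := by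
  have key : ∀ u : ℝ, -1 < u → log (1 + u) ≤ u - u ^ 2 / 2 + u ^ 3 / 3 := by
    intro u hu
    have hd : ∀ v : ℝ, -1 < v → HasDerivAt (fun v => v - v ^ 2 / 2 + v ^ 3 / 3 - log (1 + v))
        (v ^ 3 / (1 + v)) v := by
      intro v hv
      have h1 : HasDerivAt (fun v : ℝ => log (1 + v)) (1 / (1 + v)) v :=
        ((hasDerivAt_id v).const_add 1).log (by simp only [id_eq]; linarith)
      have h2 := (((hasDerivAt_id v).sub (((hasDerivAt_id v).pow 2).div_const 2)).add
        (((hasDerivAt_id v).pow 3).div_const 3)).sub h1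
      refine h2.congr_deriv ?_
      have : (1 + v) ≠ 0 := by linarith
      simp only [id_eq]
      field_simp
      ring
    rcases le_total 0 u with h | h
    · have hm : MonotoneOn (fun v => v - v ^ 2 / 2 + v ^ 3 / 3 - log (1 + v)) (Icc 0 u) := by
        apply monotoneOn_of_deriv_nonneg (convex_Icc _ _)
        · exact fun v hv => (hd v (by linarith [hv.1])).continuousAt.continuousWithinAt
        · exact fun v hv => (hd v (by
            rw [interior_Icc] at hv; linarith [hv.1])).differentiableAt.differentiableWithinAt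
        · intro v hv
          rw [interior_Icc] at hv
          rw [(hd v (by linarith [hv.1])).deriv]
          have := hv.1
          positivity
      have := hm (left_mem_Icc.2 h) (right_mem_Icc.2 h) h
      simp at this
      linarith
    · have hm : AntitoneOn (fun v => v - v ^ 2 / 2 + v ^ 3 / 3 - log (1 + v)) (Icc u 0) := by
        apply antitoneOn_of_deriv_nonpos (convex_Icc _ _)
        · exact fun v hv => (hd v (by linarith [hv.1])).continuousAt.continuousWithinAt
        · exact fun v hv => (hd v (by
            rw [interior_Icc] at hv; linarith [hv.1])).differentiableAt.differentiableWithinAt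
        · intro v hv
          rw [interior_Icc] at hv
          rw [(hd v (by linarith [hv.1])).deriv]
          apply div_nonpos_of_nonpos_of_nonneg
          · have := hv.2
            nlinarith [sq_nonneg v, mul_nonneg (neg_nonneg.2 this.le) (sq_nonneg v)]
          · linarith [hv.1]
      have := hm (left_mem_Icc.2 h) (right_mem_Icc.2 h) h
      simp at this
      linarith
  have h := key (-(cos (π * x) / 2)) (by linarith [Real.cos_le_one (π * x)])
  unfold xi ze
  rw [sub_eq_add_neg]
  refine h.trans (le_of_eq ?_)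
  ring

theorem xi_cont : Continuous xi := by
  unfold xi ze
  refine Continuous.log (by fun_prop) fun x => ?_
  have := Real.cos_le_one (π * x)
  linarith

/-- the drift -/
theorem xi_integral (n : ℤ) : ∫ x in (n : ℝ)..(n + 1), xi x ≤ -(1 / 16) := by
  have hle : ∫ x in (n : ℝ)..(n + 1), xi x ≤ ∫ x in (n : ℝ)..(n + 1),
      (-(cos (π * x) / 2) - cos (π * x) ^ 2 / 8 - cos (π * x) ^ 3 / 24) := by
    apply intervalIntegral.integral_mono_on (by linarith)
    · exact xi_cont.intervalIntegrable _ _
    · apply Continuous.intervalIntegrable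
      fun_prop
    · exact fun x _ => xi_le x
  refine hle.trans (le_of_eq ?_)
  have hpi0 : π ≠ 0 := Real.pi_ne_zero
  have hd : ∀ x : ℝ, HasDerivAt (fun x => -(sin (π * x) / (2 * π)) -
      (x / 2 + sin (π * x) * cos (π * x) / (2 * π)) / 8 -
      (sin (π * x) - sin (π * x) ^ 3 / 3) / (24 * π))
      (-(cos (π * x) / 2) - cos (π * x) ^ 2 / 8 - cos (π * x) ^ 3 / 24) x := by
    intro x
    have hpi : HasDerivAt (fun z : ℝ => π * z) π x := by
      simpa using (hasDerivAt_id x).const_mul π
    have hc : HasDerivAt (fun z : ℝ => cos (π * z)) (-sin (π * x) * π) x :=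
      (Real.hasDerivAt_cos _).comp x hpi
    have hs : HasDerivAt (fun z : ℝ => sin (π * z)) (cos (π * x) * π) x :=
      (Real.hasDerivAt_sin _).comp x hpi
    have h1 := (hs.div_const (2 * π)).neg
    have h2 := (((hasDerivAt_id x).div_const 2).add ((hs.mul hc).div_const (2 * π))).div_const 8
    have h3 := (hs.sub ((hs.pow 3).div_const 3)).div_const (24 * π)
    refine ((h1.sub h2).sub h3).congr_deriv ?_
    have e := sin_sq_add_cos_sq (π * x)
    push_cast
    field_simp
    have e2 : sin (π * x) ^ 2 = 1 - cos (π * x) ^ 2 := by linarith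
    rw [e2]
    ring
  rw [intervalIntegral.integral_eq_sub_of_hasDerivAt (fun x _ => hd x)
    (by apply Continuous.intervalIntegrable; fun_prop)]
  have s0 : sin (π * (n : ℝ)) = 0 := sin_pi_int n
  have s1 : sin (π * ((n : ℝ) + 1)) = 0 := by
    have := sin_pi_int (n + 1)
    push_cast at this
    exact this
  simp only [s0, s1]
  ring

end Pool.Agent.E8helper52.RL
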