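import Mathlib
import Pool.Agent.E8helper52.RL.Drift

/-!
The one step inequality for the density of a forward invariant set in the unit intervals.
-/

set_option autoImplicit false

open Real Set Filter Topology MeasureTheory

namespace Pool.Agent.E8helper52.RL

open Pool.Agent.H723R2.LSW (F T F_int F_cont)

/-- large sizes -/
structure Big (s : ℝ) : Prop where
  h1 : 384 ≤ s
  h2 : 64 ≤ log (s + 3)
  h3 : 3072 * log (s + 3) ^ 8 ≤ s

theorem exists_big : ∃ M : ℝ, 384 ≤ M ∧ ∀ s, M ≤ s → Big s := by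
  have h1 : ∀ᶠ x : ℝ in atTop, ‖log x ^ 8‖ ≤ 1 / 6144 * ‖id x‖ :=
    (Real.isLittleO_pow_log_id_atTop (n := 8)).def (by norm_num)
  have h2 : ∀ᶠ x : ℝ in atTop, 64 ≤ log x := Real.tendsto_log_atTop.eventually_ge_atTop 64
  obtain ⟨M, hM⟩ := (h1.and h2).exists_forall_of_atTop
  refine ⟨max M 384, le_max_right _ _, fun s hs => ?_⟩
  have hs1 : M ≤ s := (le_max_left _ _).trans hs
  have hs2 : 384 ≤ s := (le_max_right _ _).trans hs
  obtain ⟨a, b⟩ := hM (s + 3) (by linarith)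
  refine ⟨hs2, b, ?_⟩
  rw [id, Real.norm_of_nonneg (by linarith : (0 : ℝ) ≤ s + 3), Real.norm_eq_abs] at a
  have := (le_abs_self _).trans a
  linarith

/-- the barrier -/
noncomputable def H (ε l₀ y : ℝ) : ℝ := ε * log y + (1 / l₀ - 1 / log y)

theorem H_mono {ε l₀ y z : ℝ} (hε : 0 ≤ ε) (hy : 1 < y) (hyz : y ≤ z) : H ε l₀ y ≤ H ε l₀ z := by
  unfold H
  have h1 : log y ≤ log z := Real.log_le_log (by linarith) hyz
  have h2 : 0 < log y := Real.log_pos hy
  have h3 : 1 / log z ≤ 1 / log y := one_div_le_one_div_of_le h2 h1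
  have h4 : ε * log y ≤ ε * log z := mul_le_mul_of_nonneg_left h1 hε
  linarith

theorem H_nonneg {ε l₀ y y₀ : ℝ} (hε : 0 ≤ ε) (hl : l₀ = log y₀) (hy0 : 1 < y₀) (hy : y₀ ≤ y) :
    0 ≤ H ε l₀ y := by
  have h := H_mono (l₀ := l₀) hε hy0 hy
  have h2 : 0 ≤ H ε l₀ y₀ := by
    unfold H
    rw [hl, sub_self, add_zero]
    exact mul_nonneg hε (Real.log_pos hy0).le
  linarith

theorem Z_meas (n m : ℤ) : MeasurableSet (Z n m) := by
  refine measurableSet_Ioo.inter ?_
  have : Measurable fun x => ⌊F x⌋ := Int.measurable_floor.comp F_cont.measurable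
  exact this (measurableSet_singleton m)

theorem Z_union (n : ℤ) : ⋃ m : ℤ, Z n m = Ioo (n : ℝ) (n + 1) := by
  ext x
  simp [Z]

theorem Z_disj (n : ℤ) : Pairwise (Function.onFun Disjoint (Z n)) := by
  intro m m' hmm
  rw [Function.onFun, Set.disjoint_left]
  rintro x ⟨-, hx⟩ ⟨-, hx'⟩
  exact hmm ((show ⌊F x⌋ = m from hx).symm.trans hx')

/-- the bad set, where `F'` is small -/
def bad (σ : ℝ) : Set ℝ := {x | |sin (π * x)| < σ}

theorem bad_meas (σ : ℝ) : MeasurableSet (bad σ) :=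
  measurableSet_lt (by fun_prop) measurable_const

theorem bad_vol (n : ℤ) {σ : ℝ} (hσ : 0 < σ) :
    volume (bad σ ∩ Ioo (n : ℝ) (n + 1)) ≤ ENNReal.ofReal σ := by
  have hpi := Real.pi_pos
  have hsub : bad σ ∩ Ioo (n : ℝ) (n + 1) ⊆
      Ioo (n : ℝ) (n + σ / 2) ∪ Ioo ((n : ℝ) + 1 - σ / 2) (n + 1) := by
    rintro x ⟨hx, h1, h2⟩
    have hx' : |sin (π * x)| < σ := hx
    by_contra hc
    rw [mem_union, not_or, mem_Ioo, mem_Ioo, not_and, not_and] at hc
    have c1 := hc.1 h1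
    have c2 : ¬ (n : ℝ) + 1 - σ / 2 < x := fun h => hc.2 h h2
    push Not at c1 c2
    have e : |sin (π * x)| = |sin (π * (x - n))| := by
      have := sin_sq_local n (x - n)
      rw [add_sub_cancel] at this
      exact sq_eq_sq_iff_abs_eq_abs _ _ |>.1 this
    rw [e] at hx'
    rcases le_total (x - n) (1 / 2) with h | h
    · have h3 : 2 / π * |π * (x - n)| ≤ |sin (π * (x - n))| := by
        apply Real.mul_abs_le_abs_sin
        rw [abs_mul, abs_of_pos hpi, abs_of_nonneg (by linarith)]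
        nlinarith
      rw [abs_mul, abs_of_pos hpi, abs_of_nonneg (by linarith : 0 ≤ x - n)] at h3
      have h4 : 2 / π * (π * (x - n)) = 2 * (x - n) := by field_simp
      linarith
    · have e2 : |sin (π * (x - n))| = |sin (π * (n + 1 - x))| := by
        rw [show π * (x - n) = π - π * (n + 1 - x) by ring, Real.sin_pi_sub]
      rw [e2] at hx'
      have h3 : 2 / π * |π * (n + 1 - x)| ≤ |sin (π * (n + 1 - x))| := by
        apply Real.mul_abs_le_abs_sin
        rw [abs_mul, abs_of_pos hpi, abs_of_nonneg (by linarith)]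
        nlinarith
      rw [abs_mul, abs_of_pos hpi, abs_of_nonneg (by linarith : 0 ≤ n + 1 - x)] at h3
      have h4 : 2 / π * (π * (n + 1 - x)) = 2 * (n + 1 - x) := by field_simp
      linarith
  refine (measure_mono hsub).trans ((measure_union_le _ _).trans ?_)
  rw [Real.volume_Ioo, Real.volume_Ioo, ← ENNReal.ofReal_add (by linarith) (by linarith)]
  apply ENNReal.ofReal_le_ofReal
  linarith

section
variable {E : Set ℝ} {n : ℤ} {S ε l₀ y₀ σ : ℝ}

/-- the contribution of one cell -/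
theorem cell_bound (hs : 25 ≤ sz n) (hσ : 0 < σ) (hσN : 24 ≤ sz n * σ ^ 2)
    {g : ℤ → ℝ} (hg0 : ∀ m, 0 ≤ g m) (hg1 : ∀ m, g m ≤ 1) (m : ℤ)
    (hg : (Z n m).Nonempty → volume (E ∩ Icc (m : ℝ) (m + 1)) ≤ ENNReal.ofReal (g m)) :
    volume (F ⁻¹' E ∩ Z n m) ≤ ∫⁻ x in Z n m,
      (ENNReal.ofReal (g ⌊F x⌋ + 48 / (sz n * σ ^ 2)) + (bad σ).indicator 1 x) := by
  by_cases h : ∃ x₀ ∈ Z n m, σ ≤ |sin (π * x₀)|
  · obtain ⟨x₀, hx₀, hsin⟩ := h
    have h1 := good_cell hs hσ hσN hx₀ hsin E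
    have hη : 0 ≤ 48 / (sz n * σ ^ 2) := by
      have : 0 < sz n := by linarith
      positivity
    have h2 : ENNReal.ofReal (1 + 48 / (sz n * σ ^ 2)) * volume (E ∩ Icc (m : ℝ) (m + 1)) ≤
        ENNReal.ofReal (g m + 48 / (sz n * σ ^ 2)) := by
      calc _ ≤ ENNReal.ofReal (1 + 48 / (sz n * σ ^ 2)) * ENNReal.ofReal (g m) := by
            gcongr
            exact hg ⟨x₀, hx₀⟩
        _ = ENNReal.ofReal ((1 + 48 / (sz n * σ ^ 2)) * g m) :=
            (ENNReal.ofReal_mul (by linarith)).symm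
        _ ≤ _ := by
            apply ENNReal.ofReal_le_ofReal
            have a := hg0 m
            have b := hg1 m
            nlinarith
    calc volume (F ⁻¹' E ∩ Z n m)
        ≤ ENNReal.ofReal (g m + 48 / (sz n * σ ^ 2)) * volume (Z n m) := by
          refine h1.trans ?_
          gcongr
      _ = ∫⁻ _ in Z n m, ENNReal.ofReal (g m + 48 / (sz n * σ ^ 2)) := by
          rw [setLIntegral_const]
      _ ≤ _ := by
          apply setLIntegral_mono' (Z_meas n m)
          intro x hx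
          have : ⌊F x⌋ = m := hx.2
          rw [this]
          exact le_self_add
  · push Not at h
    calc volume (F ⁻¹' E ∩ Z n m) ≤ volume (Z n m) := measure_mono inter_subset_right
      _ = ∫⁻ _ in Z n m, 1 := by rw [setLIntegral_one]
      _ ≤ _ := by
          apply setLIntegral_mono' (Z_meas n m)
          intro x hx
          have hb : x ∈ bad σ := h x hx
          rw [indicator_of_mem hb, Pi.one_apply]
          exact le_add_self

/-- the sum over the cells -/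
theorem unit_bound (hs : 25 ≤ sz n) (hσ : 0 < σ) (hσN : 24 ≤ sz n * σ ^ 2)
    {g : ℤ → ℝ} (hg0 : ∀ m, 0 ≤ g m) (hg1 : ∀ m, g m ≤ 1)
    (hg : ∀ m, (Z n m).Nonempty → volume (E ∩ Icc (m : ℝ) (m + 1)) ≤ ENNReal.ofReal (g m)) :
    volume (F ⁻¹' E ∩ Ioo (n : ℝ) (n + 1)) ≤
      (∫⁻ x in Ioo (n : ℝ) (n + 1), ENNReal.ofReal (g ⌊F x⌋ + 48 / (sz n * σ ^ 2))) +
        ENNReal.ofReal σ := by
  have h1 : F ⁻¹' E ∩ Ioo (n : ℝ) (n + 1) = ⋃ m : ℤ, F ⁻¹' E ∩ Z n m := by
    rw [← Z_union, inter_iUnion]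
  rw [h1]
  have hmeas : Measurable fun x => ENNReal.ofReal (g ⌊F x⌋ + 48 / (sz n * σ ^ 2)) := by
    apply ENNReal.measurable_ofReal.comp
    refine Measurable.add ?_ measurable_const
    have h2 : Measurable fun x => ⌊F x⌋ := Int.measurable_floor.comp F_cont.measurable
    exact (measurable_from_top (f := g)).comp h2
  calc volume (⋃ m : ℤ, F ⁻¹' E ∩ Z n m) ≤ ∑' m : ℤ, volume (F ⁻¹' E ∩ Z n m) :=
        measure_iUnion_le _
    _ ≤ ∑' m : ℤ, ∫⁻ x in Z n m,
        (ENNReal.ofReal (g ⌊F x⌋ + 48 / (sz n * σ ^ 2)) + (bad σ).indicator 1 x) :=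
        ENNReal.tsum_le_tsum fun m => cell_bound hs hσ hσN hg0 hg1 m (hg m)
    _ = ∫⁻ x in Ioo (n : ℝ) (n + 1),
        (ENNReal.ofReal (g ⌊F x⌋ + 48 / (sz n * σ ^ 2)) + (bad σ).indicator 1 x) := by
        rw [← Z_union, lintegral_iUnion (Z_meas n) (Z_disj n)]
    _ = (∫⁻ x in Ioo (n : ℝ) (n + 1), ENNReal.ofReal (g ⌊F x⌋ + 48 / (sz n * σ ^ 2))) +
        ∫⁻ x in Ioo (n : ℝ) (n + 1), (bad σ).indicator 1 x := lintegral_add_left hmeas _
    _ ≤ _ := by
        gcongr
        rw [lintegral_indicator_one (bad_meas σ), Measure.restrict_apply (bad_meas σ)]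
        exact bad_vol n hσ

/-- the pointwise bound for the barrier -/
theorem H_point (hs : Big (sz n)) (hε : 0 ≤ ε) {x : ℝ} (h1 : (n : ℝ) ≤ x) (h2 : x ≤ n + 1) :
    H ε l₀ |F x| ≤ ε * (log (sz n + 3) + xi x) +
      (1 / l₀ - 1 / log (sz n + 3) + xi x / log (sz n + 3) ^ 2) := by
  obtain ⟨a, b⟩ := F_upper h1 h2
  obtain ⟨z1, z2⟩ := ze_bounds x
  have hsz := hs.h1
  have hbig := hs.h2
  have hpos : 1 < |F x| := by nlinarith
  have hm := H_mono (l₀ := l₀) hε hpos a
  refine hm.trans ?_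
  have hlog : log ((sz n + 3) * ze x) = log (sz n + 3) + xi x := by
    unfold xi
    rw [Real.log_mul (by linarith) (by linarith)]
  unfold H
  rw [hlog]
  have hxi : -1 ≤ xi x := by
    unfold xi
    have : log (1 / 2) ≤ log (ze x) := Real.log_le_log (by norm_num) z1
    have h3 : log (1 / 2) = -log 2 := by rw [one_div, Real.log_inv]
    have h4 := Real.log_two_lt_d9
    linarith
  set l := log (sz n + 3) with hl
  have hl0 : 0 < l := by linarith
  have hlx : 0 < l + xi x := by linarith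
  have key : 1 / l - xi x / l ^ 2 ≤ 1 / (l + xi x) := by
    rw [div_sub_div _ _ hl0.ne' (by positivity), div_le_div_iff₀ (by positivity) hlx]
    nlinarith [mul_nonneg hl0.le (sq_nonneg (xi x)), sq_nonneg l]
  linarith

end

end Pool.Agent.E8helper52.RL
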