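import Mathlib
import Pool.Agent.E8helper52.RL.Step

/-!
Points whose whole orbit is far away from the origin fill at most a quarter of any unit interval.
-/

set_option autoImplicit false

open Real Set Filter Topology MeasureTheory

namespace Pool.Agent.E8helper52.RL

open Pool.Agent.H723R2.LSW (F T F_int F_cont)

theorem numeric {s ε : ℝ} (hs : Big s) (hε : 0 ≤ ε) :
    24 ≤ s * (1 / log (s + 3) ^ 3) ^ 2 ∧
    ε * (log (s + 3) - log s - 1 / 32) + (1 / log s - 1 / log (s + 3)) +
      48 / (s * (1 / log (s + 3) ^ 3) ^ 2) + 1 / log (s + 3) ^ 3 -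
      1 / (16 * log (s + 3) ^ 2) ≤ 0 := by
  obtain ⟨h1, h2, h3⟩ := hs
  set l := log (s + 3) with hl
  have hs0 : 0 < s := by linarith
  have hl0 : 0 < l := by linarith
  have hl8 : l ^ 8 = l ^ 6 * l ^ 2 := by ring
  have hl6 : 0 < l ^ 6 := by positivity
  have hl2 : 0 < l ^ 2 := by positivity
  have e0 : s * (1 / l ^ 3) ^ 2 = s / l ^ 6 := by
    rw [div_pow, one_pow, ← pow_mul, mul_one_div]
  have hll : l - log s ≤ 3 / s ∧ 0 ≤ l - log s := by
    have h4 : l - log s = log (1 + 3 / s) := by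
      rw [hl, ← Real.log_div (by linarith) hs0.ne']
      congr 1
      field_simp
    rw [h4]
    constructor
    · have := Real.log_le_sub_one_of_pos (show 0 < 1 + 3 / s by positivity)
      linarith
    · exact Real.log_nonneg (by
        have : 0 ≤ 3 / s := by positivity
        linarith)
  have h3s : 3 / s ≤ 1 / 128 := by
    rw [div_le_div_iff₀ hs0 (by norm_num)]; linarith
  have hls : l / 2 ≤ log s := by linarith
  have hls0 : 0 < log s := by linarith
  refine ⟨?_, ?_⟩
  · rw [e0, le_div_iff₀ hl6]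
    have : 1 ≤ l ^ 2 := by nlinarith
    nlinarith [mul_le_mul_of_nonneg_left this hl6.le]
  · rw [e0]
    have a1 : ε * (l - log s - 1 / 32) ≤ 0 := mul_nonpos_of_nonneg_of_nonpos hε (by linarith)
    have a2 : 1 / log s - 1 / l ≤ 1 / 64 / l ^ 2 := by
      have e : 1 / log s - 1 / l = (l - log s) / (log s * l) := by
        field_simp
      rw [e]
      calc (l - log s) / (log s * l) ≤ (3 / s) / (l / 2 * l) := by
            gcongr
            exact hll.1
        _ = (6 / s) / l ^ 2 := by field_simp; norm_num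
        _ ≤ 1 / 64 / l ^ 2 := by
            apply div_le_div_of_nonneg_right _ hl2.le
            rw [div_le_div_iff₀ hs0 (by norm_num)]; linarith
    have a3 : 48 / (s / l ^ 6) ≤ 1 / 64 / l ^ 2 := by
      rw [div_div_eq_mul_div, div_le_div_iff₀ hs0 hl2]
      nlinarith
    have a4 : 1 / l ^ 3 ≤ 1 / 64 / l ^ 2 := by
      rw [div_div, div_le_div_iff₀ (by positivity) (by positivity)]
      have : l ^ 3 = l ^ 2 * l := by ring
      rw [this]
      nlinarith
    have a5 : 1 / (16 * l ^ 2) = 4 * (1 / 64 / l ^ 2) := by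
      field_simp; norm_num
    have a6 : 0 < 1 / 64 / l ^ 2 := by positivity
    rw [a5]
    linarith

theorem affine_integral (n : ℤ) (c₀ : ℝ) {c₁ : ℝ} (h : 0 ≤ c₁) :
    ∫ x in (n : ℝ)..(n + 1), (c₀ + c₁ * xi x) ≤ c₀ - c₁ / 16 := by
  have e := intervalIntegral.integral_add (μ := volume) (a := (n : ℝ)) (b := n + 1)
    (f := fun _ => c₀) (g := fun x => c₁ * xi x) (by simp)
    ((continuous_const.mul xi_cont).intervalIntegrable _ _)
  rw [e, intervalIntegral.integral_const_mul, intervalIntegral.integral_const]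
  have h3 := xi_integral n
  have h4 : c₁ * ∫ x in (n : ℝ)..(n + 1), xi x ≤ c₁ * -(1 / 16) :=
    mul_le_mul_of_nonneg_left h3 h
  rw [add_sub_cancel_left, one_smul]
  linarith

theorem one_step {E : Set ℝ} (hE : ∀ x ∈ E, F x ∈ E) {n : ℤ} (hs : Big (sz n)) {y₀ l₀ S ε : ℝ}
    (hy1 : 1 < y₀) (hy0 : y₀ ≤ (sz n - 4) / 2) (hl : l₀ = log y₀) (hS : 0 ≤ S) (hε : 0 ≤ ε)
    (hG : ∀ m : ℤ, y₀ ≤ sz m → volume (E ∩ Icc (m : ℝ) (m + 1)) ≤
      ENNReal.ofReal (S + H ε l₀ (sz m))) :
    volume (E ∩ Icc (n : ℝ) (n + 1)) ≤ ENNReal.ofReal (S - ε / 32 + H ε l₀ (sz n)) := by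
  have hsz := hs.h1
  have hl64 := hs.h2
  set σ : ℝ := 1 / log (sz n + 3) ^ 3 with hσd
  have hσ : 0 < σ := by
    have : 0 < log (sz n + 3) := by linarith
    positivity
  obtain ⟨hσN, hnum⟩ := numeric hs hε
  rw [← hσd] at hσN hnum
  set g : ℤ → ℝ := fun m => max 0 (min 1 (S + H ε l₀ (sz m))) with hg
  have hg0 : ∀ m, 0 ≤ g m := fun m => le_max_left _ _
  have hg1 : ∀ m, g m ≤ 1 := fun m => max_le zero_le_one (min_le_left _ _)
  have hfl : ∀ x ∈ Ioo (n : ℝ) (n + 1), y₀ ≤ sz ⌊F x⌋ ∧ sz ⌊F x⌋ ≤ |F x| := by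
    intro x hx
    obtain ⟨a, b⟩ := F_upper hx.1.le hx.2.le
    obtain ⟨z1, z2⟩ := ze_bounds x
    obtain ⟨c, d⟩ := sz_floor (F x)
    refine ⟨?_, d⟩
    nlinarith
  have h1 := unit_bound (E := E) (n := n) (by linarith : 25 ≤ sz n) hσ hσN hg0 hg1 (by
    rintro m ⟨x, hx⟩
    have hm : ⌊F x⌋ = m := hx.2
    have h2 := (hfl x hx.1).1
    rw [hm] at h2
    have h3 := H_nonneg (l₀ := l₀) hε hl hy1 h2
    have h4 : volume (E ∩ Icc (m : ℝ) (m + 1)) ≤ ENNReal.ofReal 1 := by
      refine (measure_mono inter_subset_right).trans ?_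
      rw [Real.volume_Icc, add_sub_cancel_left]
    have h5 := hG m h2
    have h6 : g m = min 1 (S + H ε l₀ (sz m)) := max_eq_right (le_min zero_le_one (by linarith))
    rw [h6]
    rcases min_choice 1 (S + H ε l₀ (sz m)) with h | h
    · rw [h]; exact h4
    · rw [h]; exact h5)
  have hsub : E ∩ Icc (n : ℝ) (n + 1) ⊆ (F ⁻¹' E ∩ Ioo (n : ℝ) (n + 1)) ∪ {(n : ℝ), (n : ℝ) + 1} := by
    rintro x ⟨hx, h2, h3⟩
    rcases h2.eq_or_lt with h | h
    · right; left; exact h.symm
    · rcases h3.eq_or_lt with h' | h'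
      · right; right; exact h'
      · left; exact ⟨hE x hx, h, h'⟩
  have h2 : volume (E ∩ Icc (n : ℝ) (n + 1)) ≤ volume (F ⁻¹' E ∩ Ioo (n : ℝ) (n + 1)) := by
    refine (measure_mono hsub).trans ((measure_union_le _ _).trans ?_)
    have : volume ({(n : ℝ), (n : ℝ) + 1} : Set ℝ) = 0 := (Set.toFinite _).measure_zero _
    rw [this, add_zero]
  refine h2.trans (h1.trans ?_)
  -- the integral
  set c₀ : ℝ := S + ε * log (sz n + 3) + (1 / l₀ - 1 / log (sz n + 3)) +
    48 / (sz n * σ ^ 2) with hc₀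
  set c₁ : ℝ := ε + 1 / log (sz n + 3) ^ 2 with hc₁
  have hc₁0 : 0 ≤ c₁ := by positivity
  have hpt : ∀ x ∈ Ioo (n : ℝ) (n + 1), g ⌊F x⌋ + 48 / (sz n * σ ^ 2) ≤ c₀ + c₁ * xi x := by
    intro x hx
    obtain ⟨a, b⟩ := hfl x hx
    have h3 := H_nonneg (l₀ := l₀) hε hl hy1 a
    have h4 : g ⌊F x⌋ ≤ S + H ε l₀ (sz ⌊F x⌋) := by
      apply max_le (by linarith) (min_le_right _ _)
    have h5 := H_mono (l₀ := l₀) hε (hy1.trans_le a) b
    have h6 := H_point (l₀ := l₀) hs hε hx.1.le hx.2.le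
    have e : c₀ + c₁ * xi x = S + (ε * (log (sz n + 3) + xi x) +
      (1 / l₀ - 1 / log (sz n + 3) + xi x / log (sz n + 3) ^ 2)) + 48 / (sz n * σ ^ 2) := by
      rw [hc₀, hc₁]; ring
    rw [e]
    linarith
  have hη : 0 ≤ 48 / (sz n * σ ^ 2) := by
    have : 0 < sz n := by linarith
    positivity
  have hint : ∫⁻ x in Ioo (n : ℝ) (n + 1), ENNReal.ofReal (g ⌊F x⌋ + 48 / (sz n * σ ^ 2)) ≤
      ENNReal.ofReal (c₀ - c₁ / 16) := by
    calc _ ≤ ∫⁻ x in Ioo (n : ℝ) (n + 1), ENNReal.ofReal (c₀ + c₁ * xi x) := by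
          apply setLIntegral_mono' measurableSet_Ioo
          exact fun x hx => ENNReal.ofReal_le_ofReal (hpt x hx)
      _ = ENNReal.ofReal (∫ x in Ioo (n : ℝ) (n + 1), (c₀ + c₁ * xi x)) := by
          rw [ofReal_integral_eq_lintegral_ofReal]
          · exact ((continuous_const.add (continuous_const.mul xi_cont)).integrableOn_Icc
              (a := (n : ℝ)) (b := n + 1)).mono_set Ioo_subset_Icc_self
          · rw [EventuallyLE, ae_restrict_iff' measurableSet_Ioo]
            refine Eventually.of_forall fun x hx => ?_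
            have h3 := hpt x hx
            have h4 := hg0 ⌊F x⌋
            simp only [Pi.zero_apply]
            linarith
      _ ≤ _ := by
          apply ENNReal.ofReal_le_ofReal
          have e : ∫ x in Ioo (n : ℝ) (n + 1), (c₀ + c₁ * xi x) =
              ∫ x in (n : ℝ)..(n + 1), (c₀ + c₁ * xi x) := by
            rw [intervalIntegral.integral_of_le (by linarith), integral_Ioc_eq_integral_Ioo]
          rw [e]
          exact affine_integral n c₀ hc₁0
  have hfin : c₀ - c₁ / 16 + σ ≤ S - ε / 32 + H ε l₀ (sz n) := by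
    have e : S - ε / 32 + H ε l₀ (sz n) - (c₀ - c₁ / 16 + σ) =
        -(ε * (log (sz n + 3) - log (sz n) - 1 / 32) + (1 / log (sz n) - 1 / log (sz n + 3)) +
      48 / (sz n * σ ^ 2) + σ - 1 / (16 * log (sz n + 3) ^ 2)) := by
      rw [hc₀, hc₁]
      unfold H
      have hl0 : log (sz n + 3) ≠ 0 := by linarith
      have : 1 / (16 * log (sz n + 3) ^ 2) = 1 / log (sz n + 3) ^ 2 / 16 := by
        field_simp
      rw [this]
      ring
    linarith
  have hnn : 0 ≤ c₀ - c₁ / 16 := by
    by_contra hcon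
    push Not at hcon
    -- the nonnegative function would have a negative integral
    have h3 := affine_integral n c₀ hc₁0
    have h5 : 0 ≤ ∫ x in (n : ℝ)..(n + 1), (c₀ + c₁ * xi x) := by
      rw [intervalIntegral.integral_of_le (by linarith), integral_Ioc_eq_integral_Ioo]
      apply setIntegral_nonneg measurableSet_Ioo
      intro x hx
      have h6 := hpt x hx
      have h7 := hg0 ⌊F x⌋
      linarith
    linarith
  calc _ ≤ ENNReal.ofReal (c₀ - c₁ / 16) + ENNReal.ofReal σ := by gcongr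
    _ = ENNReal.ofReal (c₀ - c₁ / 16 + σ) := (ENNReal.ofReal_add hnn hσ.le).symm
    _ ≤ _ := ENNReal.ofReal_le_ofReal hfin

/-- the points of `P` whose whole orbit has modulus at least `M` -/
def Far (M : ℝ) : Set ℝ := {x | x ∈ P ∧ ∀ k : ℕ, M ≤ |F^[k] x|}

theorem far_forward {M x : ℝ} (h : x ∈ Far M) : F x ∈ Far M := by
  refine ⟨?_, fun k => ?_⟩
  · have := P_forward 1 h.1
    rwa [Function.iterate_one] at this
  · have := h.2 (k + 1)
    rwa [Function.iterate_succ_apply] at this

/-- far points fill at most a quarter of the unit intervals -/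
theorem far_small : ∃ M : ℝ, 0 < M ∧ ∀ n : ℤ, M ≤ sz n →
    volume (Far M ∩ Icc (n : ℝ) (n + 1)) ≤ ENNReal.ofReal (1 / 4) := by
  obtain ⟨M₀, hM₀, hbig⟩ := exists_big
  obtain ⟨y₀, hy₀⟩ := ((Real.tendsto_log_atTop.eventually_ge_atTop 4).and
    (eventually_ge_atTop (max M₀ 3))).exists
  obtain ⟨hl4, hy3⟩ := hy₀
  have hyM : M₀ ≤ y₀ := (le_max_left _ _).trans hy3
  have hy3' : 3 ≤ y₀ := (le_max_right _ _).trans hy3
  set M : ℝ := 2 * y₀ + 5 with hM
  refine ⟨M, by linarith, ?_⟩
  set l₀ := log y₀ with hl₀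
  have key : ∀ ε : ℝ, 0 < ε → ∀ j : ℕ, ∀ n : ℤ, y₀ ≤ sz n →
      volume (Far M ∩ Icc (n : ℝ) (n + 1)) ≤
        ENNReal.ofReal (max (1 - j * (ε / 32)) 0 + H ε l₀ (sz n)) := by
    intro ε hε j
    induction j with
    | zero =>
      intro n hn
      have h1 := H_nonneg (l₀ := l₀) hε.le hl₀ (by linarith) hn
      calc volume (Far M ∩ Icc (n : ℝ) (n + 1)) ≤ volume (Icc (n : ℝ) (n + 1)) :=
            measure_mono inter_subset_right
        _ = ENNReal.ofReal 1 := by rw [Real.volume_Icc, add_sub_cancel_left]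
        _ ≤ _ := by
            apply ENNReal.ofReal_le_ofReal
            have : (1 : ℝ) ≤ max (1 - ((0 : ℕ) : ℝ) * (ε / 32)) 0 := by
              refine le_trans ?_ (le_max_left _ _)
              simp
            linarith
    | succ j ih =>
      intro n hn
      rcases lt_or_ge (sz n + 1) M with hlt | hge
      · have : Far M ∩ Icc (n : ℝ) (n + 1) = ∅ := by
          rw [Set.eq_empty_iff_forall_notMem]
          rintro x ⟨hx, h1, h2⟩
          have h3 := hx.2 0
          have h4 := (sz_bounds h1 h2).2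
          simp only [Function.iterate_zero, id_eq] at h3
          linarith
        rw [this, measure_empty]
        exact zero_le
      · have h1 := one_step (E := Far M) (fun x hx => far_forward hx) (n := n)
          (hbig _ (by linarith)) (y₀ := y₀) (l₀ := l₀) (S := max (1 - j * (ε / 32)) 0) (ε := ε)
          (by linarith) (by linarith) hl₀ (le_max_right _ _) hε.le ih
        refine h1.trans ?_
        apply ENNReal.ofReal_le_ofReal
        have h2 : max (1 - (j : ℝ) * (ε / 32)) 0 - ε / 32 ≤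
            max (1 - ((j + 1 : ℕ) : ℝ) * (ε / 32)) 0 := by
          push_cast
          rcases le_total (1 - (j : ℝ) * (ε / 32)) 0 with h | h
          · rw [max_eq_right h]
            have := le_max_right (1 - ((j : ℝ) + 1) * (ε / 32)) 0
            linarith
          · rw [max_eq_left h]
            have := le_max_left (1 - ((j : ℝ) + 1) * (ε / 32)) 0
            linarith
        linarith
  intro n hn
  have hn' : y₀ ≤ sz n := by linarith
  have hlog : 0 < log (sz n) := Real.log_pos (by linarith)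
  -- let `ε` tend to zero
  have hlim : ∀ ε : ℝ, 0 < ε → volume (Far M ∩ Icc (n : ℝ) (n + 1)) ≤
      ENNReal.ofReal (H ε l₀ (sz n)) := by
    intro ε hε
    obtain ⟨j, hj⟩ := exists_nat_gt (32 / ε)
    have h1 := key ε hε j n hn'
    have h2 : max (1 - (j : ℝ) * (ε / 32)) 0 = 0 := by
      apply max_eq_right
      rw [div_lt_iff₀ hε] at hj
      linarith
    rwa [h2, zero_add] at h1
  have hl0 : (0 : ℝ) < l₀ := by linarith
  have h3 := hlim (1 / (log (sz n)) ^ 2) (by positivity)
  refine h3.trans (ENNReal.ofReal_le_ofReal ?_)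
  unfold H
  have h4 : 1 / log (sz n) ^ 2 * log (sz n) = 1 / log (sz n) := by
    field_simp
  rw [h4]
  have h5 : 1 / l₀ ≤ 1 / 4 := one_div_le_one_div_of_le (by norm_num) hl4
  linarith

end Pool.Agent.E8helper52.RL
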