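import Mathlib
import Pool.Agent.E8helper52.RL.Sweep
import Pool.Agent.Y282.WD.Deg
import Pool.Agent.Y514.WD.Sch
import Pool.Agent.Y804.WD.Loop
import Pool.Agent.Y319.WD.Har
import Pool.Agent.Y98.WD.Inv

/-!
Fatou components of `f₀` whose orbit meets the real line.
-/

set_option autoImplicit false

open Set Filter Topology Metric

namespace Pool.Agent.E8helper52.RL

open Pool.Agent.H384R2.Fatou Pool.Agent.H723R2.LSW
open Pool.Agent.R105.WR (D D_pos ball_D)

theorem F_iter_coe (k : ℕ) (x : ℝ) : ((F^[k] x : ℝ) : ℂ) = f₀^[k] (x : ℂ) := by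
  induction k with
  | zero => rfl
  | succ k ih => rw [Function.iterate_succ_apply', Function.iterate_succ_apply', F_coe, ih]

theorem f₀_cont : Continuous f₀ := f₀_differentiable.continuous

/-- backward invariance for iterates -/
theorem back_iter (k : ℕ) : ∀ z : ℂ, f₀^[k] z ∈ FatouSet f₀ → z ∈ FatouSet f₀ := by
  induction k with
  | zero => exact fun z h => h
  | succ k ih =>
    intro z h
    rw [Function.iterate_succ_apply] at h
    exact Pool.Agent.Y811.WD.t_BACK z (ih _ h)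

/-- a point of `A` is mapped into the component of an integer -/
theorem A_component {x : ℝ} (h : x ∈ A) :
    ∃ (k : ℕ) (n : ℤ), f₀^[k] (x : ℂ) ∈ FatouComponent f₀ (n : ℂ) := by
  obtain ⟨k, n, hk⟩ := h
  refine ⟨k, n, ?_⟩
  have h1 : f₀^[k] (x : ℂ) ∈ ball (n : ℂ) (D n) := by
    rw [mem_ball, dist_eq_norm, ← F_iter_coe, show (((F^[k] x : ℝ) : ℂ) - (n : ℂ)) =
      ((F^[k] x - n : ℝ) : ℂ) by push_cast; ring, Complex.norm_real]
    exact hk
  exact (convex_ball (n : ℂ) (D n)).isPreconnected.subset_connectedComponentIn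
    (mem_ball_self (D_pos n)) (ball_D n) h1

theorem A_fatou {x : ℝ} (h : x ∈ A) : (x : ℂ) ∈ FatouSet f₀ := by
  obtain ⟨k, n, hk⟩ := A_component h
  exact back_iter k _ (connectedComponentIn_subset _ _ hk)

theorem A_dense : Dense {x : ℝ | (x : ℂ) ∈ FatouSet f₀} := by
  rw [Metric.dense_iff]
  intro x r hr
  obtain ⟨y, hy, hA⟩ := exists_mem_A (p := x - r / 2) (q := x + r / 2) (by linarith)
  refine ⟨y, ?_, A_fatou hA⟩
  rw [mem_ball, Real.dist_eq, abs_lt]
  constructor <;> linarith [hy.1, hy.2]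

/-- a component that meets the real line is eventually mapped into the component of an integer -/
theorem component_real {x : ℝ} (hx : (x : ℂ) ∈ FatouSet f₀) :
    ∃ (k : ℕ) (n : ℤ), f₀^[k] '' FatouComponent f₀ (x : ℂ) ⊆ FatouComponent f₀ (n : ℂ) := by
  have ho := component_isOpen f₀ (x : ℂ)
  have hm : (x : ℂ) ∈ FatouComponent f₀ (x : ℂ) := mem_connectedComponentIn hx
  obtain ⟨r, hr, hsub⟩ := Metric.isOpen_iff.1 ho _ hm
  obtain ⟨y, hy, hA⟩ := exists_mem_A (p := x - r / 2) (q := x + r / 2) (by linarith)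
  have hy' : (y : ℂ) ∈ FatouComponent f₀ (x : ℂ) := by
    apply hsub
    rw [mem_ball, dist_eq_norm, show ((y : ℂ) - (x : ℂ)) = ((y - x : ℝ) : ℂ) by push_cast; ring,
      Complex.norm_real, Real.norm_eq_abs, abs_lt]
    constructor <;> linarith [hy.1, hy.2]
  obtain ⟨k, n, hk⟩ := A_component hA
  refine ⟨k, n, ?_⟩
  have e1 : FatouComponent f₀ (x : ℂ) = FatouComponent f₀ (y : ℂ) := connectedComponentIn_eq hy'
  have e2 : FatouComponent f₀ (n : ℂ) = FatouComponent f₀ (f₀^[k] (y : ℂ)) :=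
    connectedComponentIn_eq hk
  rw [e1, e2]
  exact component_map f₀_cont f₀_open (A_fatou hA) k

theorem component_meets {z : ℂ} (hz : z ∈ FatouSet f₀) {i : ℕ} {x : ℝ}
    (hx : (x : ℂ) ∈ f₀^[i] '' FatouComponent f₀ z) :
    ∃ (n : ℤ) (k : ℕ), f₀^[k] '' FatouComponent f₀ z ⊆ FatouComponent f₀ (n : ℂ) := by
  have h1 := component_map f₀_cont f₀_open hz i
  have hx1 := h1 hx
  have hxF : (x : ℂ) ∈ FatouSet f₀ := connectedComponentIn_subset _ _ hx1
  have e1 : FatouComponent f₀ (f₀^[i] z) = FatouComponent f₀ (x : ℂ) := connectedComponentIn_eq hx1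
  obtain ⟨k, n, hk⟩ := component_real hxF
  refine ⟨n, k + i, ?_⟩
  rintro _ ⟨w, hw, rfl⟩
  rw [Function.iterate_add_apply]
  apply hk
  refine ⟨f₀^[i] w, ?_, rfl⟩
  rw [← e1]
  exact h1 ⟨w, hw, rfl⟩

/-! ### the orbits in the component of an integer -/

theorem pow_quot (J i : ℕ) :
    (1 : ℝ) / 2 ^ J * ((2 ^ (J + i) : ℕ) : ℝ) = ((2 ^ i : ℕ) : ℝ) := by
  push_cast
  rw [pow_add]
  field_simp

theorem follow_tame {n : ℤ} (hn : ¬ Wild n) {w : ℂ} (hw : w ∈ FatouComponent f₀ (n : ℂ)) :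
    ∃ q : ℝ, 0 ≤ q ∧ q < 1 ∧
      ∀ᶠ j : ℕ in atTop, ‖f₀^[j] w - ((T^[j] n : ℤ) : ℂ)‖ ≤ q ^ (2 ^ j) := by
  obtain ⟨k, p, a, hp, ha, hk⟩ := tame_hits hn
  obtain ⟨C, hC1, hC⟩ := f₀_near
  have hb := basin_of_hits (f := f₀) (a := (a : ℂ)) (p := p) (k := k) f₀_differentiable hp
    (by rw [f₀_iter, ha]) (f₀_iter_deriv a p hp) (by rw [f₀_iter, hk]) _ hw
  set M : ℝ := ∑ i ∈ Finset.range p, |((T^[i] a : ℤ) : ℝ)| with hM
  have hM0 : 0 ≤ M := Finset.sum_nonneg fun i _ => abs_nonneg _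
  have hMi : ∀ i : ℕ, |((T^[i] a : ℤ) : ℝ)| ≤ M := by
    intro i
    have e : T^[i] a = T^[i % p] a :=
      (Function.IsPeriodicPt.iterate_mod_apply (show Function.IsPeriodicPt T p a from ha) i).symm
    rw [e]
    exact Finset.single_le_sum (f := fun i => |((T^[i] a : ℤ) : ℝ)|) (fun i _ => abs_nonneg _)
      (Finset.mem_range.2 (Nat.mod_lt _ hp))
  set C' : ℝ := C * (M + 1) with hC'
  have hC'1 : 1 ≤ C' := by nlinarith
  obtain ⟨m, hm⟩ := (Metric.tendsto_nhds.1 hb (1 / (2 * C')) (by positivity)).exists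
  rw [dist_eq_norm] at hm
  set J : ℕ := k + p * m with hJ
  have hTJ : T^[J] n = a := by
    rw [hJ, add_comm, Function.iterate_add_apply, hk]
    exact Function.IsPeriodicPt.const_mul (show Function.IsPeriodicPt T p a from ha) m |> fun h => by
      rw [mul_comm] at h; exact h
  have hind : ∀ i : ℕ, C' * ‖f₀^[J + i] w - ((T^[J + i] n : ℤ) : ℂ)‖ ≤ (1 / 2) ^ (2 ^ i) := by
    intro i
    induction i with
    | zero =>
      rw [add_zero, hTJ, pow_zero, pow_one]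
      have : C' * ‖f₀^[J] w - (a : ℂ)‖ ≤ C' * (1 / (2 * C')) := by gcongr
      refine this.trans (le_of_eq ?_)
      field_simp
    | succ i ih =>
      set e := ‖f₀^[J + i] w - ((T^[J + i] n : ℤ) : ℂ)‖ with he
      have he0 : 0 ≤ e := norm_nonneg _
      have h2 : C' * e ≤ 1 := ih.trans (pow_le_one₀ (by norm_num) (by norm_num))
      have he1 : e ≤ 1 := by nlinarith
      rw [← add_assoc, Function.iterate_succ_apply', Function.iterate_succ_apply']
      have h3 := hC (T^[J + i] n) (f₀^[J + i] w) he1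
      have h4 : |((T^[J + i] n : ℤ) : ℝ)| ≤ M := by
        rw [add_comm, Function.iterate_add_apply, hTJ]
        exact hMi i
      calc C' * ‖f₀ (f₀^[J + i] w) - ((T (T^[J + i] n) : ℤ) : ℂ)‖
          ≤ C' * (C * (|((T^[J + i] n : ℤ) : ℝ)| + 1) * e ^ 2) := by gcongr
        _ ≤ C' * (C * (M + 1) * e ^ 2) := by gcongr
        _ = (C' * e) ^ 2 := by rw [hC']; ring
        _ ≤ ((1 / 2) ^ (2 ^ i)) ^ 2 := by gcongr
        _ = (1 / 2) ^ (2 ^ (i + 1)) := by rw [← pow_mul, pow_succ]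
  refine ⟨(1 / 2 : ℝ) ^ ((1 : ℝ) / 2 ^ J), by positivity,
    Real.rpow_lt_one (by norm_num) (by norm_num) (by positivity), ?_⟩
  filter_upwards [eventually_ge_atTop J] with j hj
  obtain ⟨i, rfl⟩ := Nat.exists_eq_add_of_le hj
  have e : ((1 / 2 : ℝ) ^ ((1 : ℝ) / 2 ^ J)) ^ (2 ^ (J + i)) = (1 / 2) ^ (2 ^ i) := by
    rw [← Real.rpow_natCast, ← Real.rpow_mul (by norm_num),
      ← Real.rpow_natCast (1 / 2 : ℝ) (2 ^ i)]
    rw [pow_quot J i]
  rw [e]
  have h1 := hind i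
  have h2 : 0 ≤ ‖f₀^[J + i] w - ((T^[J + i] n : ℤ) : ℂ)‖ := norm_nonneg _
  nlinarith

theorem follow_all (n : ℤ) {w : ℂ} (hw : w ∈ FatouComponent f₀ (n : ℂ)) :
    ∃ q : ℝ, 0 ≤ q ∧ q < 1 ∧
      ∀ᶠ j : ℕ in atTop, ‖f₀^[j] w - ((T^[j] n : ℤ) : ℂ)‖ ≤ q ^ (2 ^ j) := by
  by_cases hn : Wild n
  · obtain ⟨C, -, hC⟩ := Pool.Agent.Y282.WD.shape Pool.Agent.Y888.WD.t_NEAR
      Pool.Agent.Y888.WD.t_LOW Pool.Agent.Y151.WD.t_TAIL Pool.Agent.Y514.WD.sch
      Pool.Agent.Y319.WD.t_HAR Pool.Agent.Y804.WD.loop Pool.Agent.Y811.WD.t_BACK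
      Pool.Agent.Y98.WD.t_INV
    exact (hC n hn).2.2.1 w hw
  · exact follow_tame hn hw

/-- a wandering domain whose orbit meets the real line gives a wandering integer -/
theorem wandering_real {U : Set ℂ} (hU : IsWanderingDomain f₀ U) {i : ℕ} {x : ℝ}
    (hx : (x : ℂ) ∈ f₀^[i] '' U) : ∃ n : ℤ, IsWanderingDomain f₀ (FatouComponent f₀ (n : ℂ)) := by
  obtain ⟨V, h0, hV, him, hne⟩ := hU
  obtain ⟨z, hz, hVz⟩ := hV 0
  have hUz : U = FatouComponent f₀ z := by rw [← h0, hVz]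
  rw [hUz] at hx
  obtain ⟨n, k, hk⟩ := component_meets hz hx
  refine ⟨n, (wandering_iff n).2 ?_⟩
  by_contra hn
  obtain ⟨l, p, a, hp, ha, hl⟩ := tame_hits hn
  have hzU : z ∈ U := by rw [hUz]; exact mem_connectedComponentIn hz
  -- the component of `a` contains the images of `z` at the times `k + l` and `k + l + p`
  have hmap : ∀ j : ℕ, f₀^[j] '' FatouComponent f₀ (n : ℂ) ⊆
      FatouComponent f₀ ((T^[j] n : ℤ) : ℂ) := by
    intro j
    have := component_map f₀_cont f₀_open (int_mem_fatou n) j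
    rwa [f₀_iter] at this
  have hmem : ∀ j : ℕ, T^[j] n = a → V (k + j) = FatouComponent f₀ (a : ℂ) := by
    intro j hj
    have h1 : f₀^[k + j] z ∈ FatouComponent f₀ (a : ℂ) := by
      rw [add_comm, Function.iterate_add_apply, ← hj]
      exact hmap j ⟨_, hk ⟨z, by rw [← hUz]; exact hzU, rfl⟩, rfl⟩
    have h2 : f₀^[k + j] z ∈ V (k + j) := him (k + j) ⟨z, hzU, rfl⟩
    obtain ⟨y, -, hy⟩ := hV (k + j)
    rw [hy] at h2 ⊢
    have e1 : FatouComponent f₀ y = FatouComponent f₀ (f₀^[k + j] z) := connectedComponentIn_eq h2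
    have e2 : FatouComponent f₀ (a : ℂ) = FatouComponent f₀ (f₀^[k + j] z) :=
      connectedComponentIn_eq h1
    rw [e1, e2]
  have e1 := hmem l hl
  have e2 := hmem (p + l) (by rw [Function.iterate_add_apply, hl, ha])
  exact hne (k + l) (k + (p + l)) (by omega) (by rw [e1, e2])

/-- `-1` and `-2` lie in the same Fatou component -/
theorem same_component : FatouComponent f₀ (-1) = FatouComponent f₀ (-2) := by
  have hseg : ∀ x : ℝ, -2 ≤ x → x ≤ -1 → (x : ℂ) ∈ FatouSet f₀ := by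
    intro x h1 h2
    obtain ⟨k, hk⟩ := J1_conv h1 (by linarith : x ≤ -3 / 4) (D_pos (-1))
    exact A_fatou ⟨k, -1, hk⟩
  have h := seg_component hseg (x := -2) (y := -1) ⟨by norm_num, by norm_num⟩
    ⟨by norm_num, by norm_num⟩
  push_cast at h
  exact connectedComponentIn_eq h

end Pool.Agent.E8helper52.RL
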