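import Mathlib
import Pool.Agent.E8helper52.RL.Far

/-!
Density points of the set of far points do not exist.
-/

set_option autoImplicit false

open Real Set Filter Topology MeasureTheory

namespace Pool.Agent.E8helper52.RL

open Pool.Agent.H723R2.LSW (F T F_int F_cont f₀_near T_growth f₀ F_coe)
open Pool.Agent.R105.WR (D D_pos D_le_one abs_T)

/-! ### local estimates near integers -/

theorem L_symm (e : ℤ) (t : ℝ) : L (e - t) = L (e + t) := by
  have h : cos (π * ((e : ℝ) - t)) = cos (π * (e + t)) := by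
    have h1 := cos_shift e (-t)
    rw [mul_neg, Real.cos_neg, ← cos_shift, ← sub_eq_add_neg] at h1
    exact h1
  unfold L
  rw [h]

theorem L_log (e : ℤ) {a b : ℝ} (ha : 0 < a) (hab : a < b) (hb : b ≤ 1 / 2) :
    |L (e + b) - L (e + a)| ≤ π / 2 * (log b - log a) := by
  have hpi := Real.pi_pos
  have hu : ∀ t ∈ Icc a b, sin (π * (e + t)) ≠ 0 := fun t ht =>
    sin_ne_unit (n := e) (by linarith [ht.1]) (by linarith [ht.2])
  have d1 : ∀ t ∈ Icc a b, HasDerivAt (fun t => L (e + t)) (π / sin (π * (e + t))) t := by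
    intro t ht
    have h0 : HasDerivAt (fun t : ℝ => (e : ℝ) + t) 1 t := (hasDerivAt_id t).const_add _
    have := HasDerivAt.comp t (L_deriv (hu t ht)) h0
    rw [mul_one] at this
    exact this
  have d2 : ∀ t ∈ Icc a b, HasDerivAt log t⁻¹ t := fun t ht =>
    Real.hasDerivAt_log (by linarith [ht.1])
  obtain ⟨c, hc, h⟩ := exists_ratio_hasDerivAt_eq_ratio_slope (fun t => L (e + t)) _ hab
    (fun t ht => (d1 t ht).continuousAt.continuousWithinAt)
    (fun t ht => d1 t (Ioo_subset_Icc_self ht)) log _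
    (fun t ht => (d2 t ht).continuousAt.continuousWithinAt)
    (fun t ht => d2 t (Ioo_subset_Icc_self ht))
  have hc' := Ioo_subset_Icc_self hc
  have hc0 : 0 < c := by linarith [hc.1]
  have hlog : 0 < log b - log a := by
    have := Real.log_lt_log ha hab
    linarith
  have h2 := congrArg abs h
  rw [abs_mul, abs_mul, abs_div, abs_of_pos hpi, abs_of_pos hlog, abs_inv, abs_of_pos hc0] at h2
  have h3 : 2 * c ≤ |sin (π * (e + c))| := by
    have e1 : |sin (π * (e + c))| = |sin (π * c)| :=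
      sq_eq_sq_iff_abs_eq_abs _ _ |>.1 (sin_sq_local e c)
    rw [e1]
    have h4 : 2 / π * |π * c| ≤ |sin (π * c)| := by
      apply Real.mul_abs_le_abs_sin
      rw [abs_mul, abs_of_pos hpi, abs_of_pos hc0]
      nlinarith [hc.2]
    rw [abs_mul, abs_of_pos hpi, abs_of_pos hc0] at h4
    have h5 : 2 / π * (π * c) = 2 * c := by field_simp
    linarith
  have h4 : |L (e + b) - L (e + a)| = (log b - log a) * (π / |sin (π * (e + c))|) * c := by
    rw [h2]; field_simp
  rw [h4]
  calc (log b - log a) * (π / |sin (π * (e + c))|) * c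
      ≤ (log b - log a) * (π / (2 * c)) * c := by gcongr
    _ = π / 2 * (log b - log a) := by field_simp

theorem F_near_real : ∃ C : ℝ, 1 ≤ C ∧ ∀ (m : ℤ) (x : ℝ), |x - m| ≤ 1 →
    |F x - T m| ≤ C * (|(m : ℝ)| + 1) * |x - m| ^ 2 := by
  obtain ⟨C, hC1, hC⟩ := f₀_near
  refine ⟨C, hC1, fun m x hx => ?_⟩
  have e1 : ‖((x : ℂ) - (m : ℂ))‖ = |x - m| := by
    rw [show ((x : ℂ) - (m : ℂ)) = ((x - m : ℝ) : ℂ) by push_cast; ring, Complex.norm_real,
      Real.norm_eq_abs]
  have e2 : ‖f₀ (x : ℂ) - (T m : ℂ)‖ = |F x - T m| := by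
    rw [← F_coe, show (((F x : ℝ) : ℂ) - ((T m : ℤ) : ℂ)) = ((F x - T m : ℝ) : ℂ) by
      push_cast; ring, Complex.norm_real, Real.norm_eq_abs]
  have := hC m x (by rw [e1]; exact hx)
  rwa [e1, e2] at this

/-- lower bound for the displacement near an integer, to the right or to the left -/
theorem F_far_right {n : ℤ} (hs : 25 ≤ sz n) {t : ℝ} (h0 : 0 ≤ t) (h1 : t ≤ 1 / 2) :
    sz n * t ^ 2 / 2 ≤ |F (n + t) - T n| ∧ sz n * t ^ 2 / 2 ≤ |F (n + 1 - t) - T (n + 1)| := by
  have hpi := Real.pi_pos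
  have hmono := F_strict (nz_of_sz (n := n) (by linarith))
  have e0 : F n = T n := F_int n
  have e1 : F ((n : ℝ) + 1) = T (n + 1) := by
    have := F_int (n + 1)
    push_cast at this
    exact this
  rcases h0.eq_or_lt with rfl | h0
  · simp
  have hsin : ∀ c : ℝ, 0 ≤ c → c ≤ 1 / 2 → 2 * c ≤ |sin (π * (n + c))| ∧
      2 * c ≤ |sin (π * (n + 1 - c))| := by
    intro c hc0 hc1
    have h4 : 2 / π * |π * c| ≤ |sin (π * c)| := by
      apply Real.mul_abs_le_abs_sin
      rw [abs_mul, abs_of_pos hpi, abs_of_nonneg hc0]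
      nlinarith
    rw [abs_mul, abs_of_pos hpi, abs_of_nonneg hc0] at h4
    have h5 : 2 / π * (π * c) = 2 * c := by field_simp
    have e1 : |sin (π * (n + c))| = |sin (π * c)| :=
      sq_eq_sq_iff_abs_eq_abs _ _ |>.1 (sin_sq_local n c)
    have e2 : |sin (π * (n + 1 - c))| = |sin (π * c)| := by
      have := sq_eq_sq_iff_abs_eq_abs _ _ |>.1 (sin_sq_local (n + 1) (-c))
      push_cast at this
      rw [mul_neg, Real.sin_neg, abs_neg] at this
      rw [← this]
      congr 2
    rw [e1, e2]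
    constructor <;> linarith
  have main : ∀ y z : ℝ, (n : ℝ) ≤ y → z ≤ n + 1 → y < z → z - y = t / 2 →
      (∀ c ∈ Ioo y z, t ≤ |sin (π * c)|) → sz n * t ^ 2 / 2 ≤ |F z - F y| := by
    intro y z hy hz hyz hyt hc
    obtain ⟨c, hc', e⟩ := F_mvt hyz
    rw [e, abs_mul, hyt, abs_of_pos (by linarith : 0 < t / 2)]
    have h2 := dF_lower hs (sz_bounds (n := n) (x := c) (hy.trans hc'.1.le)
      (hc'.2.le.trans hz)).1
    have h3 := hc c hc'
    have hs0 : 0 ≤ sz n := by linarith
    have h4 : sz n * t ≤ |dF c| := (mul_le_mul_of_nonneg_left h3 hs0).trans h2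
    calc sz n * t ^ 2 / 2 = sz n * t * (t / 2) := by ring
      _ ≤ |dF c| * (t / 2) := by gcongr
  have a1 := main (n + t / 2) (n + t) (by linarith) (by linarith) (by linarith) (by ring) (by
    intro c hc
    have := (hsin (c - n) (by linarith [hc.1]) (by linarith [hc.2])).1
    rw [add_sub_cancel] at this
    linarith [hc.1])
  have a2 := main (n + 1 - t) (n + 1 - t / 2) (by linarith) (by linarith) (by linarith) (by ring) (by
    intro c hc
    have := (hsin (n + 1 - c) (by linarith [hc.2]) (by linarith [hc.1])).2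
    rw [sub_sub_cancel] at this
    linarith [hc.2])
  have m0 : (n : ℝ) ∈ Icc (n : ℝ) (n + 1) := ⟨le_rfl, by linarith⟩
  have m1 : (n : ℝ) + t / 2 ∈ Icc (n : ℝ) (n + 1) := ⟨by linarith, by linarith⟩
  have m2 : (n : ℝ) + t ∈ Icc (n : ℝ) (n + 1) := ⟨by linarith, by linarith⟩
  have m3 : (n : ℝ) + 1 - t ∈ Icc (n : ℝ) (n + 1) := ⟨by linarith, by linarith⟩
  have m4 : (n : ℝ) + 1 - t / 2 ∈ Icc (n : ℝ) (n + 1) := ⟨by linarith, by linarith⟩
  have m5 : (n : ℝ) + 1 ∈ Icc (n : ℝ) (n + 1) := ⟨by linarith, le_rfl⟩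
  rw [← e0, ← e1]
  rcases hmono with hF | hF
  · have b1 := hF m0 m1 (by linarith)
    have b2 := hF m1 m2 (by linarith)
    have b3 := hF m3 m4 (by linarith)
    have b4 := hF m4 m5 (by linarith)
    rw [abs_of_pos (by linarith)] at a1 a2
    rw [abs_of_pos (by linarith), abs_of_neg (by linarith)]
    constructor <;> linarith
  · have b1 := hF m0 m1 (by linarith)
    have b2 := hF m1 m2 (by linarith)
    have b3 := hF m3 m4 (by linarith)
    have b4 := hF m4 m5 (by linarith)
    rw [abs_of_neg (by linarith)] at a1 a2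
    rw [abs_of_neg (by linarith), abs_of_pos (by linarith)]
    constructor <;> linarith

end Pool.Agent.E8helper52.RL
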