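import Mathlib
import Pool.Agent.E8helper52.RL.Bulk

/-!
Density points of the set of far points do not exist: the argument.
-/

set_option autoImplicit false

open Real Set Filter Topology MeasureTheory

namespace Pool.Agent.E8helper52.RL

open Pool.Agent.H723R2.LSW (F T F_int F_cont f₀_near T_growth f₀ F_coe)
open Pool.Agent.R105.WR (D D_pos D_le_one abs_T)

/-- points of `P` whose orbit has modulus at least `M` from the time `j` on -/
def FarFrom (j : ℕ) (M : ℝ) : Set ℝ := {x | x ∈ P ∧ ∀ k : ℕ, j ≤ k → M ≤ |F^[k] x|}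

theorem farFrom_far {j : ℕ} {M : ℝ} (k : ℕ) (hk : j ≤ k) (y : ℝ) (hy : y ∈ FarFrom j M) :
    F^[k] y ∈ Far M := by
  refine ⟨P_forward k hy.1, fun i => ?_⟩
  rw [← Function.iterate_add_apply]
  exact hy.2 (i + k) (by omega)

theorem dens_mono {E E' : Set ℝ} (h : E ⊆ E') {x : ℝ} (hd : Dens E x) : Dens E' x := by
  intro η hη
  obtain ⟨r, hr, h1⟩ := hd η hη
  exact ⟨r, hr, fun a b ha hb hab hr' =>
    (measure_mono (sdiff_subset_sdiff_right h)).trans (h1 a b ha hb hab hr')⟩

theorem not_far_near {e : ℤ} {z M : ℝ} (h : |z - e| < D e) : z ∉ Far M := by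
  intro hz
  exact hz.1 ⟨0, e, by simpa using h⟩

section
variable {M x : ℝ} {j : ℕ} (hd : Dens (FarFrom j M) x) (hx : x ∈ P)
  (hgood : ∀ k, good (F^[k] x)) (htend : Tendsto (fun k : ℕ => |F^[k] x|) atTop atTop)
include hd hx hgood htend

/-- the orbit leaves the neighbourhoods of size `K / |n|` of the integers -/
theorem leave (K : ℝ) : ∃ k₀ : ℕ, ∀ k, k₀ ≤ k →
    K / (|((round (F^[k] x) : ℤ) : ℝ)| + 1) ≤ |F^[k] x - round (F^[k] x)| := by
  obtain ⟨c, hc, hD⟩ := D_lower
  -- it suffices to treat large `K`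
  suffices h : ∀ K : ℝ, c ≤ K → ∃ k₀ : ℕ, ∀ k, k₀ ≤ k →
      K / (|((round (F^[k] x) : ℤ) : ℝ)| + 1) ≤ |F^[k] x - round (F^[k] x)| by
    obtain ⟨k₀, hk₀⟩ := h (max K c) (le_max_right _ _)
    refine ⟨k₀, fun k hk => le_trans ?_ (hk₀ k hk)⟩
    have := le_max_left K c
    gcongr
  intro K hK
  have hK0 : 0 < K := hc.trans_le hK
  obtain ⟨k₁, hk₁⟩ := density (E := FarFrom j M) (E' := Far M) (j := j)
    (fun k hk y hy => farFrom_far k hk y hy) hd
    (R := π / 2 * (log K - log (c / 2))) (η := c / (8 * K)) (by positivity)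
  obtain ⟨k₂, hk₂⟩ := (htend.eventually_ge_atTop (4 * K)).exists_forall_of_atTop
  refine ⟨max k₁ k₂, fun k hk => ?_⟩
  have h1 := hk₁ k ((le_max_left _ _).trans hk) (fun i _ => hgood i)
  have h2 := hk₂ k ((le_max_right _ _).trans hk)
  set y := F^[k] x with hy
  set e := round y with he
  have hyP : y ∈ P := P_forward k hx
  have hr : |y - e| ≤ 1 / 2 := abs_sub_round y
  set N : ℝ := |(e : ℝ)| + 1 with hN
  have hN4 : 4 * K ≤ N := by
    have := abs_sub_abs_le_abs_sub y e
    linarith
  have hN0 : 0 < N := by linarith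
  have hDN : c / N ≤ D e := hD e
  have hDe : c / N ≤ |y - e| := hDN.trans (not_int hyP e)
  by_contra hcon
  push Not at hcon
  have hKN : K / N ≤ 1 / 4 := by
    rw [div_le_div_iff₀ hN0 (by norm_num)]; linarith
  have hcN : c / (2 * N) < c / N := by
    apply div_lt_div_of_pos_left hc hN0; linarith
  have hcN0 : 0 < c / (2 * N) := by positivity
  have hcK : c / N ≤ K / N := by gcongr
  have hlogs : log (K / N) - log (c / (2 * N)) = log K - log (c / 2) := by
    rw [Real.log_div hK0.ne' hN0.ne', Real.log_div hc.ne' (by positivity),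
      Real.log_div hc.ne' (by norm_num), Real.log_mul (by norm_num) hN0.ne']
    ring
  have hL : |L (e + K / N) - L (e + c / (2 * N))| ≤ π / 2 * (log K - log (c / 2)) := by
    rw [← hlogs]
    exact L_log e hcN0 (by linarith) (by linarith)
  -- the contradiction
  have hfinal : ∀ u v s t : ℝ, Icc s t ⊆ Icc u v → (∀ z ∈ Icc s t, |z - e| < D e) →
      t - s = c / (4 * N) → v - u = K / N - c / (2 * N) →
      volume (Icc u v \ Far M) ≤ ENNReal.ofReal (c / (8 * K) * (v - u)) → False := by
    intro u v s t hsub hz hst hvu hvol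
    have h3 : Icc s t ⊆ Icc u v \ Far M := fun z hz' => ⟨hsub hz', not_far_near (hz z hz')⟩
    have h4 := (measure_mono h3).trans hvol
    rw [Real.volume_Icc] at h4
    have h5 : 0 ≤ c / (8 * K) * (v - u) := by
      rw [hvu]
      have : 0 ≤ K / N - c / (2 * N) := by linarith
      positivity
    have h6 := (ENNReal.ofReal_le_ofReal_iff h5).1 h4
    rw [hst, hvu] at h6
    have h7 : c / (8 * K) * (K / N - c / (2 * N)) ≤ c / (8 * K) * (K / N) := by
      gcongr
      linarith
    have h8 : c / (8 * K) * (K / N) = c / (4 * N) / 2 := by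
      field_simp; norm_num
    have h9 : 0 < c / (4 * N) := by positivity
    linarith
  have hc4 : 3 * c / (4 * N) = c / (2 * N) + c / (4 * N) := by field_simp; norm_num
  have hc4' : 3 * c / (4 * N) < c / N := by
    have : c / N = 3 * c / (4 * N) + c / (4 * N) := by field_simp; norm_num
    have h9 : 0 < c / (4 * N) := by positivity
    linarith
  have h4N : 0 < c / (4 * N) := by positivity
  rcases lt_trichotomy y e with h | h | h
  · -- to the left of `e`
    have hy' : |y - e| = -(y - e) := abs_of_neg (by linarith)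
    rw [hy'] at hDe hcon
    have h3 := h1 (e - 1) (e - K / N) (e - c / (2 * N)) (by push_cast; linarith)
      (by push_cast; linarith) (by linarith) (by linarith) (by linarith) (by
        rw [L_symm, L_symm, abs_sub_comm]; exact hL)
    refine hfinal _ _ (e - 3 * c / (4 * N)) (e - c / (2 * N)) ?_ ?_ ?_ ?_ h3
    · exact Icc_subset_Icc (by linarith) le_rfl
    · intro z hz
      have hz' : |z - e| = -(z - e) := abs_of_neg (by linarith [hz.2])
      rw [hz']
      linarith [hz.1]
    · rw [hc4]; ring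
    · ring
  · rw [h, sub_self, abs_zero] at hDe
    have : 0 < c / N := by positivity
    linarith
  · have hy' : |y - e| = y - e := abs_of_pos (by linarith)
    rw [hy'] at hDe hcon
    have h3 := h1 e (e + c / (2 * N)) (e + K / N) (by linarith) (by linarith) (by linarith)
      (by linarith) (by linarith) hL
    refine hfinal _ _ (e + c / (2 * N)) (e + 3 * c / (4 * N)) ?_ ?_ ?_ ?_ h3
    · exact Icc_subset_Icc le_rfl (by linarith)
    · intro z hz
      have hz' : |z - e| = z - e := abs_of_pos (by linarith [hz.1])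
      rw [hz']
      linarith [hz.2]
    · rw [hc4]; ring
    · ring

/-- infinitely often the orbit moves away from the orbit of the nearest integer -/
theorem bulk (k₁ : ℕ) : ∃ k, k₁ ≤ k ∧ 1 / 4 ≤ |F (F^[k] x) - T (round (F^[k] x))| := by
  by_contra hcon
  push Not at hcon
  obtain ⟨k₂, hk₂⟩ := leave hd hx hgood htend 32
  obtain ⟨k₃, hk₃⟩ := (htend.eventually_ge_atTop 40).exists_forall_of_atTop
  set k₀ := max k₁ (max k₂ k₃) with hk₀
  have hk1 : ∀ i, k₁ ≤ k₀ + i := fun i => by omega
  have hk2 : ∀ i, k₂ ≤ k₀ + i := fun i => by omega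
  have hk3 : ∀ i, k₃ ≤ k₀ + i := fun i => by omega
  set e : ℕ → ℤ := fun i => round (F^[k₀ + i] x) with he
  set r : ℕ → ℝ := fun i => |F^[k₀ + i] x - e i| * (|(e i : ℝ)| + 1) with hr
  have hr32 : ∀ i, 32 ≤ r i := by
    intro i
    have h1 := hk₂ (k₀ + i) (hk2 i)
    rwa [div_le_iff₀ (by positivity)] at h1
  have hee : ∀ i, e (i + 1) = T (e i) := by
    intro i
    have h1 := hcon (k₀ + i) (hk1 i)
    rw [← Function.iterate_succ_apply' F] at h1
    have h2 : |F^[k₀ + (i + 1)] x - e (i + 1)| ≤ 1 / 2 := abs_sub_round _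
    have h3 : (|e (i + 1) - T (e i)| : ℤ) < 1 := by
      have : ((|e (i + 1) - T (e i)| : ℤ) : ℝ) < 1 := by
        push_cast
        have e1 : (e (i + 1) : ℝ) - T (e i) =
            -(F^[k₀ + (i + 1)] x - e (i + 1)) + (F^[k₀ + i + 1] x - T (e i)) := by
          rw [show k₀ + (i + 1) = k₀ + i + 1 from rfl]; ring
        rw [e1]
        refine (abs_add_le _ _).trans_lt ?_
        rw [abs_neg]
        linarith
      exact_mod_cast this
    have h4 := abs_lt.1 h3
    omega
  have hstep : ∀ i, 4 * r i ≤ r (i + 1) := by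
    intro i
    set y := F^[k₀ + i] x with hy
    have hy40 : 40 ≤ |y| := hk₃ _ (hk3 i)
    have hyI : F^[k₀ + (i + 1)] x = F y := by
      rw [show k₀ + (i + 1) = k₀ + i + 1 from rfl, Function.iterate_succ_apply']
    have hfl := sz_floor y
    have hfy : F y - e (i + 1) = F y - T (e i) := by rw [hee]
    have hd1 : |y - e i| ≤ 1 / 2 := abs_sub_round y
    have hlow : sz ⌊y⌋ * |y - e i| ^ 2 / 2 ≤ |F y - T (e i)| := by
      have h1 := Int.floor_le y
      have h2 := Int.lt_floor_add_one y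
      have hcase : e i = ⌊y⌋ ∨ e i = ⌊y⌋ + 1 := by
        have h3 := abs_le.1 hd1
        have h4 : (e i : ℝ) < ⌊y⌋ + 2 := by linarith [h3.1]
        have h5 : (⌊y⌋ : ℝ) - 1 < e i := by linarith [h3.2]
        have h4' : e i < ⌊y⌋ + 2 := by exact_mod_cast h4
        have h5' : ⌊y⌋ - 1 < e i := by exact_mod_cast h5
        omega
      rcases hcase with h | h
      · rw [h] at hd1 ⊢
        rw [abs_of_nonneg (by linarith)] at hd1 ⊢
        have := (F_far_right (n := ⌊y⌋) (by linarith) (t := y - ⌊y⌋) (by linarith) hd1).1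
        rwa [add_sub_cancel] at this
      · rw [h] at hd1 ⊢
        push_cast at hd1 ⊢
        rw [abs_of_neg (by linarith)] at hd1 ⊢
        have := (F_far_right (n := ⌊y⌋) (by linarith) (t := -(y - (⌊y⌋ + 1))) (by linarith) hd1).2
        rwa [show (⌊y⌋ : ℝ) + 1 - -(y - (⌊y⌋ + 1)) = y by ring] at this
    have hT := abs_T (e i)
    have hei : |y| - 1 / 2 ≤ |(e i : ℝ)| := by
      have := abs_sub_abs_le_abs_sub y (e i)
      linarith
    have hei' : |(e i : ℝ)| ≤ |y| + 1 / 2 := by
      have := abs_sub_abs_le_abs_sub (e i : ℝ) y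
      rw [abs_sub_comm] at this
      linarith
    have h32 := hr32 i
    have hri : r i = |y - e i| * (|(e i : ℝ)| + 1) := rfl
    have hri1 : r (i + 1) = |F y - T (e i)| * (|(T (e i) : ℝ)| + 1) := by
      simp only [hr]
      rw [hyI, hfy, hee]
    rw [hri1]
    set δ := |y - e i| with hδ
    have hδ0 : 0 ≤ δ := abs_nonneg _
    set N := |(e i : ℝ)| + 1 with hN
    have hN0 : 40 ≤ N := by linarith
    have a1 : N / 2 * δ ^ 2 / 2 ≤ |F y - T (e i)| := by
      refine le_trans ?_ hlow
      have : N / 2 ≤ sz ⌊y⌋ := by linarith [hfl.1]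
      gcongr
    have a2 : N / 2 ≤ |(T (e i) : ℝ)| + 1 := by linarith
    calc 4 * r i = 4 * (δ * N) := by rw [hri]
      _ ≤ (δ * N) ^ 2 / 8 := by
          rw [hri] at h32
          nlinarith
      _ = N / 2 * δ ^ 2 / 2 * (N / 2) := by ring
      _ ≤ |F y - T (e i)| * (|(T (e i) : ℝ)| + 1) := by gcongr
  have hgrow : ∀ i, 32 * 4 ^ i ≤ r i := by
    intro i
    induction i with
    | zero => simpa using hr32 0
    | succ i ih =>
      have := hstep i
      rw [pow_succ]
      linarith
  have hsize : ∀ i, |(e i : ℝ)| + 1 ≤ 2 ^ i * (|(e 0 : ℝ)| + 1) := by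
    intro i
    induction i with
    | zero => simp
    | succ i ih =>
      rw [hee, pow_succ]
      have := T_growth (e i)
      linarith
  have hfin : ∀ i : ℕ, (2 : ℝ) ^ i ≤ |(e 0 : ℝ)| + 1 := by
    intro i
    have h1 := hgrow i
    have h2 := hsize i
    have h3 : r i ≤ 1 / 2 * (|(e i : ℝ)| + 1) := by
      have : |F^[k₀ + i] x - e i| ≤ 1 / 2 := abs_sub_round _
      simp only [hr]
      gcongr
    have h4 : (4 : ℝ) ^ i = 2 ^ i * 2 ^ i := by rw [← mul_pow]; norm_num
    have h5 : (0 : ℝ) < 2 ^ i := by positivity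
    rw [h4] at h1
    have h6 : 32 * (2 ^ i * 2 ^ i) ≤ 1 / 2 * (2 ^ i * (|(e 0 : ℝ)| + 1)) := by linarith
    have h7 : 2 ^ i * (64 * 2 ^ i) ≤ 2 ^ i * (|(e 0 : ℝ)| + 1) := by linarith
    have h8 := le_of_mul_le_mul_left h7 h5
    linarith
  obtain ⟨i, hi⟩ := pow_unbounded_of_one_lt (|(e 0 : ℝ)| + 1) (by norm_num : (1 : ℝ) < 2)
  exact absurd (hfin i) (not_le.2 hi)

end

end Pool.Agent.E8helper52.RL
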