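import Mathlib
import Pool.Agent.E8helper52.RL.Bulk2

/-!
Almost every point of the real line lies in `A`.
-/

set_option autoImplicit false

open Real Set Filter Topology MeasureTheory

namespace Pool.Agent.E8helper52.RL

open Pool.Agent.H723R2.LSW (F T F_int F_cont f₀_near T_growth f₀ F_coe)
open Pool.Agent.R105.WR (D D_pos D_le_one abs_T)

theorem round_cases {n : ℤ} {x : ℝ} (h1 : (n : ℝ) < x) (h2 : x < n + 1) :
    (round x = n ∧ x ≤ n + 1 / 2) ∨ (round x = n + 1 ∧ n + 1 / 2 ≤ x) := by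
  have h3 := abs_le.1 (abs_sub_round x)
  have h4 : ((round x : ℤ) : ℝ) < n + 2 := by linarith [h3.1]
  have h5 : (n : ℝ) - 1 < round x := by linarith [h3.2]
  have h4' : round x < n + 2 := by exact_mod_cast h4
  have h5' : n - 1 < round x := by exact_mod_cast h5
  have h6 : round x = n ∨ round x = n + 1 := by omega
  rcases h6 with h | h
  · left
    refine ⟨h, ?_⟩
    rw [h] at h3
    linarith [h3.2]
  · right
    refine ⟨h, ?_⟩
    rw [h] at h3
    push_cast at h3
    linarith [h3.1]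

/-- away from the orbits of both end points -/
theorem away {n : ℤ} (hs : 25 ≤ sz n) {x : ℝ} (h1 : (n : ℝ) < x) (h2 : x < n + 1)
    (h : 1 / 4 ≤ |F x - T (round x)|) : 1 / 4 ≤ |F x - T n| ∧ 1 / 4 ≤ |F x - T (n + 1)| := by
  have hmono := F_strict (nz_of_sz (n := n) (by linarith))
  have e0 : F n = T n := F_int n
  have e1 : F ((n : ℝ) + 1) = T (n + 1) := by
    have := F_int (n + 1)
    push_cast at this
    exact this
  obtain ⟨a1, a2⟩ := F_far_right hs (t := 1 / 2) (by norm_num) le_rfl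
  rw [show (n : ℝ) + 1 - 1 / 2 = n + 1 / 2 by ring] at a2
  have m0 : (n : ℝ) ∈ Icc (n : ℝ) (n + 1) := ⟨le_rfl, by linarith⟩
  have mh : (n : ℝ) + 1 / 2 ∈ Icc (n : ℝ) (n + 1) := ⟨by linarith, by linarith⟩
  have m1 : (n : ℝ) + 1 ∈ Icc (n : ℝ) (n + 1) := ⟨by linarith, le_rfl⟩
  have mx : x ∈ Icc (n : ℝ) (n + 1) := ⟨h1.le, h2.le⟩
  rw [← e0] at a1
  rw [← e1] at a2
  rcases round_cases h1 h2 with ⟨hr, hx⟩ | ⟨hr, hx⟩
  · rw [hr] at h
    refine ⟨h, ?_⟩
    rw [← e1]
    rcases hmono with hF | hF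
    · have b1 := hF.monotoneOn mx mh hx
      have b2 := hF mh m1 (by linarith)
      rw [abs_of_neg (by linarith)] at a2
      rw [abs_of_neg (by linarith)]
      linarith
    · have b1 := hF.antitoneOn mx mh hx
      have b2 := hF mh m1 (by linarith)
      rw [abs_of_pos (by linarith)] at a2
      rw [abs_of_pos (by linarith)]
      linarith
  · rw [hr] at h
    refine ⟨?_, h⟩
    rw [← e0]
    rcases hmono with hF | hF
    · have b1 := hF.monotoneOn mh mx hx
      have b2 := hF m0 mh (by linarith)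
      rw [abs_of_pos (by linarith)] at a1
      rw [abs_of_pos (by linarith)]
      linarith
    · have b1 := hF.antitoneOn mh mx hx
      have b2 := hF m0 mh (by linarith)
      rw [abs_of_neg (by linarith)] at a1
      rw [abs_of_neg (by linarith)]
      linarith

/-- distance of an integer from the values in `[u,v]` -/
theorem int_away {Y u v w : ℝ} {m q : ℤ} (hm : (m : ℝ) < Y) (hm1 : Y < m + 1)
    (hu : u = min (m + 1 / 16 : ℝ) Y) (hv : v = max (m + 1 - 1 / 16 : ℝ) Y)
    (hq : 1 / 4 ≤ |Y - q|) (hw1 : u ≤ w) (hw2 : w ≤ v) : 1 / 16 ≤ |w - q| := by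
  have hum : (m : ℝ) < u := by
    rw [hu]; exact lt_min (by linarith) hm
  have hvm : v < m + 1 := by
    rw [hv]; exact max_lt (by linarith) hm1
  rcases lt_trichotomy q m with h | h | h
  · have : (q : ℝ) ≤ m - 1 := by
      have : q ≤ m - 1 := by omega
      exact_mod_cast this
    rw [abs_of_pos (by linarith)]
    linarith
  · rw [h] at hq ⊢
    rw [abs_of_pos (by linarith)] at hq
    have : u = m + 1 / 16 := by rw [hu]; exact min_eq_left (by linarith)
    rw [abs_of_pos (by linarith)]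
    linarith
  · rcases (show m + 1 ≤ q by omega).eq_or_lt with h' | h'
    · rw [← h'] at hq ⊢
      push_cast at hq ⊢
      rw [abs_of_neg (by linarith)] at hq
      have : v = m + 1 - 1 / 16 := by rw [hv]; exact max_eq_left (by linarith)
      rw [abs_of_neg (by linarith)]
      linarith
    · have : (m : ℝ) + 2 ≤ q := by
        have : m + 2 ≤ q := by omega
        exact_mod_cast this
      rw [abs_of_neg (by linarith)]
      linarith

/-- bounded length of the inverse image -/
theorem short {C : ℝ} (hC1 : 1 ≤ C)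
    (hC : ∀ (m : ℤ) (x : ℝ), |x - m| ≤ 1 → |F x - T m| ≤ C * (|(m : ℝ)| + 1) * |x - m| ^ 2)
    {n : ℤ} (hs : 25 ≤ sz n) {a b : ℝ} (hab : a < b) (ha : (n : ℝ) < a) (hb : b < n + 1)
    (hF1 : |F b - F a| ≤ 1) (haw : ∀ c ∈ Ioo a b, 1 / 16 ≤ |F c - T (round c)|) :
    |L b - L a| ≤ 4 * π * C := by
  have hpi := Real.pi_pos
  have hin : ∀ c ∈ Icc a b, (n : ℝ) < c ∧ c < n + 1 := fun c hc =>
    ⟨ha.trans_le hc.1, hc.2.trans_lt hb⟩
  have hne : ∀ c ∈ Icc a b, sin (π * c) ≠ 0 := fun c hc =>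
    sin_ne_unit (hin c hc).1 (hin c hc).2
  obtain ⟨c, hc, e⟩ := exists_ratio_hasDerivAt_eq_ratio_slope L _ hab
    (fun x hx => (L_deriv (hne x hx)).continuousAt.continuousWithinAt)
    (fun x hx => L_deriv (hne x (Ioo_subset_Icc_self hx))) F _
    (fun x _ => (F_deriv x).continuousAt.continuousWithinAt)
    (fun x _ => F_deriv x)
  have hc' := Ioo_subset_Icc_self hc
  set s := |sin (π * c)| with hsd
  set N : ℝ := |((round c : ℤ) : ℝ)| + 1 with hN
  set t := |c - round c| with ht
  have ht2 : t ≤ 1 / 2 := abs_sub_round c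
  have hN0 : 0 < N := by positivity
  have hcs : 25 ≤ |c| := hs.trans (sz_bounds (hin c hc').1.le (hin c hc').2.le).1
  have hsin : 2 * t ≤ s := by
    have e1 : s = |sin (π * (c - round c))| := by
      have := sq_eq_sq_iff_abs_eq_abs _ _ |>.1 (sin_sq_local (round c) (c - round c))
      rw [add_sub_cancel] at this
      exact this
    have h4 : 2 / π * |π * (c - round c)| ≤ |sin (π * (c - round c))| := by
      apply Real.mul_abs_le_abs_sin
      rw [abs_mul, abs_of_pos hpi]
      nlinarith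
    rw [abs_mul, abs_of_pos hpi, ← e1] at h4
    have h5 : 2 / π * (π * |c - round c|) = 2 * t := by rw [ht]; field_simp
    linarith
  have hhl : N ≤ |hh c| := by
    have h1 := hh_lower c
    have h2 : |((round c : ℤ) : ℝ)| ≤ |c| + 1 / 2 := by
      have h3 := abs_sub_abs_le_abs_sub ((round c : ℤ) : ℝ) c
      rw [abs_sub_comm] at h3
      linarith
    linarith
  have hlow : 1 / (4 * C) ≤ s ^ 2 * |hh c| := by
    have h1 := haw c hc
    have h2 := hC (round c) c (by linarith)
    have h3 : 1 / 16 ≤ C * N * t ^ 2 := h1.trans h2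
    have h4 : 4 * t ^ 2 ≤ s ^ 2 := by
      have : (2 * t) ^ 2 ≤ s ^ 2 := by
        apply pow_le_pow_left₀ _ hsin
        positivity
      linarith
    rw [div_le_iff₀ (by positivity)]
    calc (1 : ℝ) ≤ 4 * (4 * (C * N * t ^ 2)) := by linarith
      _ = 4 * t ^ 2 * N * (4 * C) := by ring
      _ ≤ s ^ 2 * |hh c| * (4 * C) := by gcongr
  have hs0 : 0 < s := abs_pos.2 (hne c hc')
  have hhh0 : 0 < |hh c| := hN0.trans_le hhl
  have e2 := congrArg abs e
  rw [abs_mul, abs_mul, abs_div, abs_mul, abs_of_pos hpi, ← hsd] at e2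
  -- `|F b - F a| * (π / s) = |L b - L a| * (s * |hh c|)`
  have e3 : |L b - L a| * (s ^ 2 * |hh c|) = |F b - F a| * π := by
    have : |L b - L a| * (s ^ 2 * |hh c|) = (|L b - L a| * (s * |hh c|)) * s := by ring
    rw [this, ← e2]
    field_simp
  have e4 : |L b - L a| * (1 / (4 * C)) ≤ π := by
    calc |L b - L a| * (1 / (4 * C)) ≤ |L b - L a| * (s ^ 2 * |hh c|) := by gcongr
      _ = |F b - F a| * π := e3
      _ ≤ 1 * π := by gcongr
      _ = π := one_mul _
  have hC0 : 0 < C := by linarith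
  have : |L b - L a| = |L b - L a| * (1 / (4 * C)) * (4 * C) := by field_simp
  rw [this]
  calc _ ≤ π * (4 * C) := by gcongr
    _ = 4 * π * C := by ring

theorem no_dens {M : ℝ} (hM : ∀ n : ℤ, M ≤ sz n →
    volume (Far M ∩ Icc (n : ℝ) (n + 1)) ≤ ENNReal.ofReal (1 / 4)) {j : ℕ} {x : ℝ}
    (hx : x ∈ FarFrom j M) : ¬ Dens (FarFrom j M) x := by
  intro hd
  have hxP : x ∈ P := hx.1
  have hdP : Dens P x := dens_mono (fun y hy => hy.1) hd
  have hgood := dens_good hxP hdP
  have htend := dens_tendsto hxP hdP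
  obtain ⟨C, hC1, hC⟩ := F_near_real
  have hpi := Real.pi_pos
  set R : ℝ := 4 * π * C with hR
  set η : ℝ := 1 / (16 * Real.exp (18 * R)) with hη
  have hη0 : 0 < η := by positivity
  obtain ⟨k₀, hk₀⟩ := density (E := FarFrom j M) (E' := Far M) (j := j)
    (fun k hk y hy => farFrom_far k hk y hy) hd (R := R) (η := η) hη0
  obtain ⟨k₁, hk₁⟩ := (htend.eventually_ge_atTop (max 26 (M + 1))).exists_forall_of_atTop
  obtain ⟨k, hk, hb⟩ := bulk hd hxP hgood htend (max k₀ k₁)
  have hk0 : k₀ ≤ k := (le_max_left _ _).trans hk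
  have hk1 : k₁ ≤ k := (le_max_right _ _).trans hk
  set y := F^[k] x with hy
  have hyP : y ∈ P := P_forward k hxP
  have hYP : F y ∈ P := by
    have := P_forward 1 hyP
    rwa [Function.iterate_one] at this
  have hy26 : 26 ≤ |y| := (le_max_left _ _).trans (hk₁ k hk1)
  have hYM : M + 1 ≤ |F y| := by
    have := hk₁ (k + 1) (by omega)
    rw [Function.iterate_succ_apply'] at this
    exact (le_max_right _ _).trans this
  set n := ⌊y⌋ with hn
  set m := ⌊F y⌋ with hm
  have hn1 : (n : ℝ) < y := lt_of_le_of_ne (Int.floor_le y) fun e => P_not_int hyP _ e.symm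
  have hn2 : y < n + 1 := Int.lt_floor_add_one y
  have hm1 : (m : ℝ) < F y := lt_of_le_of_ne (Int.floor_le _) fun e => P_not_int hYP _ e.symm
  have hm2 : F y < m + 1 := Int.lt_floor_add_one _
  have hsn : 25 ≤ sz n := by
    have := (sz_floor y).1
    linarith
  have hsm : M ≤ sz m := by
    have := (sz_floor (F y)).1
    linarith
  obtain ⟨aw1, aw2⟩ := away hsn hn1 hn2 hb
  set u : ℝ := min (m + 1 / 16 : ℝ) (F y) with hu
  set v : ℝ := max (m + 1 - 1 / 16 : ℝ) (F y) with hv
  have hum : (m : ℝ) < u := lt_min (by linarith) hm1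
  have hvm : v < m + 1 := max_lt (by linarith) hm2
  have hu1 : u ≤ m + 1 / 16 := min_le_left _ _
  have hv1 : (m : ℝ) + 1 - 1 / 16 ≤ v := le_max_left _ _
  have huv : u < v := by linarith
  obtain ⟨a, b, hab, hna, hbn, hay, hyb, him⟩ :=
    inv_branch (nz_of_sz (n := n) (by linarith)) hn1 hn2 hum hvm huv (min_le_right _ _)
      (le_max_right _ _)
  have hmaps : ∀ z ∈ Icc a b, F z ∈ Icc u v := fun z hz => by
    rw [← him]; exact ⟨z, hz, rfl⟩
  have hF1 : |F b - F a| ≤ v - u := by
    have h1 := hmaps a (left_mem_Icc.2 hab.le)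
    have h2 := hmaps b (right_mem_Icc.2 hab.le)
    rw [abs_le]
    constructor <;> linarith [h1.1, h1.2, h2.1, h2.2]
  have haw : ∀ c ∈ Ioo a b, 1 / 16 ≤ |F c - T (round c)| := by
    intro c hc
    have h1 := hmaps c (Ioo_subset_Icc_self hc)
    rcases round_cases (n := n) (x := c) (hna.trans hc.1) (hc.2.trans hbn) with ⟨hr, -⟩ | ⟨hr, -⟩
    · rw [hr]
      exact int_away hm1 hm2 hu hv aw1 h1.1 h1.2
    · rw [hr]
      exact int_away hm1 hm2 hu hv aw2 h1.1 h1.2
  have hL : |L b - L a| ≤ R := short hC1 hC hsn hab hna hbn (by linarith) haw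
  have hvol := hk₀ k hk0 (fun i _ => hgood i) n a b hna hbn hab hay hyb hL
  -- push forward by `F`
  obtain ⟨c₀, hc₀, hlip⟩ := bilip (nz_of_sz (n := n) (by linarith)) hna hab.le hbn
  have hsub : Icc u v \ Far M ⊆ F '' (Icc a b \ Far M) := by
    rintro w ⟨hw, hwE⟩
    rw [← him] at hw
    obtain ⟨z, hz, rfl⟩ := hw
    exact ⟨z, ⟨hz, fun hzE => hwE (far_forward hzE)⟩, rfl⟩
  have h2 : volume (Icc u v \ Far M) ≤
      ENNReal.ofReal (c₀ * Real.exp (18 * |L b - L a|)) * volume (Icc a b \ Far M) :=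
    (measure_mono hsub).trans (vol_image (fun y hy z hz => (hlip y hy.1 z hz.1).2)
      (by positivity))
  have h3 : c₀ * (b - a) ≤ 1 := by
    have h4 := (hlip b (right_mem_Icc.2 hab.le) a (left_mem_Icc.2 hab.le)).1
    rw [abs_of_nonneg (by linarith : 0 ≤ b - a)] at h4
    linarith
  have h5 : volume (Icc u v \ Far M) ≤ ENNReal.ofReal (1 / 16) := by
    refine h2.trans ((mul_le_mul_right hvol _).trans ?_)
    rw [← ENNReal.ofReal_mul (by positivity)]
    apply ENNReal.ofReal_le_ofReal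
    have hba : 0 ≤ b - a := by linarith
    calc c₀ * Real.exp (18 * |L b - L a|) * (η * (b - a))
        ≤ c₀ * Real.exp (18 * R) * (η * (b - a)) := by gcongr
      _ = c₀ * (b - a) * (Real.exp (18 * R) * η) := by ring
      _ ≤ 1 * (Real.exp (18 * R) * η) := by gcongr
      _ = 1 / 16 := by rw [hη]; field_simp
  have h6 : volume (Icc u v) ≤ ENNReal.ofReal (1 / 16) + ENNReal.ofReal (1 / 4) := by
    have h7 : Icc u v ⊆ (Icc u v \ Far M) ∪ (Far M ∩ Icc (m : ℝ) (m + 1)) := by
      intro w hw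
      by_cases hwE : w ∈ Far M
      · right
        exact ⟨hwE, hum.le.trans hw.1, hw.2.trans hvm.le⟩
      · left
        exact ⟨hw, hwE⟩
    refine (measure_mono h7).trans ((measure_union_le _ _).trans ?_)
    exact add_le_add h5 (hM m hsm)
  rw [Real.volume_Icc, ← ENNReal.ofReal_add (by norm_num) (by norm_num)] at h6
  have h8 := (ENNReal.ofReal_le_ofReal_iff (by norm_num)).1 h6
  linarith

/-- the exceptional set has measure zero -/
theorem P_null : volume P = 0 := by
  obtain ⟨M, hM0, hM⟩ := far_small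
  have hmeas : ∀ j : ℕ, MeasurableSet (FarFrom j M) := by
    intro j
    have e : FarFrom j M = P ∩ ⋂ (k : ℕ), ⋂ (_ : j ≤ k), {x : ℝ | M ≤ |F^[k] x|} := by
      ext x
      simp [FarFrom]
    rw [e]
    refine P_closed.measurableSet.inter (IsClosed.measurableSet ?_)
    refine isClosed_iInter fun k => isClosed_iInter fun _ => ?_
    exact isClosed_le continuous_const ((F_cont.iterate k).abs)
  have h1 := dens_ae P_closed.measurableSet
  have h2 : ∀ᵐ x, ∀ j : ℕ, x ∈ FarFrom j M → Dens (FarFrom j M) x :=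
    ae_all_iff.2 fun j => dens_ae (hmeas j)
  have h3 : ∀ᵐ x : ℝ, x ∉ P := by
    filter_upwards [h1, h2] with x hx1 hx2 hxP
    have hd := hx1 hxP
    have ht := dens_tendsto hxP hd
    obtain ⟨j, hj⟩ := (ht.eventually_ge_atTop M).exists_forall_of_atTop
    have hxF : x ∈ FarFrom j M := ⟨hxP, fun k hk => hj k hk⟩
    exact no_dens hM hxF (hx2 j hxF)
  rw [ae_iff] at h3
  simpa using h3

end Pool.Agent.E8helper52.RL
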