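import Mathlib
import Pool.Agent.E8helper52.RL.NoDens
import Pool.Agent.E8helper52.RL.Final

/-!
Almost every real orbit of `f₀` follows the orbit of an integer.
-/

set_option autoImplicit false

open Set Filter Topology Metric MeasureTheory

namespace Pool.Agent.E8helper52.RL

open Pool.Agent.H384R2.Fatou Pool.Agent.H723R2.LSW
open Pool.Agent.R105.WR (D D_pos ball_D)

theorem ae_A : ∀ᵐ x : ℝ, x ∈ A := by
  rw [ae_iff]
  exact P_null

theorem ae_follow : ∀ᵐ x : ℝ, ∃ (n : ℤ) (k : ℕ), f₀^[k] (x : ℂ) ∈ FatouComponent f₀ (n : ℂ) ∧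
    ∃ q : ℝ, 0 ≤ q ∧ q < 1 ∧
      ∀ᶠ j : ℕ in atTop, ‖f₀^[k + j] (x : ℂ) - ((T^[j] n : ℤ) : ℂ)‖ ≤ q ^ (2 ^ j) := by
  filter_upwards [ae_A] with x hx
  obtain ⟨k, n, hk⟩ := A_component hx
  refine ⟨n, k, hk, ?_⟩
  obtain ⟨q, hq0, hq1, hq⟩ := follow_all n hk
  refine ⟨q, hq0, hq1, ?_⟩
  filter_upwards [hq] with j hj
  rw [← Function.iterate_add_apply, add_comm] at hj
  exact hj

theorem julia_null : volume {x : ℝ | (x : ℂ) ∉ FatouSet f₀} = 0 := by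
  have h := ae_A
  have h2 : ∀ᵐ x : ℝ, (x : ℂ) ∈ FatouSet f₀ := by
    filter_upwards [h] with x hx
    exact A_fatou hx
  rwa [ae_iff] at h2

/-- the orbit of an integer which is not wild is bounded -/
theorem tame_bound {n : ℤ} (hn : ¬ Wild n) : ∃ M : ℝ, ∀ j : ℕ, |((T^[j] n : ℤ) : ℝ)| ≤ M := by
  obtain ⟨k, p, a, hp, ha, hk⟩ := tame_hits hn
  set M : ℝ := ∑ i ∈ Finset.range (k + p), |((T^[i] n : ℤ) : ℝ)| with hM
  have hsm : ∀ i < k + p, |((T^[i] n : ℤ) : ℝ)| ≤ M := fun i hi =>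
    Finset.single_le_sum (f := fun i => |((T^[i] n : ℤ) : ℝ)|) (fun i _ => abs_nonneg _)
      (Finset.mem_range.2 hi)
  refine ⟨M, fun j => ?_⟩
  rcases lt_or_ge j k with hj | hj
  · exact hsm j (by omega)
  · obtain ⟨i, rfl⟩ := Nat.exists_eq_add_of_le hj
    have e : T^[k + i] n = T^[k + i % p] n := by
      rw [add_comm k i, add_comm k (i % p), Function.iterate_add_apply,
        Function.iterate_add_apply, hk]
      exact (Function.IsPeriodicPt.iterate_mod_apply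
        (show Function.IsPeriodicPt T p a from ha) i).symm
    rw [e]
    exact hsm _ (by have := Nat.mod_lt i hp; omega)

theorem bounded_of_follow {z : ℂ} {n : ℤ} {k : ℕ} {q M : ℝ} (hq0 : 0 ≤ q) (hq1 : q < 1)
    (h : ∀ᶠ j : ℕ in atTop, ‖f₀^[k + j] z - ((T^[j] n : ℤ) : ℂ)‖ ≤ q ^ (2 ^ j))
    (hM : ∀ j : ℕ, |((T^[j] n : ℤ) : ℝ)| ≤ M) : ∃ R : ℝ, ∀ j : ℕ, ‖f₀^[j] z‖ ≤ R := by
  obtain ⟨J, hJ⟩ := h.exists_forall_of_atTop
  set S : ℝ := ∑ i ∈ Finset.range (k + J), ‖f₀^[i] z‖ with hS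
  have hS0 : 0 ≤ S := Finset.sum_nonneg fun i _ => norm_nonneg _
  have hM0 : 0 ≤ M := (abs_nonneg _).trans (hM 0)
  refine ⟨S + (M + 1), fun j => ?_⟩
  rcases lt_or_ge j (k + J) with hj | hj
  · have := Finset.single_le_sum (f := fun i => ‖f₀^[i] z‖) (fun i _ => norm_nonneg _)
      (Finset.mem_range.2 hj)
    linarith
  · obtain ⟨i, rfl⟩ := Nat.exists_eq_add_of_le hj
    have h1 := hJ (J + i) (by omega)
    rw [← add_assoc] at h1
    have h2 : q ^ (2 ^ (J + i)) ≤ 1 := pow_le_one₀ hq0 hq1.le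
    have h3 : ‖((T^[J + i] n : ℤ) : ℂ)‖ ≤ M := by
      rw [Complex.norm_intCast]; exact hM _
    have h4 : ‖f₀^[k + J + i] z‖ ≤ ‖f₀^[k + J + i] z - ((T^[J + i] n : ℤ) : ℂ)‖ +
        ‖((T^[J + i] n : ℤ) : ℂ)‖ := by
      have := norm_add_le (f₀^[k + J + i] z - ((T^[J + i] n : ℤ) : ℂ)) ((T^[J + i] n : ℤ) : ℂ)
      rwa [sub_add_cancel] at this
    linarith

theorem wild_escape {n : ℤ} (hn : Wild n) {w : ℂ} (hw : w ∈ FatouComponent f₀ (n : ℂ)) :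
    Tendsto (fun k : ℕ => ‖f₀^[k] w‖) atTop atTop := by
  obtain ⟨q, hq0, hq1, hq⟩ := follow_all n hw
  have h1 := wild_tendsto hn
  have h2 : Tendsto (fun k : ℕ => |((T^[k] n : ℤ) : ℝ)| - 1) atTop atTop :=
    tendsto_atTop_add_const_right _ _ h1
  refine tendsto_atTop_mono' _ ?_ h2
  filter_upwards [hq] with j hj
  have h3 : q ^ (2 ^ j) ≤ 1 := pow_le_one₀ hq0 hq1.le
  have h4 : ‖((T^[j] n : ℤ) : ℂ)‖ ≤ ‖f₀^[j] w‖ + ‖f₀^[j] w - ((T^[j] n : ℤ) : ℂ)‖ := by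
    have := norm_sub_le (f₀^[j] w) (f₀^[j] w - ((T^[j] n : ℤ) : ℂ))
    rwa [sub_sub_cancel] at this
  rw [Complex.norm_intCast] at h4
  linarith

theorem real_part_pos (n : ℤ) : 0 < volume {x : ℝ | (x : ℂ) ∈ FatouComponent f₀ (n : ℂ)} := by
  have ho : IsOpen {x : ℝ | (x : ℂ) ∈ FatouComponent f₀ (n : ℂ)} :=
    (component_isOpen f₀ (n : ℂ)).preimage Complex.continuous_ofReal
  refine ho.measure_pos volume ⟨(n : ℝ), ?_⟩
  have h : (n : ℂ) ∈ FatouComponent f₀ (n : ℂ) := mem_connectedComponentIn (int_mem_fatou n)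
  simpa using h

theorem escape_null_iff : (∀ n : ℤ, ¬ IsWanderingDomain f₀ (FatouComponent f₀ (n : ℂ))) ↔
    volume {x : ℝ | Tendsto (fun k : ℕ => ‖f₀^[k] (x : ℂ)‖) atTop atTop} = 0 := by
  constructor
  · intro h
    have h2 : ∀ᵐ x : ℝ, ¬ Tendsto (fun k : ℕ => ‖f₀^[k] (x : ℂ)‖) atTop atTop := by
      filter_upwards [ae_follow] with x hx
      obtain ⟨n, k, -, q, hq0, hq1, hq⟩ := hx
      have hn : ¬ Wild n := fun hw => h n ((wandering_iff n).2 hw)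
      obtain ⟨M, hM⟩ := tame_bound hn
      obtain ⟨R, hR⟩ := bounded_of_follow hq0 hq1 hq hM
      intro ht
      obtain ⟨j, hj⟩ := (ht.eventually_gt_atTop R).exists
      exact absurd (hR j) (not_le.2 hj)
    rw [ae_iff] at h2
    simpa using h2
  · intro h n hn
    have h1 := real_part_pos n
    have h2 : {x : ℝ | (x : ℂ) ∈ FatouComponent f₀ (n : ℂ)} ⊆
        {x : ℝ | Tendsto (fun k : ℕ => ‖f₀^[k] (x : ℂ)‖) atTop atTop} := fun x hx =>
      wild_escape ((wandering_iff n).1 hn) hx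
    have h3 := measure_mono (μ := volume) h2
    rw [h] at h3
    exact absurd h1 (not_lt.2 h3)

theorem bounded_iff : (∀ n : ℤ, ¬ IsWanderingDomain f₀ (FatouComponent f₀ (n : ℂ))) ↔
    ∀ᵐ x : ℝ, ∃ R : ℝ, ∀ k : ℕ, ‖f₀^[k] (x : ℂ)‖ ≤ R := by
  constructor
  · intro h
    filter_upwards [ae_follow] with x hx
    obtain ⟨n, k, -, q, hq0, hq1, hq⟩ := hx
    have hn : ¬ Wild n := fun hw => h n ((wandering_iff n).2 hw)
    obtain ⟨M, hM⟩ := tame_bound hn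
    exact bounded_of_follow hq0 hq1 hq hM
  · intro h
    rw [escape_null_iff]
    have h2 : ∀ᵐ x : ℝ, ¬ Tendsto (fun k : ℕ => ‖f₀^[k] (x : ℂ)‖) atTop atTop := by
      filter_upwards [h] with x hx ht
      obtain ⟨R, hR⟩ := hx
      obtain ⟨j, hj⟩ := (ht.eventually_gt_atTop R).exists
      exact absurd (hR j) (not_le.2 hj)
    rw [ae_iff] at h2
    simpa using h2

end Pool.Agent.E8helper52.RL
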